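import Mathlib

set_option autoImplicit false

open MeasureTheory Set

namespace BallSimp

/-- the Euclidean space -/
abbrev EE (d : ℕ) := EuclideanSpace ℝ (Fin d)

/-- the standard simplex in `ℝ^d`, in the coordinates `x_1, …, x_d` (with `x_0 = 1 - ∑ x_i`) -/
def Std (d : ℕ) : Set (Fin d → ℝ) := {x | (∀ i, 0 ≤ x i) ∧ ∑ i, x i ≤ 1}

/-- all barycentric coordinates -/
def lam {d : ℕ} (x : Fin d → ℝ) : Fin (d + 1) → ℝ := Fin.cons (1 - ∑ i, x i) x

@[simp] lemma lam_zero {d : ℕ} (x : Fin d → ℝ) : lam x 0 = 1 - ∑ i, x i := rfl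
@[simp] lemma lam_succ {d : ℕ} (x : Fin d → ℝ) (i : Fin d) : lam x i.succ = x i := rfl

lemma sum_lam {d : ℕ} (x : Fin d → ℝ) : ∑ i, lam x i = 1 := by
  rw [Fin.sum_univ_succ]; simp

lemma lam_nonneg {d : ℕ} {x : Fin d → ℝ} (hx : x ∈ Std d) (i : Fin (d + 1)) : 0 ≤ lam x i := by
  refine Fin.cases ?_ (fun j => ?_) i
  · rw [lam_zero]; linarith [hx.2]
  · rw [lam_succ]; exact hx.1 j

/-- the point with barycentric coordinates `lam x` with respect to `u` -/
def bmap {d : ℕ} {V : Type*} [AddCommMonoid V] [Module ℝ V] (u : Fin (d + 1) → V) (x : Fin d → ℝ) : V :=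
  ∑ i, lam x i • u i

/-- the determinant of the edge vectors from the vertex `u 0` -/
noncomputable def mt {d : ℕ} (u : Fin (d + 1) → EE d) : Matrix (Fin d) (Fin d) ℝ :=
  Matrix.of fun k i => (u k.succ - u 0) i

lemma bmap_eq {d : ℕ} {V : Type*} [AddCommGroup V] [Module ℝ V] (u : Fin (d + 1) → V) (x : Fin d → ℝ) :
    bmap u x = u 0 + ∑ i, x i • (u i.succ - u 0) := by
  simp only [bmap, Fin.sum_univ_succ, lam_zero, lam_succ, smul_sub, Finset.sum_sub_distrib, sub_smul, one_smul,
    Finset.sum_smul]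
  abel

lemma bmap_ofLp {d : ℕ} (u : Fin (d + 1) → EE d) (x : Fin d → ℝ) :
    bmap u x = WithLp.toLp 2 ((Matrix.toLin' (mt u).transpose) x + (u 0).ofLp) := by
  rw [bmap_eq]
  ext i
  simp [Matrix.mulVec, dotProduct, mt, add_comm, mul_comm]

lemma isClosed_Std (d : ℕ) : IsClosed (Std d) := by
  have : Std d = (⋂ i, {x : Fin d → ℝ | 0 ≤ x i}) ∩ {x | ∑ i, x i ≤ 1} := by
    ext x; simp [Std]
  rw [this]
  refine (isClosed_iInter fun i => isClosed_le continuous_const (continuous_apply i)).inter
    (isClosed_le (by fun_prop) continuous_const)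

lemma Std_sub (d : ℕ) : Std d ⊆ Set.Icc 0 1 := by
  intro x hx
  refine ⟨fun i => hx.1 i, fun i => ?_⟩
  have := Finset.single_le_sum (f := x) (fun j _ => hx.1 j) (Finset.mem_univ i)
  simp only [Pi.one_apply]
  linarith [hx.2]

lemma isCompact_Std (d : ℕ) : IsCompact (Std d) :=
  isCompact_Icc.of_isClosed_subset (isClosed_Std d) (Std_sub d)

lemma vol_Std_lt (d : ℕ) : volume (Std d) < ⊤ := (isCompact_Std d).measure_lt_top

lemma bmap_image {d : ℕ} {V : Type*} [AddCommGroup V] [Module ℝ V] (u : Fin (d + 1) → V) :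
    bmap u '' Std d = convexHull ℝ (Set.range u) := by
  rw [convexHull_range_eq_exists_affineCombination]
  ext y
  constructor
  · rintro ⟨x, hx, rfl⟩
    refine ⟨Finset.univ, lam x, fun i _ => lam_nonneg hx i, sum_lam x, ?_⟩
    rw [Finset.univ.affineCombination_eq_linear_combination _ _ (sum_lam x)]
    rfl
  · rintro ⟨s, w, hw, hs, rfl⟩
    classical
    let w' : Fin (d + 1) → ℝ := fun i => if i ∈ s then w i else 0
    have hw' : ∀ i, 0 ≤ w' i := by
      intro i; by_cases h : i ∈ s <;> simp [w', h]; exact hw i h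
    have hs' : ∑ i, w' i = 1 := by
      rw [← hs]; simp [w', Finset.sum_ite_mem]
    have hlam : lam (fun i => w' i.succ) = w' := by
      funext i
      refine Fin.cases ?_ (fun j => ?_) i
      · rw [lam_zero]
        rw [Fin.sum_univ_succ] at hs'
        linarith
      · rfl
    refine ⟨fun i => w' i.succ, ⟨fun i => hw' _, ?_⟩, ?_⟩
    · rw [Fin.sum_univ_succ] at hs'
      have := hw' 0
      linarith
    · rw [bmap, hlam, s.affineCombination_eq_linear_combination _ _ hs]
      simp [w', Finset.sum_ite_mem, ite_smul]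

lemma continuous_bmap {d : ℕ} (u : Fin (d + 1) → EE d) : Continuous (bmap u) := by
  have : bmap u = fun x => u 0 + ∑ i, x i • (u i.succ - u 0) := by
    funext x; exact bmap_eq u x
  rw [this]; fun_prop

/-- push forward of Lebesgue measure -/
lemma map_bmap {d : ℕ} (u : Fin (d + 1) → EE d) (h : (mt u).det ≠ 0) :
    Measure.map (bmap u) volume = ENNReal.ofReal (|(mt u).det|⁻¹) • (volume : Measure (EE d)) := by
  have e : bmap u = (WithLp.toLp 2) ∘ (fun x => x + (u 0).ofLp) ∘ (Matrix.toLin' (mt u).transpose) := by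
    funext x; exact bmap_ofLp u x
  have h' : (mt u).transpose.det ≠ 0 := by rwa [Matrix.det_transpose]
  have m1 : Measurable (WithLp.toLp 2 : (Fin d → ℝ) → EE d) := (PiLp.volume_preserving_toLp (Fin d)).measurable
  have m2 : Measurable (fun x : Fin d → ℝ => x + (u 0).ofLp) := by fun_prop
  have m3 : Measurable (Matrix.toLin' (mt u).transpose) := (LinearMap.continuous_of_finiteDimensional _).measurable
  rw [e, ← Measure.map_map m1 (m2.comp m3), ← Measure.map_map m2 m3,
    Real.map_matrix_volume_pi_eq_smul_volume_pi h', Measure.map_smul, Measure.map_smul]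
  rw [(measurePreserving_add_right volume (u 0).ofLp).map_eq, (PiLp.volume_preserving_toLp (Fin d)).map_eq,
    Matrix.det_transpose, abs_inv]

lemma inj_bmap {d : ℕ} (u : Fin (d + 1) → EE d) (h : (mt u).det ≠ 0) : Function.Injective (bmap u) := by
  intro x y hxy
  rw [bmap_ofLp, bmap_ofLp] at hxy
  have h1 := congrArg WithLp.ofLp hxy
  simp only at h1
  have h2 := add_right_cancel h1
  have h' : (mt u).transpose.det ≠ 0 := by rwa [Matrix.det_transpose]
  rw [Matrix.toLin'_apply, Matrix.toLin'_apply] at h2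
  exact Matrix.mulVec_injective_of_det_ne_zero h' h2

/-- change of variables -/
lemma lint_hull {d : ℕ} (u : Fin (d + 1) → EE d) (h : (mt u).det ≠ 0) (f : EE d → ENNReal) (hf : Measurable f) :
    ∫⁻ y in convexHull ℝ (Set.range u), f y = ENNReal.ofReal |(mt u).det| * ∫⁻ x in Std d, f (bmap u x) := by
  have hc : IsClosed (convexHull ℝ (Set.range u)) := (Set.Finite.isCompact_convexHull (𝕜 := ℝ) (Set.finite_range u)).isClosed
  have hpos : 0 < |(mt u).det| := abs_pos.mpr h
  have h1 : (volume : Measure (EE d)) = ENNReal.ofReal |(mt u).det| • Measure.map (bmap u) volume := by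
    rw [map_bmap u h, smul_smul, ← ENNReal.ofReal_mul hpos.le, mul_inv_cancel₀ hpos.ne', ENNReal.ofReal_one, one_smul]
  have hpre : bmap u ⁻¹' (convexHull ℝ (Set.range u)) = Std d := by
    rw [← bmap_image, Set.preimage_image_eq _ (inj_bmap u h)]
  conv_lhs => rw [h1]
  rw [Measure.restrict_smul, lintegral_smul_measure, smul_eq_mul,
    setLIntegral_map hc.measurableSet hf (continuous_bmap u).measurable, hpre]

lemma vol_hull_inter {d : ℕ} (u : Fin (d + 1) → EE d) (h : (mt u).det ≠ 0) (A : Set (EE d)) (hA : MeasurableSet A) :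
    volume (A ∩ convexHull ℝ (Set.range u)) = ENNReal.ofReal |(mt u).det| * volume {x ∈ Std d | bmap u x ∈ A} := by
  have h1 := lint_hull u h (A.indicator 1) (measurable_one.indicator hA)
  have hm : MeasurableSet {x | bmap u x ∈ A} := (continuous_bmap u).measurable hA
  rw [lintegral_indicator_one hA, Measure.restrict_apply hA] at h1
  rw [h1]
  congr 1
  have : (fun x => A.indicator (1 : EE d → ENNReal) (bmap u x)) = ({x | bmap u x ∈ A}).indicator 1 := by
    funext x; simp [Set.indicator]
  rw [this, lintegral_indicator_one hm, Measure.restrict_apply hm, Set.inter_comm]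
  rfl

end BallSimp
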