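import Pool.Agent.BallSimp.HypMain

set_option autoImplicit false

open MeasureTheory Set Filter Topology

namespace BallSimp

variable {d : ℕ}

/-- the facet opposite to a vertex -/
def facet (w : Fin (d + 1) → EE d) (i : Fin (d + 1)) : Set (EE d) := convexHull ℝ (w '' {i}ᶜ)

/-- the linear functional given by a vertex of a regular centred simplex is minimal on the opposite facet -/
lemma Reg.facet_eq {w : Fin (d + 1) → EE d} {α : ℝ} (h : Reg w α) (i : Fin (d + 1)) {y : EE d} (hy : y ∈ facet w i) :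
    inner ℝ y (w i) = -(α / ((d : ℝ) + 1)) := by
  have hc : Convex ℝ {y : EE d | inner ℝ y (w i) = -(α / ((d : ℝ) + 1))} := by
    intro x hx y hy a b ha hb hab
    simp only [mem_ofPred_eq] at hx hy ⊢
    rw [inner_add_left, real_inner_smul_left, real_inner_smul_left, hx, hy, ← add_mul, hab, one_mul]
  have hs : w '' {i}ᶜ ⊆ {y : EE d | inner ℝ y (w i) = -(α / ((d : ℝ) + 1))} := by
    rintro _ ⟨j, hj, rfl⟩
    have hji : j ≠ i := hj
    simp only [mem_ofPred_eq, h j i, if_neg hji]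
    ring
  exact convexHull_min hs hc hy

lemma Reg.hull_ge {w : Fin (d + 1) → EE d} {α : ℝ} (hα : 0 < α) (h : Reg w α) (i : Fin (d + 1)) {y : EE d}
    (hy : y ∈ convexHull ℝ (Set.range w)) : -(α / ((d : ℝ) + 1)) ≤ inner ℝ y (w i) := by
  have hc : Convex ℝ {y : EE d | -(α / ((d : ℝ) + 1)) ≤ inner ℝ y (w i)} := by
    intro x hx y hy a b ha hb hab
    simp only [mem_ofPred_eq] at hx hy ⊢
    rw [inner_add_left, real_inner_smul_left, real_inner_smul_left]
    have : -(α / ((d : ℝ) + 1)) = a * -(α / ((d : ℝ) + 1)) + b * -(α / ((d : ℝ) + 1)) := by rw [← add_mul, hab, one_mul]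
    rw [this]
    gcongr
  have hs : Set.range w ⊆ {y : EE d | -(α / ((d : ℝ) + 1)) ≤ inner ℝ y (w i)} := by
    rintro _ ⟨j, rfl⟩
    simp only [mem_ofPred_eq, h j i]
    split_ifs
    · have : α * (1 - 1 / ((d : ℝ) + 1)) = α - α / ((d : ℝ) + 1) := by ring
      rw [this]; linarith
    · have : α * (0 - 1 / ((d : ℝ) + 1)) = -(α / ((d : ℝ) + 1)) := by ring
      rw [this]
  exact convexHull_min hs hc hy

lemma Reg.det_ne {w : Fin (d + 1) → EE d} {α : ℝ} (hα : 0 < α) (h : Reg w α) : (mt w).det ≠ 0 := by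
  have := h.det_sq
  intro h0
  rw [h0] at this
  have h2 : 0 < α ^ d * ((d : ℝ) + 1) := by positivity
  rw [← this] at h2
  simp at h2

/-- Euclidean space: a simplex containing a ball has at least the volume of the regular circumscribed one -/
lemma eucl_circ (hd : 0 < d) (v w : Fin (d + 1) → EE d) (α : ℝ) (hα : 0 < α) (hw : Reg w α) (hvd : (mt v).det ≠ 0)
    (r : ℝ) (hr : 0 < r) (hv : Metric.closedBall (0 : EE d) r ⊆ convexHull ℝ (Set.range v))
    (i : Fin (d + 1)) (y : EE d) (hy1 : y ∈ facet w i) (hy2 : ‖y‖ ≤ r) : |(mt w).det| ≤ |(mt v).det| := by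
  by_contra hlt
  push Not at hlt
  have hwd := hw.det_ne hα
  have hwp : 0 < |(mt w).det| := abs_pos.mpr hwd
  have hvp : 0 < |(mt v).det| := abs_pos.mpr hvd
  set κ : ℝ := (|(mt v).det| / |(mt w).det|) ^ (1 / (d : ℝ)) with hκ
  have hd' : (0 : ℝ) < d := by exact_mod_cast hd
  have hκ0 : 0 < κ := by positivity
  have hκ1 : κ < 1 := Real.rpow_lt_one (by positivity) ((div_lt_one hwp).mpr hlt) (by positivity)
  have hκd : κ ^ d = |(mt v).det| / |(mt w).det| := by
    rw [hκ, one_div]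
    exact Real.rpow_inv_natCast_pow (by positivity) (by omega)
  have hdet : |(mt (fun i => κ • w i)).det| = |(mt v).det| := by
    rw [mt_smul, Matrix.det_smul, Fintype.card_fin, abs_mul, abs_pow, abs_of_nonneg hκ0.le, hκd, div_mul_cancel₀ _ hwp.ne']
  have hne : (mt (fun i => κ • w i)).det ≠ 0 := by
    rw [← abs_ne_zero, hdet]; exact hvp.ne'
  have h1 := eucl r v _ _ hvd (hw.smul κ) hdet
  have hb : ∀ u : Fin (d + 1) → EE d, {x ∈ Std d | bmap u x ∈ Metric.closedBall 0 r} = {x ∈ Std d | ‖bmap u x‖ ≤ r} := by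
    intro u; ext x; simp
  have h2 : volume (Metric.closedBall (0 : EE d) r) ≤ volume (Metric.closedBall 0 r ∩ convexHull ℝ (Set.range fun i => κ • w i)) := by
    calc volume (Metric.closedBall (0 : EE d) r) = volume (Metric.closedBall 0 r ∩ convexHull ℝ (Set.range v)) := by
          rw [inter_eq_left.mpr hv]
      _ = ENNReal.ofReal |(mt v).det| * NN r v := by
          rw [vol_hull_inter v hvd _ Metric.isClosed_closedBall.measurableSet, hb]; rfl
      _ ≤ ENNReal.ofReal |(mt (fun i => κ • w i)).det| * NN r (fun i => κ • w i) := by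
          rw [hdet]; gcongr
      _ = _ := by
          rw [vol_hull_inter _ hne _ Metric.isClosed_closedBall.measurableSet, hb]; rfl
  have h3 := ball_sub r _ (isClosed_hull _) hr h2
  have h4 := h3 (mem_closedBall_zero_iff.mpr hy2)
  have h5 := (hw.smul κ).hull_ge (by positivity) i h4
  rw [real_inner_smul_right, hw.facet_eq i hy1] at h5
  have h6 : 0 < α / ((d : ℝ) + 1) := by positivity
  have h7 : κ ^ 2 * α / ((d : ℝ) + 1) = κ * (κ * (α / ((d : ℝ) + 1))) := by ring
  rw [h7] at h5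
  have h8 : κ * (κ * (α / ((d : ℝ) + 1))) < κ * (1 * (α / ((d : ℝ) + 1))) := by gcongr
  linarith

/-- hypotheses -/
structure CPair (c : EE d) (v w : Fin (d + 1) → EE d) : Prop where
  hc : ‖c‖ < 1
  hv : ∀ i, ‖v i‖ < 1
  hw : ∀ i, ‖w i‖ < 1
  hva : AffineIndependent ℝ v
  hwa : AffineIndependent ℝ w
  hreg : ∃ s : ℝ, ∀ i j, i ≠ j → chd (w j) (w i) = s
  hcen : ∃ q : ℝ, ∀ i, chd c (w i) = q

lemma CPair.reg {v w : Fin (d + 1) → EE d} (h : CPair 0 v w) : ∃ α, 0 < α ∧ Reg w α := by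
  obtain ⟨q, hq⟩ := h.hcen
  obtain ⟨s, hs⟩ := h.hreg
  have hp : ∀ i, 0 < 1 - ‖w i‖ ^ 2 := fun i => by nlinarith [norm_nonneg (w i), h.hw i]
  have h1 : ∀ i, 1 - ‖w i‖ ^ 2 = 1 / q ^ 2 := by
    intro i
    have h2 := hq i
    rw [chd_zero] at h2
    have h3 : 0 < Real.sqrt (1 - ‖w i‖ ^ 2) := Real.sqrt_pos.mpr (hp i)
    rw [← h2, div_pow, one_pow, Real.sq_sqrt (hp i).le]
    have := (hp i).ne'
    field_simp
  refine reg_of_gram w ((affInd_iff w).mp h.hwa) (1 - 1 / q ^ 2) (1 - s * (1 / q ^ 2)) ?_ ?_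
  · intro i
    rw [real_inner_self_eq_norm_sq]
    linarith [h1 i]
  · intro i j hij
    have h2 := hs i j hij
    rw [chd, h1 i, h1 j] at h2
    have h0 : 0 < 1 / q ^ 2 := by rw [← h1 0]; exact hp 0
    rw [Real.sqrt_mul_self h0.le, div_eq_iff h0.ne'] at h2
    linarith

lemma CPair.tr {c : EE d} {v w : Fin (d + 1) → EE d} (h : CPair c v w) {n : ℝ × EE d} (hn : 0 < lor d n n) :
    CPair (tr n c) (fun i => tr n (v i)) (fun i => tr n (w i)) where
  hc := tr_norm hn h.hc
  hv := fun i => tr_norm hn (h.hv i)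
  hw := fun i => tr_norm hn (h.hw i)
  hva := affInd_tr hn v h.hv h.hva
  hwa := affInd_tr hn w h.hw h.hwa
  hreg := by
    obtain ⟨s, hs⟩ := h.hreg
    exact ⟨s, fun i j hij => by rw [chd_tr hn (h.hw i) (h.hw j), hs i j hij]⟩
  hcen := by
    obtain ⟨q, hq⟩ := h.hcen
    exact ⟨q, fun i => by rw [chd_tr hn (h.hw i) h.hc, hq i]⟩

/-- membership in the convex hull of finitely many points in terms of the cone over the lifts -/
lemma mem_hull_set {ι : Type*} [Fintype ι] (v : ι → EE d) {X : ℝ × EE d} (hX : Fwd X) :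
    prj X ∈ convexHull ℝ (Set.range v) ↔ X ∈ Kc fun i => lft (v i) := by
  constructor
  · intro h
    have hf : (Set.range v) = ((Set.finite_range v).toFinset : Set (EE d)) := by simp
    rw [convexHull_range_eq_exists_affineCombination] at h
    obtain ⟨s, w, hw, hs, he⟩ := h
    classical
    refine ⟨fun i => X.1 * (if i ∈ s then w i else 0), fun i => ?_, ?_⟩
    · refine mul_nonneg hX.1.le ?_
      split_ifs with h
      · exact hw i h
      · exact le_rfl
    · rw [s.affineCombination_eq_linear_combination _ _ hs] at he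
      have e1 : ∑ i, (if i ∈ s then w i else 0) = 1 := by rw [Finset.sum_ite_mem, Finset.univ_inter, hs]
      have e2 : ∑ i, (if i ∈ s then w i else 0) • v i = prj X := by
        rw [← he]; simp [ite_smul, Finset.sum_ite_mem]
      ext1
      · rw [Prod.fst_sum]
        simp only [lft, Prod.smul_fst, smul_eq_mul, mul_one, ← Finset.mul_sum, e1]
      · rw [Prod.snd_sum]
        simp only [lft, Prod.smul_snd, mul_smul, ← Finset.smul_sum]
        rw [e2, prj, smul_smul, mul_inv_cancel₀ hX.1.ne', one_smul]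
  · rintro ⟨a, ha, he⟩
    have h1 : X.1 = ∑ i, a i := by
      have := congrArg Prod.fst he
      rw [Prod.fst_sum] at this
      simpa [lft] using this
    have h2 : X.2 = ∑ i, a i • v i := by
      have := congrArg Prod.snd he
      rw [Prod.snd_sum] at this
      simpa [lft] using this
    rw [prj, h2, Finset.smul_sum]
    simp only [smul_smul]
    refine (convex_convexHull ℝ _).sum_mem (fun i _ => mul_nonneg (inv_nonneg.mpr hX.1.le) (ha i)) ?_
      (fun i _ => subset_convexHull ℝ _ ⟨i, rfl⟩)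
    rw [← Finset.mul_sum, ← h1, inv_mul_cancel₀ hX.1.ne']

lemma facet_eq_range (w : Fin (d + 1) → EE d) (i : Fin (d + 1)) :
    facet w i = convexHull ℝ (Set.range fun j : {j : Fin (d + 1) // j ≠ i} => w j) := by
  rw [facet]
  congr 1
  ext x
  constructor
  · rintro ⟨j, hj, rfl⟩; exact ⟨⟨j, hj⟩, rfl⟩
  · rintro ⟨⟨j, hj⟩, rfl⟩; exact ⟨j, hj, rfl⟩

lemma mem_facet_tr {n : ℝ × EE d} (hn : 0 < lor d n n) (w : Fin (d + 1) → EE d) (hw : ∀ i, ‖w i‖ < 1)
    {x : EE d} (hx : ‖x‖ < 1) (i : Fin (d + 1)) (h : x ∈ facet w i) : tr n x ∈ facet (fun i => tr n (w i)) i := by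
  rw [facet_eq_range] at h ⊢
  have hX := fwd_refl hn (fwd_lft hx)
  rw [tr, mem_hull_set _ hX, Kc_refl _ hn.ne']
  have e1 : (fun j : {j : Fin (d + 1) // j ≠ i} => rfl' (lor d) n (lft (tr n (w j)))) =
      fun j : {j : Fin (d + 1) // j ≠ i} => (rfl' (lor d) n (lft (w j))).1⁻¹ • lft (w j) := by
    funext j
    have hf := fwd_refl hn (fwd_lft (hw j))
    rw [tr, lft_prj hf, map_smul, rfl'_invol _ hn.ne']
  rw [e1, Kc_smul (fun j : {j : Fin (d + 1) // j ≠ i} => lft (w j))
    (fun j : {j : Fin (d + 1) // j ≠ i} => (rfl' (lor d) n (lft (w j))).1⁻¹)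
    (fun j => inv_pos.mpr (fwd_refl hn (fwd_lft (hw j))).1)]
  have := (mem_hull_set (fun j : {j : Fin (d + 1) // j ≠ i} => w j) (fwd_lft hx)).mp (by rw [prj_lft]; exact h)
  exact this

lemma circ0 {v w : Fin (d + 1) → EE d} (h : CPair 0 v w) (R : ℝ) (hR : 1 < R)
    (hv : hB (0 : EE d) R ⊆ convexHull ℝ (Set.range v)) (i : Fin (d + 1)) (y : EE d) (hy1 : y ∈ facet w i)
    (hy2 : y ∈ hB (0 : EE d) R) : muK d (convexHull ℝ (Set.range w)) ≤ muK d (convexHull ℝ (Set.range v)) := by
  rcases Nat.eq_zero_or_pos d with hd | hd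
  · subst hd
    have : v = w := Subsingleton.elim _ _
    rw [this]
  obtain ⟨α, hα, hw⟩ := h.reg
  rcases hB_zero (d := d) R with ⟨-, h1⟩ | ⟨-, h1⟩
  · linarith
  · rw [h1] at hv hy2
    have hr : 0 < Real.sqrt (1 - 1 / R ^ 2) := by
      apply Real.sqrt_pos.mpr
      rw [sub_pos, div_lt_one (by positivity)]; nlinarith
    have hvd := (affInd_iff v).mp h.hva
    have h2 := eucl_circ hd v w α hα hw hvd _ hr hv i y hy1 (mem_closedBall_zero_iff.mp hy2)
    rw [muK_hull v hvd, muK_hull w (hw.det_ne hα)]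
    have h3 := jens v w α h.hv hvd hw hα h2
    gcongr

/-- **hyperbolic space: a simplex containing a ball has at least the volume of the regular simplex
circumscribed about it** -/
theorem circ {c : EE d} {v w : Fin (d + 1) → EE d} (h : CPair c v w) (R : ℝ) (hR : 1 < R)
    (hv : hB c R ⊆ convexHull ℝ (Set.range v)) (i : Fin (d + 1)) (y : EE d) (hy1 : y ∈ facet w i)
    (hy2 : y ∈ hB c R) : muK d (convexHull ℝ (Set.range w)) ≤ muK d (convexHull ℝ (Set.range v)) := by
  rcases exists_centred c h.hc with h0 | ⟨n, hn, h0⟩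
  · subst h0; exact circ0 h R hR hv i y hy1 hy2
  · have h1 := h.tr hn
    have hyt : BallSimp.tr n y ∈ hB (BallSimp.tr n c) R := ⟨tr_norm hn hy2.1, by rw [chd_tr hn hy2.1 h.hc]; exact hy2.2⟩
    have hyf := mem_facet_tr hn w h.hw hy2.1 i hy1
    rw [← hB_tr hn c h.hc R v h.hv] at hv
    have e1 := lint_tr hn v h.hv c h.hc (fun _ => 1) measurable_const
    have e2 := lint_tr hn w h.hw c h.hc (fun _ => 1) measurable_const
    simp only [lintegral_one, Measure.restrict_apply MeasurableSet.univ, univ_inter] at e1 e2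
    rw [← e1, ← e2]
    rw [h0] at h1 hv hyt
    exact circ0 h1 R hR hv i _ hyf hyt

end BallSimp
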