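import Mathlib

set_option autoImplicit false

open MeasureTheory Set Filter Topology

namespace BallSimp

/-- upper semicontinuity of the measure of a family of sets with closed graph -/
lemma usc_measure {X : Type*} [MeasurableSpace X] (μ : Measure X) (S : Set X) (hS : μ S ≠ ⊤)
    (A : ℕ → Set X) (B : Set X) (hA : ∀ n, MeasurableSet (A n)) (hAS : ∀ n, A n ⊆ S)
    (hlim : ∀ x, (∃ᶠ n in atTop, x ∈ A n) → x ∈ B) (M : ENNReal) (hM : ∀ n, M ≤ μ (A n)) : M ≤ μ B := by
  let D : ℕ → Set X := fun n => ⋃ k, A (n + k)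
  have hD : Antitone D := by
    intro m n hmn x hx
    simp only [D, mem_iUnion] at hx ⊢
    obtain ⟨k, hk⟩ := hx
    exact ⟨n - m + k, by rwa [← add_assoc, Nat.add_sub_cancel' hmn]⟩
  have hm : ∀ n, MeasurableSet (D n) := fun n => MeasurableSet.iUnion fun k => hA _
  have hfin : μ (D 0) ≠ ⊤ := by
    refine ne_top_of_le_ne_top hS (measure_mono ?_)
    intro x hx
    simp only [D, mem_iUnion] at hx
    obtain ⟨k, hk⟩ := hx
    exact hAS _ hk
  have ht := tendsto_measure_iInter_atTop (μ := μ) (fun n => (hm n).nullMeasurableSet) hD ⟨0, hfin⟩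
  have h1 : M ≤ μ (⋂ n, D n) := by
    refine ge_of_tendsto ht (Eventually.of_forall fun n => ?_)
    refine (hM n).trans (measure_mono ?_)
    intro x hx
    simp only [D, mem_iUnion]
    exact ⟨0, by simpa using hx⟩
  refine h1.trans (measure_mono ?_)
  intro x hx
  apply hlim
  rw [frequently_atTop]
  intro n
  have := mem_iInter.mp hx n
  simp only [D, mem_iUnion] at this
  obtain ⟨k, hk⟩ := this
  exact ⟨n + k, by omega, hk⟩

end BallSimp
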