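import Pool.Agent.BallSimp.Steiner
import Pool.Agent.BallSimp.Usc

set_option autoImplicit false

open MeasureTheory Set Filter Topology

namespace BallSimp

/-- the vertices of a regular simplex centred at the origin -/
def Reg {d : ℕ} (u : Fin (d + 1) → EE d) (α : ℝ) : Prop :=
  ∀ i j, inner ℝ (u i) (u j) = α * ((if i = j then 1 else 0) - 1 / ((d : ℝ) + 1))

lemma Reg.norm_bmap {d : ℕ} {u : Fin (d + 1) → EE d} {α : ℝ} (h : Reg u α) (x : Fin d → ℝ) :
    ‖bmap u x‖ ^ 2 = α * (∑ k, lam x k ^ 2 - 1 / ((d : ℝ) + 1)) := by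
  rw [← real_inner_self_eq_norm_sq, inner_bmap]
  have : ∀ k, inner ℝ (u k) (bmap u x) = α * (lam x k - 1 / ((d : ℝ) + 1)) := by
    intro k
    rw [real_inner_comm, inner_bmap]
    simp only [h _ k]
    have : ∀ i, lam x i * (α * ((if i = k then (1 : ℝ) else 0) - 1 / ((d : ℝ) + 1))) =
        (if i = k then α * lam x i else 0) - (α / ((d : ℝ) + 1)) * lam x i := by
      intro i; split_ifs <;> ring
    simp only [this, Finset.sum_sub_distrib, Finset.sum_ite_eq', Finset.mem_univ, if_true, ← Finset.mul_sum, sum_lam]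
    ring
  simp only [this]
  have : ∀ i, lam x i * (α * (lam x i - 1 / ((d : ℝ) + 1))) = α * lam x i ^ 2 - (α / ((d : ℝ) + 1)) * lam x i := by
    intro i; ring
  simp only [this, Finset.sum_sub_distrib, ← Finset.mul_sum, sum_lam]
  ring

lemma mt_mul_transpose {d : ℕ} (u : Fin (d + 1) → EE d) (k l : Fin d) :
    (mt u * (mt u).transpose) k l = inner ℝ (u k.succ - u 0) (u l.succ - u 0) := by
  simp only [Matrix.mul_apply, Matrix.transpose_apply, mt, Matrix.of_apply, PiLp.inner_apply]
  refine Finset.sum_congr rfl fun i _ => ?_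
  simp [mul_comm]

lemma Reg.gram {d : ℕ} {u : Fin (d + 1) → EE d} {α : ℝ} (h : Reg u α) :
    mt u * (mt u).transpose = α • (1 + Matrix.of fun _ _ => (1 : ℝ)) := by
  ext k l
  rw [mt_mul_transpose, inner_sub_left, inner_sub_right, inner_sub_right, h, h, h, h]
  simp only [Fin.succ_inj, Fin.succ_ne_zero, (Fin.succ_ne_zero _).symm, if_true, if_false, Matrix.smul_apply,
    Matrix.add_apply, Matrix.one_apply, Matrix.of_apply, smul_eq_mul]
  ring

lemma det_one_add_ones (d : ℕ) : (1 + Matrix.of fun _ _ => (1 : ℝ) : Matrix (Fin d) (Fin d) ℝ).det = (d : ℝ) + 1 := by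
  have := Matrix.det_one_add_replicateCol_mul_replicateRow (ι := Unit) (fun _ : Fin d => (1 : ℝ)) (fun _ => 1)
  have e : (Matrix.replicateCol Unit (fun _ : Fin d => (1 : ℝ)) * Matrix.replicateRow Unit fun _ : Fin d => (1 : ℝ)) =
      Matrix.of fun _ _ => (1 : ℝ) := by
    ext i j; simp [Matrix.mul_apply]
  rw [e] at this
  rw [this]
  simp only [dotProduct, mul_one, Finset.sum_const, Finset.card_univ, Fintype.card_fin, nsmul_eq_mul]
  ring

lemma Reg.det_sq {d : ℕ} {u : Fin (d + 1) → EE d} {α : ℝ} (h : Reg u α) :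
    (mt u).det ^ 2 = α ^ d * ((d : ℝ) + 1) := by
  have := congrArg Matrix.det h.gram
  rw [Matrix.det_mul, Matrix.det_transpose, Matrix.det_smul, det_one_add_ones, Fintype.card_fin] at this
  rw [sq, this]

lemma Reg.nonneg {d : ℕ} (hd : 0 < d) {u : Fin (d + 1) → EE d} {α : ℝ} (h : Reg u α) : 0 ≤ α := by
  have h1 := h 0 0
  rw [real_inner_self_eq_norm_sq] at h1
  simp only [if_true] at h1
  have h2 : 0 ≤ ‖u 0‖ ^ 2 := by positivity
  rw [h1] at h2
  have hd' : (0 : ℝ) < d := by exact_mod_cast hd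
  have h3 : (1 : ℝ) - 1 / ((d : ℝ) + 1) = d / (d + 1) := by field_simp; ring
  rw [h3] at h2
  have h4 : (0 : ℝ) < d / (d + 1) := by positivity
  by_contra hlt
  push Not at hlt
  have := mul_neg_of_neg_of_pos hlt h4
  linarith

lemma Reg.NN_eq {d : ℕ} {u w : Fin (d + 1) → EE d} {α : ℝ} (h : Reg u α) (h' : Reg w α) (r : ℝ) :
    NN r u = NN r w := by
  unfold NN
  congr 1
  ext x
  have : ‖bmap u x‖ = ‖bmap w x‖ := by
    rw [← Real.sqrt_sq (norm_nonneg (bmap u x)), ← Real.sqrt_sq (norm_nonneg (bmap w x)), h.norm_bmap, h'.norm_bmap]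
  simp [this]

/-- the potential -/
noncomputable def pot {d : ℕ} (u : Fin (d + 1) → EE d) : ℝ := ∑ k, ‖u k‖ ^ 2

lemma inner_tau {d : ℕ} (u : Fin (d + 1) → EE d) (j : Fin d) (h : u 0 ≠ u j.succ) :
    ∑ k, tau u j k * inner ℝ (u k) (u 0 - u j.succ) = (∑ k, tau u j k ^ 2) * ‖u 0 - u j.succ‖ ^ 2 := by
  have hn : ‖u 0 - u j.succ‖ ^ 2 ≠ 0 := by
    have : 0 < ‖u 0 - u j.succ‖ := norm_pos_iff.mpr (sub_ne_zero.mpr h)
    positivity
  have h0 : tau u j 0 * ‖u 0 - u j.succ‖ ^ 2 = (inner ℝ (u 0) (u 0 - u j.succ) + inner ℝ (u j.succ) (u 0 - u j.succ)) / 2 := by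
    simp only [tau, true_or, if_true]
    rw [div_mul_cancel₀ _ hn, inner_smul_left, inner_add_left]
    simp only [RCLike.conj_to_real]
    ring
  have hj : tau u j j.succ = tau u j 0 := by simp [tau]
  have hk : ∀ k : Fin d, k ≠ j → tau u j k.succ * ‖u 0 - u j.succ‖ ^ 2 = inner ℝ (u k.succ) (u 0 - u j.succ) := by
    intro k hk
    have : ¬ (k.succ = 0 ∨ k.succ = j.succ) := by
      rintro (h1 | h1)
      · exact Fin.succ_ne_zero _ h1
      · exact hk (Fin.succ_injective _ h1)
    simp only [tau, if_neg this]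
    rw [div_mul_cancel₀ _ hn]
  rw [Fin.sum_univ_succ, Fin.sum_univ_succ, ← Finset.add_sum_erase _ _ (Finset.mem_univ j),
    ← Finset.add_sum_erase Finset.univ (fun k : Fin d => tau u j k.succ ^ 2) (Finset.mem_univ j), add_mul, add_mul,
    Finset.sum_mul]
  have : ∑ k ∈ Finset.univ.erase j, tau u j k.succ * inner ℝ (u k.succ) (u 0 - u j.succ) =
      ∑ k ∈ Finset.univ.erase j, tau u j k.succ ^ 2 * ‖u 0 - u j.succ‖ ^ 2 :=
    Finset.sum_congr rfl fun k hk' => by rw [← hk k (Finset.ne_of_mem_erase hk')]; ring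
  rw [this, hj]
  linear_combination (-2 * tau u j 0) * h0

lemma pot_st {d : ℕ} (u : Fin (d + 1) → EE d) (j : Fin d) (h : u 0 ≠ u j.succ) :
    pot (st u j) = pot u - (∑ k, tau u j k ^ 2) * ‖u 0 - u j.succ‖ ^ 2 := by
  have h1 : ∀ k, ‖st u j k‖ ^ 2 = ‖u k‖ ^ 2 - 2 * (tau u j k * inner ℝ (u k) (u 0 - u j.succ)) +
      tau u j k ^ 2 * ‖u 0 - u j.succ‖ ^ 2 := by
    intro k
    rw [st, norm_sub_sq_real, inner_smul_right, norm_smul, mul_pow]
    simp only [Real.norm_eq_abs, sq_abs]
  simp only [pot, h1, Finset.sum_add_distrib, Finset.sum_sub_distrib, ← Finset.mul_sum, ← Finset.sum_mul]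
  rw [inner_tau u j h]
  ring

lemma ne_of_det {d : ℕ} (u : Fin (d + 1) → EE d) (h : (mt u).det ≠ 0) (j : Fin d) : u 0 ≠ u j.succ := by
  intro he
  apply h
  apply Matrix.det_eq_zero_of_row_eq_zero j
  intro i
  simp [mt, he]

/-- equal norms and equal inner products characterise the regular centred simplices -/
lemma reg_of_gram {d : ℕ} (u : Fin (d + 1) → EE d) (h : (mt u).det ≠ 0) (a b : ℝ)
    (hd : ∀ i, inner ℝ (u i) (u i) = a) (hb : ∀ i j, i ≠ j → inner ℝ (u i) (u j) = b) :
    ∃ α, 0 < α ∧ Reg u α := by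
  have hn : ∀ j : Fin d, 0 < ‖u 0 - u j.succ‖ ^ 2 := by
    intro j
    have : 0 < ‖u 0 - u j.succ‖ := norm_pos_iff.mpr (sub_ne_zero.mpr (ne_of_det u h j))
    positivity
  have hK : ∀ i j, inner ℝ (u i) (u j) = (a - b) * (if i = j then 1 else 0) + b := by
    intro i j
    by_cases hij : i = j
    · subst hij; rw [hd, if_pos rfl]; ring
    · rw [hb i j hij, if_neg hij]; ring
  rcases Nat.eq_zero_or_pos d with hd0 | hd0
  · subst hd0
    refine ⟨1, one_pos, fun i j => ?_⟩
    have h1 : u i = 0 := Subsingleton.elim _ _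
    have h2 : i = j := Fin.ext (by omega)
    rw [h1, h2]; simp
  -- linear dependence
  have hdep : ¬ LinearIndependent ℝ u := by
    intro hli
    have := hli.fintype_card_le_finrank
    rw [finrank_euclideanSpace_fin, Fintype.card_fin] at this
    omega
  rw [Fintype.not_linearIndependent_iff] at hdep
  obtain ⟨c, hc, i0, hi0⟩ := hdep
  have hab0 : 0 < a - b := by
    have h1 := hn ⟨0, hd0⟩
    rw [norm_sub_sq_real, hb 0 _ (Fin.succ_ne_zero _).symm, ← real_inner_self_eq_norm_sq,
      ← real_inner_self_eq_norm_sq, hd, hd] at h1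
    linarith
  have hab : a - b ≠ 0 := hab0.ne'
  have hcj : ∀ j, (a - b) * c j + b * ∑ i, c i = 0 := by
    intro j
    have h1 : inner ℝ (∑ i, c i • u i) (u j) = 0 := by rw [hc]; simp
    rw [sum_inner] at h1
    simp only [inner_smul_left, RCLike.conj_to_real, hK _ j] at h1
    have h2 : ∀ i, c i * ((a - b) * (if i = j then (1 : ℝ) else 0) + b) = (if i = j then (a - b) * c i else 0) + b * c i := by
      intro i; split_ifs <;> ring
    simp only [h2, Finset.sum_add_distrib, Finset.sum_ite_eq', Finset.mem_univ, if_true, ← Finset.mul_sum] at h1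
    exact h1
  have hce : ∀ j, c j = c i0 := by
    intro j
    have h1 := hcj j
    have h2 := hcj i0
    have : (a - b) * (c j - c i0) = 0 := by linarith
    rcases mul_eq_zero.mp this with h3 | h3
    · exact absurd h3 hab
    · linarith
  have hsum : a - b + b * ((d : ℝ) + 1) = 0 := by
    have h1 := hcj i0
    have h2 : ∑ i, c i = ((d : ℝ) + 1) * c i0 := by
      rw [Finset.sum_congr rfl fun i _ => hce i]
      simp
    rw [h2] at h1
    have : c i0 * (a - b + b * ((d : ℝ) + 1)) = 0 := by linarith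
    exact (mul_eq_zero.mp this).resolve_left hi0
  refine ⟨a - b, hab0, fun i j => ?_⟩
  rw [hK]
  have hd1 : (d : ℝ) + 1 ≠ 0 := by positivity
  have : b = -(a - b) / ((d : ℝ) + 1) := by
    rw [eq_div_iff hd1]; linarith
  nth_rewrite 2 [this]
  ring

/-- the fixed points of all symmetrisations are regular and centred -/
lemma reg_of_fixed {d : ℕ} (u : Fin (d + 1) → EE d) (h : (mt u).det ≠ 0) (hf : ∀ j k, tau u j k = 0) :
    ∃ α, Reg u α := by
  have hn : ∀ j : Fin d, ‖u 0 - u j.succ‖ ^ 2 ≠ 0 := by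
    intro j
    have : 0 < ‖u 0 - u j.succ‖ := norm_pos_iff.mpr (sub_ne_zero.mpr (ne_of_det u h j))
    positivity
  have h0 : ∀ j : Fin d, ‖u 0‖ ^ 2 = ‖u j.succ‖ ^ 2 := by
    intro j
    have := hf j 0
    simp only [tau, true_or, if_true] at this
    rw [div_eq_zero_iff] at this
    have := this.resolve_right (hn j)
    rw [inner_smul_left, inner_add_left, inner_sub_right, inner_sub_right, real_inner_self_eq_norm_sq,
      real_inner_self_eq_norm_sq, real_inner_comm (u 0)] at this
    simp only [RCLike.conj_to_real] at this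
    linarith
  have hk : ∀ j k : Fin d, k ≠ j → inner ℝ (u k.succ) (u 0) = inner ℝ (u k.succ) (u j.succ) := by
    intro j k hkj
    have := hf j k.succ
    have h1 : ¬ (k.succ = 0 ∨ k.succ = j.succ) := by
      rintro (h1 | h1)
      · exact Fin.succ_ne_zero _ h1
      · exact hkj (Fin.succ_injective _ h1)
    simp only [tau, if_neg h1] at this
    rw [div_eq_zero_iff] at this
    have := this.resolve_right (hn j)
    rw [inner_sub_right] at this
    linarith
  -- the common value of the inner products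
  obtain ⟨b, hb⟩ : ∃ b, ∀ i j, i ≠ j → inner ℝ (u i) (u j) = b := by
    rcases Nat.eq_zero_or_pos d with hd | hd
    · subst hd
      exact ⟨0, fun i j hij => absurd (Fin.ext (by omega)) hij⟩
    · let z : Fin d := ⟨0, hd⟩
      have h1 : ∀ k : Fin d, inner ℝ (u k.succ) (u 0) = inner ℝ (u z.succ) (u 0) := by
        intro k
        by_cases hkz : k = z
        · rw [hkz]
        · rw [hk z k hkz, hk k z (Ne.symm hkz), real_inner_comm]
      refine ⟨inner ℝ (u z.succ) (u 0), fun i j hij => ?_⟩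
      revert hij
      refine Fin.cases ?_ (fun i' => ?_) i
      · refine Fin.cases (fun h => absurd rfl h) (fun j' _ => ?_) j
        rw [real_inner_comm, h1]
      · refine Fin.cases (fun _ => h1 i') (fun j' hne => ?_) j
        rw [← hk j' i' (fun h => hne (by rw [h])), h1]
  set a : ℝ := ‖u 0‖ ^ 2 with ha
  have hd : ∀ i, inner ℝ (u i) (u i) = a := by
    intro i
    rw [real_inner_self_eq_norm_sq]
    refine Fin.cases rfl (fun j => (h0 j).symm) i
  obtain ⟨α, -, hα⟩ := reg_of_gram u h a b hd hb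
  exact ⟨α, hα⟩

lemma continuous_bmap_left {d : ℕ} (x : Fin d → ℝ) : Continuous fun u : Fin (d + 1) → EE d => bmap u x := by
  unfold bmap; fun_prop

lemma continuous_det {d : ℕ} : Continuous fun u : Fin (d + 1) → EE d => (mt u).det := by
  apply Continuous.matrix_det
  unfold mt
  refine continuous_matrix fun k i => ?_
  simp only [Matrix.of_apply]
  fun_prop

/-- the Euclidean theorem: among the simplices of given volume, the regular one centred at the centre of a
ball has the largest intersection with the ball -/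
theorem eucl {d : ℕ} (r : ℝ) (v w : Fin (d + 1) → EE d) (α : ℝ) (hv : (mt v).det ≠ 0) (hw : Reg w α)
    (hdet : |(mt w).det| = |(mt v).det|) : NN r v ≤ NN r w := by
  set Z : Set (Fin (d + 1) → EE d) := {u | |(mt u).det| = |(mt v).det| ∧ NN r v ≤ NN r u ∧ pot u ≤ pot v} with hZ
  have hZc : IsClosed Z := by
    apply IsSeqClosed.isClosed
    intro us u hus hlim
    refine ⟨?_, ?_, ?_⟩
    · have h1 : Tendsto (fun n => |(mt (us n)).det|) atTop (𝓝 |(mt u).det|) :=
        (continuous_det.abs.tendsto u).comp hlim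
      have h2 : (fun n => |(mt (us n)).det|) = fun _ => |(mt v).det| := by funext n; exact (hus n).1
      rw [h2] at h1
      exact (tendsto_nhds_unique h1 tendsto_const_nhds)
    · refine usc_measure volume (Std d) (vol_Std_lt d).ne (fun n => {x ∈ Std d | ‖bmap (us n) x‖ ≤ r}) _
        (fun n => meas_NN r _) (fun n x hx => hx.1) ?_ _ (fun n => (hus n).2.1)
      intro x hx
      have hx1 : x ∈ Std d := by
        obtain ⟨n, hn⟩ := hx.exists
        exact hn.1
      refine ⟨hx1, ?_⟩
      have h1 : Tendsto (fun n => ‖bmap (us n) x‖) atTop (𝓝 ‖bmap u x‖) :=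
        ((continuous_bmap_left x).norm.tendsto u).comp hlim
      exact le_of_tendsto_of_frequently h1 (hx.mono fun n hn => hn.2)
    · have h1 : Tendsto (fun n => pot (us n)) atTop (𝓝 (pot u)) := by
        have : Continuous (pot : (Fin (d + 1) → EE d) → ℝ) := by unfold pot; fun_prop
        exact (this.tendsto u).comp hlim
      exact le_of_tendsto' h1 fun n => (hus n).2.2
  have hZb : Z ⊆ Set.pi Set.univ fun _ => Metric.closedBall (0 : EE d) (Real.sqrt (pot v)) := by
    intro u hu k _
    rw [mem_closedBall_zero_iff]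
    apply Real.le_sqrt_of_sq_le
    refine le_trans ?_ hu.2.2
    exact Finset.single_le_sum (f := fun k => ‖u k‖ ^ 2) (fun i _ => by positivity) (Finset.mem_univ k)
  have hZk : IsCompact Z := (isCompact_univ_pi fun _ => isCompact_closedBall _ _).of_isClosed_subset hZc hZb
  have hZn : Z.Nonempty := ⟨v, rfl, le_rfl, le_rfl⟩
  obtain ⟨u, huZ, humin⟩ := hZk.exists_isMinOn hZn
    (f := pot) (by unfold pot; fun_prop)
  have hudet : (mt u).det ≠ 0 := by
    rw [← abs_ne_zero, huZ.1, abs_ne_zero]; exact hv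
  have hfix : ∀ j k, tau u j k = 0 := by
    intro j
    have hne := ne_of_det u hudet j
    have h1 : st u j ∈ Z := by
      refine ⟨?_, huZ.2.1.trans (NN_le_st r u j hne), ?_⟩
      · rw [det_st]; exact huZ.1
      · rw [pot_st u j hne]
        have : 0 ≤ (∑ k, tau u j k ^ 2) * ‖u 0 - u j.succ‖ ^ 2 := by positivity
        linarith [huZ.2.2]
    have h2 : pot u ≤ pot (st u j) := humin h1
    rw [pot_st u j hne] at h2
    have h3 : 0 < ‖u 0 - u j.succ‖ ^ 2 := by
      have : 0 < ‖u 0 - u j.succ‖ := norm_pos_iff.mpr (sub_ne_zero.mpr hne)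
      positivity
    have h4 : ∑ k, tau u j k ^ 2 ≤ 0 := by
      by_contra h5
      push Not at h5
      have := mul_pos h5 h3
      linarith
    have h5 : ∑ k, tau u j k ^ 2 = 0 := le_antisymm h4 (by positivity)
    rw [Finset.sum_eq_zero_iff_of_nonneg (fun _ _ => by positivity)] at h5
    intro k
    exact pow_eq_zero_iff (two_ne_zero) |>.mp (h5 k (Finset.mem_univ k))
  obtain ⟨β, hβ⟩ := reg_of_fixed u hudet hfix
  refine huZ.2.1.trans (le_of_eq ?_)
  rcases Nat.eq_zero_or_pos d with hd | hd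
  · subst hd
    have : u = w := Subsingleton.elim _ _
    rw [this]
  · have h1 := hβ.det_sq
    have h2 := hw.det_sq
    have h3 : (mt u).det ^ 2 = (mt w).det ^ 2 := by
      rw [← sq_abs, huZ.1, ← hdet, sq_abs]
    rw [h1, h2] at h3
    have h4 : β ^ d = α ^ d := mul_right_cancel₀ (by positivity) h3
    have h5 : β = α := (pow_left_inj₀ (hβ.nonneg hd) (hw.nonneg hd) (by omega)).mp h4
    subst h5
    exact hβ.NN_eq hw r

end BallSimp
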