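import Pool.Agent.BallSimp.Circ

set_option autoImplicit false

open MeasureTheory Set Filter Topology

namespace BallSimp

variable {d : ℕ}

/-- the polyhedron with given outer unit normals at distance `ρ` from the origin -/
def poly (a : Fin (d + 1) → EE d) (ρ : ℝ) : Set (EE d) := {x | ∀ i, inner ℝ (a i) x ≤ ρ}

/-- a positive relation between the normals of a bounded polyhedron with `d + 1` facets -/
lemma exists_rel (a : Fin (d + 1) → EE d) (ρ : ℝ) (hρ : 0 < ρ) (hb : poly a ρ ⊆ Metric.ball 0 1) :
    ∃ c : Fin (d + 1) → ℝ, (∀ i, 0 < c i) ∧ ∑ i, c i • a i = 0 ∧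
      ∀ y : Fin (d + 1) → ℝ, ∑ i, c i * y i = 0 → ∃ x : EE d, ∀ i, inner ℝ (a i) x = y i := by
  -- no nonzero vector has nonpositive products with all normals
  have hno : ∀ x : EE d, (∀ i, inner ℝ (a i) x ≤ 0) → x = 0 := by
    intro x hx
    by_contra hne
    have hxp : 0 < ‖x‖ := norm_pos_iff.mpr hne
    have h1 : (‖x‖)⁻¹ • x ∈ poly a ρ := by
      intro i
      rw [real_inner_smul_right]
      have := mul_nonpos_of_nonneg_of_nonpos (inv_nonneg.mpr hxp.le) (hx i)
      linarith
    have h2 := mem_ball_zero_iff.mp (hb h1)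
    rw [norm_smul, norm_inv, norm_norm, inv_mul_cancel₀ hxp.ne'] at h2
    exact lt_irrefl _ h2
  -- the evaluation map
  let A : EE d →ₗ[ℝ] (Fin (d + 1) → ℝ) := LinearMap.pi fun i => (innerₗ (EE d)) (a i)
  have hA : ∀ x i, A x i = inner ℝ (a i) x := fun x i => rfl
  have hinj : Function.Injective A := by
    rw [← LinearMap.ker_eq_bot, LinearMap.ker_eq_bot']
    intro x hx
    apply hno
    intro i
    rw [← hA, hx]; simp
  -- a relation
  have hdep : ¬ LinearIndependent ℝ a := by
    intro hli
    have := hli.fintype_card_le_finrank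
    rw [finrank_euclideanSpace_fin, Fintype.card_fin] at this
    omega
  rw [Fintype.not_linearIndependent_iff] at hdep
  obtain ⟨c, hc, i0, hi0⟩ := hdep
  -- the range of the evaluation map
  let L : (Fin (d + 1) → ℝ) →ₗ[ℝ] ℝ := ∑ i, c i • LinearMap.proj i
  have hL : ∀ y, L y = ∑ i, c i * y i := by
    intro y; simp [L]
  have hrange : LinearMap.range A ≤ LinearMap.ker L := by
    rintro _ ⟨x, rfl⟩
    rw [LinearMap.mem_ker, hL]
    simp only [hA]
    have : inner ℝ (∑ i, c i • a i) x = 0 := by rw [hc]; simp
    rw [sum_inner] at this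
    simpa only [real_inner_smul_left] using this
  have hfr1 : Module.finrank ℝ (LinearMap.range A) = d := by
    rw [LinearMap.finrank_range_of_inj hinj]; simp
  have hLne : L ≠ 0 := by
    intro h
    have := congrArg (fun f => f (Pi.single i0 1)) h
    simp only [hL, LinearMap.zero_apply] at this
    rw [Finset.sum_eq_single i0 (fun b _ hb => by simp [hb]) (by simp)] at this
    simp at this
    exact hi0 this
  have hfr2 : Module.finrank ℝ (LinearMap.ker L) = d := by
    have h1 := LinearMap.finrank_range_add_finrank_ker L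
    have h2 : LinearMap.range L = ⊤ := LinearMap.range_eq_top.mpr (LinearMap.surjective hLne)
    rw [h2, finrank_top, Module.finrank_self, Module.finrank_fintype_fun_eq_card, Fintype.card_fin] at h1
    omega
  have heq : LinearMap.range A = LinearMap.ker L :=
    Submodule.eq_of_le_of_finrank_eq hrange (by rw [hfr1, hfr2])
  have hsolve : ∀ y : Fin (d + 1) → ℝ, ∑ i, c i * y i = 0 → ∃ x : EE d, ∀ i, inner ℝ (a i) x = y i := by
    intro y hy
    have : y ∈ LinearMap.range A := by rw [heq, LinearMap.mem_ker, hL, hy]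
    obtain ⟨x, hx⟩ := this
    exact ⟨x, fun i => by rw [← hA, hx]⟩
  -- the signs
  have hsign : ∀ i j, 0 < c i → 0 < c j := by
    intro i j hi
    by_contra hj
    push Not at hj
    have hij : i ≠ j := by rintro rfl; linarith
    obtain ⟨x, hx⟩ := hsolve (fun k => if k = i then c j else if k = j then -c i else 0) (by
      rw [← Finset.add_sum_erase _ _ (Finset.mem_univ i),
        ← Finset.add_sum_erase _ _ (Finset.mem_erase.mpr ⟨hij.symm, Finset.mem_univ j⟩)]
      rw [if_pos rfl, if_neg hij.symm, if_pos rfl, Finset.sum_eq_zero]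
      · ring
      · intro k hk
        have hkj : k ≠ j := Finset.ne_of_mem_erase hk
        have hki : k ≠ i := Finset.ne_of_mem_erase (Finset.mem_of_mem_erase hk)
        rw [if_neg hki, if_neg hkj, mul_zero])
    have hx0 := hno x (by
      intro k
      rw [hx]
      split_ifs <;> linarith)
    have := hx j
    rw [hx0, inner_zero_right, if_neg hij.symm, if_pos rfl] at this
    linarith
  rcases lt_trichotomy (c i0) 0 with h | h | h
  · refine ⟨fun i => -c i, fun i => ?_, ?_, ?_⟩
    · -- all coefficients are negative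
      by_contra hn
      push Not at hn
      have h0 : 0 ≤ c i := by linarith
      rcases h0.lt_or_eq with h1 | h1
      · have := hsign i i0 h1; linarith
      · -- a zero coefficient
        have hii : i0 ≠ i := by rintro rfl; linarith
        obtain ⟨x, hx⟩ := hsolve (fun k => if k = i then -1 else 0) (by
          simp [← h1])
        have hx0 := hno x (by
          intro k; rw [hx]; split_ifs <;> linarith)
        have := hx i
        rw [hx0, inner_zero_right, if_pos rfl] at this
        linarith
    · simp only [neg_smul, Finset.sum_neg_distrib, hc, neg_zero]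
    · intro y hy
      apply hsolve
      simpa [Finset.sum_neg_distrib] using hy
  · exact absurd h hi0
  · exact ⟨c, fun i => hsign i0 i h, hc, hsolve⟩

/-- a bounded polyhedron with `d + 1` facets tangent to a ball is a simplex -/
lemma poly_simplex (a : Fin (d + 1) → EE d) (ρ : ℝ) (hρ : 0 < ρ) (hb : poly a ρ ⊆ Metric.ball 0 1) :
    ∃ v : Fin (d + 1) → EE d, AffineIndependent ℝ v ∧ convexHull ℝ (Set.range v) = poly a ρ ∧
      (∀ i j, j ≠ i → inner ℝ (a i) (v j) = ρ) := by
  obtain ⟨c, hc0, hc, hsolve⟩ := exists_rel a ρ hρ hb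
  set C : ℝ := ∑ i, c i with hC
  have hCp : 0 < C := Finset.sum_pos (fun i _ => hc0 i) Finset.univ_nonempty
  -- the vertices
  have hv : ∀ j, ∃ x : EE d, ∀ i, inner ℝ (a i) x = if i = j then ρ - ρ * C / c j else ρ := by
    intro j
    apply hsolve
    have : ∀ i, c i * (if i = j then ρ - ρ * C / c j else ρ) = ρ * c i - (if i = j then ρ * C else 0) := by
      intro i
      split_ifs with h
      · subst h
        have := (hc0 i).ne'
        field_simp
      · ring
    simp only [this, Finset.sum_sub_distrib, ← Finset.mul_sum, Finset.sum_ite_eq', Finset.mem_univ, if_true, ← hC]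
    ring
  choose v hv using hv
  -- vectors are determined by their products
  have hdet : ∀ x y : EE d, (∀ i, inner ℝ (a i) x = (inner ℝ (a i) y : ℝ)) → x = y := by
    intro x y h
    by_contra hne
    have hne' : x - y ≠ 0 := sub_ne_zero.mpr hne
    have hxp : 0 < ‖x - y‖ := norm_pos_iff.mpr hne'
    have h1 : (‖x - y‖)⁻¹ • (x - y) ∈ poly a ρ := by
      intro i
      rw [real_inner_smul_right, inner_sub_right, h i]; simp [hρ.le]
    have h2 := mem_ball_zero_iff.mp (hb h1)
    rw [norm_smul, norm_inv, norm_norm, inv_mul_cancel₀ hxp.ne'] at h2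
    exact lt_irrefl _ h2
  have hcomb : ∀ (l : Fin (d + 1) → ℝ), ∑ i, l i = 1 → ∀ i, inner ℝ (a i) (∑ j, l j • v j) = ρ - l i * (ρ * C / c i) := by
    intro l hl i
    rw [inner_sum]
    simp only [real_inner_smul_right, hv]
    have : ∀ j, l j * (if i = j then ρ - ρ * C / c j else ρ) = ρ * l j - (if i = j then l j * (ρ * C / c j) else 0) := by
      intro j
      split_ifs <;> ring
    simp only [this, Finset.sum_sub_distrib, ← Finset.mul_sum, hl, Finset.sum_ite_eq, Finset.mem_univ, if_true]
    ring
  have hkp : ∀ i, 0 < ρ * C / c i := fun i => div_pos (mul_pos hρ hCp) (hc0 i)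
  refine ⟨v, ?_, ?_, ?_⟩
  · rw [affineIndependent_iff_of_fintype]
    intro g hg0 hg i
    rw [Finset.weightedVSub_eq_linear_combination _ hg0] at hg
    -- add to the barycentric combination
    have h1 : inner ℝ (a i) (∑ j, g j • v j) = 0 := by rw [hg]; simp
    rw [inner_sum] at h1
    simp only [real_inner_smul_right, hv] at h1
    have : ∀ j, g j * (if i = j then ρ - ρ * C / c j else ρ) = ρ * g j - (if i = j then g j * (ρ * C / c j) else 0) := by
      intro j
      split_ifs <;> ring
    simp only [this, Finset.sum_sub_distrib, ← Finset.mul_sum, hg0, Finset.sum_ite_eq, Finset.mem_univ, if_true] at h1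
    have h2 : g i * (ρ * C / c i) = 0 := by linarith
    exact (mul_eq_zero.mp h2).resolve_right (hkp i).ne'
  · apply Set.Subset.antisymm
    · apply convexHull_min
      · rintro _ ⟨j, rfl⟩ i
        rw [hv]
        split_ifs with h
        · have := hkp j; linarith
        · exact le_rfl
      · intro x hx y hy s t hs ht hst i
        rw [inner_add_right, real_inner_smul_right, real_inner_smul_right]
        have h1 := mul_le_mul_of_nonneg_left (hx i) hs
        have h2 := mul_le_mul_of_nonneg_left (hy i) ht
        have : s * ρ + t * ρ = ρ := by rw [← add_mul, hst, one_mul]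
        linarith
    · intro x hx
      set l : Fin (d + 1) → ℝ := fun i => (ρ - inner ℝ (a i) x) / (ρ * C / c i) with hl
      have hl0 : ∀ i, 0 ≤ l i := fun i => div_nonneg (by have := hx i; linarith) (hkp i).le
      have hl1 : ∑ i, l i = 1 := by
        have h1 : ∀ i, l i = c i / C - (c i * inner ℝ (a i) x) / (ρ * C) := by
          intro i
          simp only [hl]
          have h1 := (hc0 i).ne'
          have h2 := hCp.ne'
          have h3 := hρ.ne'
          field_simp
        simp only [h1, Finset.sum_sub_distrib, ← Finset.sum_div, ← hC]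
        have h2 : ∑ i, c i * inner ℝ (a i) x = 0 := by
          have : inner ℝ (∑ i, c i • a i) x = 0 := by rw [hc]; simp
          rw [sum_inner] at this
          simpa only [real_inner_smul_left] using this
        rw [h2, zero_div, sub_zero, div_self hCp.ne']
      have hx' : x = ∑ j, l j • v j := by
        apply hdet
        intro i
        rw [hcomb l hl1 i]
        simp only [hl]
        rw [div_mul_cancel₀ _ (hkp i).ne']
        ring
      rw [hx']
      exact (convex_convexHull ℝ _).sum_mem (fun i _ => hl0 i) hl1 (fun i _ => subset_convexHull ℝ _ ⟨i, rfl⟩)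
  · intro i j hji
    rw [hv, if_neg (Ne.symm hji)]

/-- the regular case -/
lemma poly_regular (hd : 0 < d) (b : Fin (d + 1) → EE d) (ρ : ℝ) (hρ : 0 < ρ) (hb1 : ∀ i, ‖b i‖ = 1)
    (hb2 : ∀ i j, i ≠ j → inner ℝ (b i) (b j) = (-1 : ℝ) / (d : ℝ)) (hb : poly b ρ ⊆ Metric.ball 0 1) :
    ∃ w : Fin (d + 1) → EE d, ∃ α : ℝ, 0 < α ∧ Reg w α ∧ convexHull ℝ (Set.range w) = poly b ρ ∧
      (∀ i, ρ • b i ∈ facet w i) := by
  obtain ⟨w, hwa, hwh, hwv⟩ := poly_simplex b ρ hρ hb
  have hd' : (0 : ℝ) < d := by exact_mod_cast hd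
  have hsum : ∑ i, b i = 0 := by
    rw [← inner_self_eq_zero (𝕜 := ℝ), sum_inner]
    have h1 : ∀ i, inner ℝ (b i) (∑ j, b j) = 0 := by
      intro i
      rw [inner_sum, ← Finset.add_sum_erase _ _ (Finset.mem_univ i), real_inner_self_eq_norm_sq, hb1]
      rw [Finset.sum_congr rfl fun j hj => hb2 i j (Finset.ne_of_mem_erase hj).symm]
      simp only [Finset.sum_const, Finset.card_erase_of_mem (Finset.mem_univ i), Finset.card_univ, Fintype.card_fin,
        Nat.add_sub_cancel, nsmul_eq_mul]
      field_simp; ring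
    simp [h1]
  have hdet : ∀ x y : EE d, (∀ i, inner ℝ (b i) x = (inner ℝ (b i) y : ℝ)) → x = y := by
    intro x y h
    by_contra hne
    have hne' : x - y ≠ 0 := sub_ne_zero.mpr hne
    have hxp : 0 < ‖x - y‖ := norm_pos_iff.mpr hne'
    have h1 : (‖x - y‖)⁻¹ • (x - y) ∈ poly b ρ := by
      intro i
      rw [real_inner_smul_right, inner_sub_right, h i]; simp [hρ.le]
    have h2 := mem_ball_zero_iff.mp (hb h1)
    rw [norm_smul, norm_inv, norm_norm, inv_mul_cancel₀ hxp.ne'] at h2
    exact lt_irrefl _ h2
  -- the vertices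
  have hww : ∀ j, w j = (-(d * ρ)) • b j := by
    intro j
    apply hdet
    intro i
    rw [real_inner_smul_right]
    by_cases hij : i = j
    · subst hij
      -- the product with the opposite normal, from the relation
      have h1 : inner ℝ (∑ k, b k) (w i) = 0 := by rw [hsum]; simp
      rw [sum_inner, ← Finset.add_sum_erase _ _ (Finset.mem_univ i)] at h1
      rw [Finset.sum_congr rfl fun k hk => hwv k i (Finset.ne_of_mem_erase hk).symm] at h1
      simp only [Finset.sum_const, Finset.card_erase_of_mem (Finset.mem_univ i), Finset.card_univ, Fintype.card_fin,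
        Nat.add_sub_cancel, nsmul_eq_mul] at h1
      rw [real_inner_self_eq_norm_sq, hb1]
      linarith
    · rw [hwv i j (Ne.symm hij), hb2 i j hij]
      field_simp
  have hreg : Reg w ((d * ρ) ^ 2 * ((d + 1) / d)) := by
    intro i j
    rw [hww i, hww j, real_inner_smul_left, real_inner_smul_right]
    by_cases hij : i = j
    · subst hij
      rw [real_inner_self_eq_norm_sq, hb1, if_pos rfl]
      field_simp; ring
    · rw [hb2 i j hij, if_neg hij]
      field_simp; ring
  refine ⟨w, _, by positivity, hreg, hwh, ?_⟩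
  intro i
  have h1 : ρ • b i = ∑ j ∈ Finset.univ.erase i, (1 / (d : ℝ)) • w j := by
    have h2 : ∑ j ∈ Finset.univ.erase i, w j = -w i := by
      have := hreg.sum_eq
      rw [← Finset.add_sum_erase _ _ (Finset.mem_univ i)] at this
      exact (neg_eq_of_add_eq_zero_right this).symm
    rw [← Finset.smul_sum, h2, hww i, smul_neg, smul_smul, ← neg_smul]
    congr 1
    field_simp
  rw [h1]
  refine (convex_convexHull ℝ _).sum_mem (fun _ _ => by positivity) ?_ (fun j hj => subset_convexHull ℝ _ ⟨j, Finset.ne_of_mem_erase hj, rfl⟩)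
  simp only [Finset.sum_const, Finset.card_erase_of_mem (Finset.mem_univ i), Finset.card_univ, Fintype.card_fin,
    Nat.add_sub_cancel, nsmul_eq_mul]
  field_simp

/-- the statement in terms of outer normals -/
theorem circ_poly (hd : 0 < d) (ρ : ℝ) (hρ : 0 < ρ) (a b : Fin (d + 1) → EE d) (ha1 : ∀ i, ‖a i‖ = 1) (hb1 : ∀ i, ‖b i‖ = 1)
    (hb2 : ∀ i j, i ≠ j → inner ℝ (b i) (b j) = (-1 : ℝ) / (d : ℝ)) (ha : poly a ρ ⊆ Metric.ball 0 1)
    (hb : poly b ρ ⊆ Metric.ball 0 1) : muK d (poly b ρ) ≤ muK d (poly a ρ) := by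
  obtain ⟨v, hva, hvh, -⟩ := poly_simplex a ρ hρ ha
  obtain ⟨w, α, hα, hw, hwh, hwf⟩ := poly_regular hd b ρ hρ hb1 hb2 hb
  have hvd := (affInd_iff v).mp hva
  have hv1 : ∀ i, ‖v i‖ < 1 := by
    intro i
    have : v i ∈ poly a ρ := by rw [← hvh]; exact subset_convexHull ℝ _ ⟨i, rfl⟩
    exact mem_ball_zero_iff.mp (ha this)
  have hball : Metric.closedBall (0 : EE d) ρ ⊆ convexHull ℝ (Set.range v) := by
    rw [hvh]
    intro x hx i
    have h1 := real_inner_le_norm (a i) x
    rw [ha1, one_mul] at h1
    exact h1.trans (mem_closedBall_zero_iff.mp hx)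
  have h2 := eucl_circ hd v w α hα hw hvd ρ hρ hball 0 (ρ • b 0) (hwf 0) (by
    rw [norm_smul, hb1, mul_one, Real.norm_eq_abs, abs_of_pos hρ])
  have h3 := jens v w α hv1 hvd hw hα h2
  rw [← hvh, ← hwh, muK_hull v hvd, muK_hull w (hw.det_ne hα)]
  gcongr

end BallSimp
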