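import Pool.Agent.BallSimp.Jens2

set_option autoImplicit false

open MeasureTheory Set Filter Topology

namespace BallSimp

lemma one_le_FF (d : ℕ) {q : ℝ} (h0 : 0 ≤ q) (hq : q < 1) : 1 ≤ FF d q := by
  have := FF_mono d h0 hq
  refine le_trans (le_of_eq ?_) this
  simp [FF]

lemma sum_lam_sq_le {d : ℕ} {x : Fin d → ℝ} (hx : x ∈ Std d) : ∑ k, lam x k ^ 2 ≤ 1 := by
  rw [← sum_lam x]
  refine Finset.sum_le_sum fun k _ => ?_
  have h0 := lam_nonneg hx k
  have h1 : lam x k ≤ 1 := by
    rw [← sum_lam x]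
    exact Finset.single_le_sum (f := lam x) (fun i _ => lam_nonneg hx i) (Finset.mem_univ k)
  nlinarith

lemma II_pos {d : ℕ} (w : Fin (d + 1) → EE d) (hw1 : ∀ i, ‖w i‖ < 1) : 0 < II w := by
  have h1 : volume (Std d) ≤ II w := by
    unfold II
    calc volume (Std d) = ∫⁻ _x in Std d, 1 := by simp
      _ ≤ _ := by
        apply setLIntegral_mono_ae' (isClosed_Std d).measurableSet
        refine Eventually.of_forall fun x hx => ?_
        have h2 := norm_bmap_lt w hw1 hx
        have h3 : ‖bmap w x‖ ^ 2 < 1 := by nlinarith [norm_nonneg (bmap w x)]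
        have h4 := one_le_FF d (by positivity) h3
        rw [← ENNReal.ofReal_one]
        exact ENNReal.ofReal_le_ofReal h4
  exact lt_of_lt_of_le (vol_Std_pos d) h1

lemma II_lt {d : ℕ} (w : Fin (d + 1) → EE d) (hw1 : ∀ i, ‖w i‖ < 1) : II w < ⊤ := by
  -- the norm is bounded by the largest norm of a vertex
  obtain ⟨i0, -, hi0⟩ := Finset.exists_max_image Finset.univ (fun i => ‖w i‖) Finset.univ_nonempty
  have h1 : ∀ x ∈ Std d, ‖bmap w x‖ ≤ ‖w i0‖ := by
    intro x hx
    have h1 : bmap w x ∈ convexHull ℝ (Set.range w) := by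
      rw [← bmap_image]; exact ⟨x, hx, rfl⟩
    have h2 : convexHull ℝ (Set.range w) ⊆ Metric.closedBall 0 ‖w i0‖ := by
      apply convexHull_min _ (convex_closedBall 0 _)
      rintro _ ⟨i, rfl⟩
      rw [mem_closedBall_zero_iff]; exact hi0 i (Finset.mem_univ i)
    exact mem_closedBall_zero_iff.mp (h2 h1)
  have h2 : II w ≤ ENNReal.ofReal (FF d (‖w i0‖ ^ 2)) * volume (Std d) := by
    unfold II
    rw [← setLIntegral_const]
    apply setLIntegral_mono_ae' (isClosed_Std d).measurableSet
    refine Eventually.of_forall fun x hx => ?_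
    apply ENNReal.ofReal_le_ofReal
    apply FF_mono
    · have := h1 x hx
      have := norm_nonneg (bmap w x)
      nlinarith
    · have := hw1 i0
      have := norm_nonneg (w i0)
      nlinarith
  exact lt_of_le_of_lt h2 (ENNReal.mul_lt_top ENNReal.ofReal_lt_top (vol_Std_lt d))

lemma Reg.smul {d : ℕ} {w : Fin (d + 1) → EE d} {α : ℝ} (h : Reg w α) (κ : ℝ) :
    Reg (fun i => κ • w i) (κ ^ 2 * α) := by
  intro i j
  rw [inner_smul_left, inner_smul_right, h i j]
  simp only [RCLike.conj_to_real]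
  ring

lemma Reg.sum_eq {d : ℕ} {w : Fin (d + 1) → EE d} {α : ℝ} (h : Reg w α) : ∑ i, w i = 0 := by
  rw [← inner_self_eq_zero (𝕜 := ℝ), sum_inner]
  simp only [inner_sum, h _ _, mul_sub, Finset.sum_sub_distrib, mul_ite, mul_one, mul_zero,
    Finset.sum_ite_eq, Finset.mem_univ, if_true, Finset.sum_const, Finset.card_univ, Fintype.card_fin, nsmul_eq_mul]
  push_cast
  field_simp
  ring

lemma mt_smul {d : ℕ} (w : Fin (d + 1) → EE d) (κ : ℝ) : mt (fun i => κ • w i) = κ • mt w := by
  ext k i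
  simp [mt, mul_sub]

lemma hull_smul {d : ℕ} {w : Fin (d + 1) → EE d} {α : ℝ} (h : Reg w α) (κ : ℝ) (h0 : 0 ≤ κ) (h1 : κ ≤ 1) :
    convexHull ℝ (Set.range fun i => κ • w i) ⊆ convexHull ℝ (Set.range w) := by
  have hz : (0 : EE d) ∈ convexHull ℝ (Set.range w) := by
    have h2 : ∑ i, (1 / ((d : ℝ) + 1)) • w i ∈ convexHull ℝ (Set.range w) := by
      refine (convex_convexHull ℝ _).sum_mem (fun _ _ => by positivity) ?_ (fun i _ => subset_convexHull ℝ _ ⟨i, rfl⟩)
      simp only [Finset.sum_const, Finset.card_univ, Fintype.card_fin, nsmul_eq_mul]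
      push_cast
      field_simp
    rwa [← Finset.smul_sum, h.sum_eq, smul_zero] at h2
  apply convexHull_min _ (convex_convexHull ℝ _)
  rintro _ ⟨i, rfl⟩
  have := (convex_convexHull ℝ (Set.range w)) (subset_convexHull ℝ _ ⟨i, rfl⟩) hz h0 (by linarith : (0 : ℝ) ≤ 1 - κ) (by ring)
  simpa using this

/-- `H^d`, Klein model, ball centred at the centre of the model: if a simplex has the same hyperbolic volume as a
regular one centred at the origin, then its intersection with every ball about the origin has smaller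
Lebesgue measure -/
theorem main0 {d : ℕ} (v w : Fin (d + 1) → EE d) (α : ℝ) (hv : ∀ i, ‖v i‖ < 1) (hw1 : ∀ i, ‖w i‖ < 1)
    (hvd : (mt v).det ≠ 0) (hw : Reg w α) (hα : 0 < α)
    (hvol : ENNReal.ofReal |(mt w).det| * II w = ENNReal.ofReal |(mt v).det| * II v) (r : ℝ) :
    volume (Metric.closedBall 0 r ∩ convexHull ℝ (Set.range v)) ≤
      volume (Metric.closedBall 0 r ∩ convexHull ℝ (Set.range w)) := by
  rcases Nat.eq_zero_or_pos d with hd | hd
  · subst hd
    have : v = w := Subsingleton.elim _ _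
    rw [this]
  have hwd : (mt w).det ≠ 0 := by
    have := hw.det_sq
    intro h0
    rw [h0] at this
    have h2 : 0 < α ^ d * ((d : ℝ) + 1) := by positivity
    rw [← this] at h2
    simp at h2
  have hwp : 0 < |(mt w).det| := abs_pos.mpr hwd
  have hvp : 0 < |(mt v).det| := abs_pos.mpr hvd
  -- the Euclidean volumes
  have hle : |(mt v).det| ≤ |(mt w).det| := by
    by_contra hlt
    push Not at hlt
    have h1 := jens v w α hv hvd hw hα hlt.le
    have h2 : ENNReal.ofReal |(mt w).det| * II w < ENNReal.ofReal |(mt v).det| * II w :=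
      ENNReal.mul_lt_mul_left (II_pos w hw1).ne' (II_lt w hw1).ne ((ENNReal.ofReal_lt_ofReal_iff hvp).mpr hlt)
    have h3 : ENNReal.ofReal |(mt v).det| * II w ≤ ENNReal.ofReal |(mt v).det| * II v := by gcongr
    rw [← hvol] at h3
    exact absurd (h2.trans_le h3) (lt_irrefl _)
  set κ : ℝ := (|(mt v).det| / |(mt w).det|) ^ (1 / (d : ℝ)) with hκ
  have hκ0 : 0 ≤ κ := by positivity
  have hκ1 : κ ≤ 1 := Real.rpow_le_one (by positivity) ((div_le_one hwp).mpr hle) (by positivity)
  have hκd : κ ^ d = |(mt v).det| / |(mt w).det| := by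
    rw [hκ, one_div]
    exact Real.rpow_inv_natCast_pow (by positivity) (by omega)
  have hdet : |(mt (fun i => κ • w i)).det| = |(mt v).det| := by
    rw [mt_smul, Matrix.det_smul, Fintype.card_fin, abs_mul, abs_pow, abs_of_nonneg hκ0, hκd, div_mul_cancel₀ _ hwp.ne']
  have hne : (mt (fun i => κ • w i)).det ≠ 0 := by
    rw [← abs_ne_zero, hdet]; exact hvp.ne'
  have h1 := eucl r v _ _ hvd (hw.smul κ) hdet
  have hb : ∀ u : Fin (d + 1) → EE d, {x ∈ Std d | bmap u x ∈ Metric.closedBall 0 r} = {x ∈ Std d | ‖bmap u x‖ ≤ r} := by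
    intro u; ext x; simp
  calc volume (Metric.closedBall 0 r ∩ convexHull ℝ (Set.range v)) = ENNReal.ofReal |(mt v).det| * NN r v := by
        rw [vol_hull_inter v hvd _ Metric.isClosed_closedBall.measurableSet, hb]; rfl
    _ ≤ ENNReal.ofReal |(mt (fun i => κ • w i)).det| * NN r (fun i => κ • w i) := by
        rw [hdet]; gcongr
    _ = volume (Metric.closedBall 0 r ∩ convexHull ℝ (Set.range fun i => κ • w i)) := by
        rw [vol_hull_inter _ hne _ Metric.isClosed_closedBall.measurableSet, hb]; rfl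
    _ ≤ _ := measure_mono (inter_subset_inter_right _ (hull_smul hw κ hκ0 hκ1))

end BallSimp
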