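import Pool.Agent.BallSimp.Transp
import Pool.Agent.BallSimp.Main0

set_option autoImplicit false

open MeasureTheory Set Filter Topology

namespace BallSimp

/-- balls in the Klein model -/
def hB {d : ℕ} (c : EE d) (R : ℝ) : Set (EE d) := {x | ‖x‖ < 1 ∧ chd c x ≤ R}

lemma chd_zero {d : ℕ} (x : EE d) : chd 0 x = 1 / Real.sqrt (1 - ‖x‖ ^ 2) := by
  simp [chd]

lemma chd_zero_rpow {d : ℕ} {x : EE d} (hx : ‖x‖ < 1) :
    (chd 0 x) ^ (-((d : ℝ) + 1)) * (1 - ‖x‖ ^ 2) ^ (-((d : ℝ) + 1) / 2) = 1 := by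
  have h1 : 0 < 1 - ‖x‖ ^ 2 := by nlinarith [norm_nonneg x]
  rw [chd_zero, one_div, Real.sqrt_eq_rpow, ← Real.rpow_neg h1.le, ← Real.rpow_mul h1.le, ← Real.rpow_add h1]
  have : -(1 / 2 : ℝ) * -((d : ℝ) + 1) + -((d : ℝ) + 1) / 2 = 0 := by ring
  rw [this, Real.rpow_zero]

lemma meas_hB {d : ℕ} (c : EE d) (R : ℝ) : MeasurableSet (hB c R) := by
  have : hB c R = {x | ‖x‖ < 1} ∩ {x | chd c x ≤ R} := by ext x; simp [hB]
  rw [this]
  exact (measurableSet_lt measurable_norm measurable_const).inter (measurableSet_le (meas_chd c) measurable_const)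

/-- the centred balls are Euclidean balls -/
lemma hB_zero {d : ℕ} (R : ℝ) : (hB (0 : EE d) R = ∅ ∧ R < 1) ∨
    (1 ≤ R ∧ hB (0 : EE d) R = Metric.closedBall 0 (Real.sqrt (1 - 1 / R ^ 2))) := by
  by_cases hR : 1 ≤ R
  · right
    refine ⟨hR, ?_⟩
    have hR0 : 0 < R := by linarith
    ext x
    simp only [hB, mem_ofPred_eq, mem_closedBall_zero_iff, chd_zero]
    have h2 : 0 ≤ 1 - 1 / R ^ 2 := by
      rw [sub_nonneg, div_le_one (by positivity)]; nlinarith
    rw [Real.le_sqrt (norm_nonneg _) h2]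
    constructor
    · rintro ⟨h3, h4⟩
      have h1 : 0 < 1 - ‖x‖ ^ 2 := by nlinarith [norm_nonneg x]
      have h5 : 0 < Real.sqrt (1 - ‖x‖ ^ 2) := Real.sqrt_pos.mpr h1
      rw [div_le_iff₀ h5] at h4
      have h6 : (1 : ℝ) ≤ R ^ 2 * (1 - ‖x‖ ^ 2) := by
        rw [← Real.sq_sqrt h1.le, ← mul_pow]
        nlinarith
      have h7 : 1 / R ^ 2 ≤ 1 - ‖x‖ ^ 2 := by
        rw [div_le_iff₀ (by positivity)]; linarith
      linarith
    · intro h3
      have h1 : 1 / R ^ 2 ≤ 1 - ‖x‖ ^ 2 := by linarith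
      have h0 : 0 < 1 / R ^ 2 := by positivity
      have h8 : 0 < 1 - ‖x‖ ^ 2 := by linarith
      refine ⟨by nlinarith [norm_nonneg x], ?_⟩
      have h5 : 0 < Real.sqrt (1 - ‖x‖ ^ 2) := Real.sqrt_pos.mpr h8
      rw [div_le_iff₀ h5]
      have h6 : 1 / R ≤ Real.sqrt (1 - ‖x‖ ^ 2) := by
        apply Real.le_sqrt_of_sq_le
        rw [div_pow, one_pow]; exact h1
      rw [div_le_iff₀ hR0] at h6
      linarith
  · left
    push Not at hR
    refine ⟨?_, hR⟩
    ext x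
    simp only [hB, mem_ofPred_eq, chd_zero, mem_empty_iff_false, iff_false, not_and, not_le]
    intro hx
    have h1 : 0 < 1 - ‖x‖ ^ 2 := by nlinarith [norm_nonneg x]
    have h5 : 0 < Real.sqrt (1 - ‖x‖ ^ 2) := Real.sqrt_pos.mpr h1
    have h6 : Real.sqrt (1 - ‖x‖ ^ 2) ≤ 1 := by
      rw [Real.sqrt_le_one]; nlinarith [sq_nonneg ‖x‖]
    have : 1 ≤ 1 / Real.sqrt (1 - ‖x‖ ^ 2) := by
      rw [le_div_iff₀ h5]; linarith
    linarith

/-- the weight -/
noncomputable def wt (d : ℕ) (R : ℝ) (s : ℝ) : ENNReal := (Iic R).indicator (fun s => ENNReal.ofReal (s ^ (-((d : ℝ) + 1)))) s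

lemma meas_wt (d : ℕ) (R : ℝ) : Measurable (wt d R) := by
  unfold wt
  apply Measurable.indicator _ measurableSet_Iic
  exact ENNReal.measurable_ofReal.comp (measurable_id.pow_const _)

lemma lint_wt {d : ℕ} (v : Fin (d + 1) → EE d) (hv : ∀ i, ‖v i‖ < 1) (c : EE d) (R : ℝ) :
    ∫⁻ x in convexHull ℝ (Set.range v), wt d R (chd c x) ∂(muK d) =
      ∫⁻ x in hB c R ∩ convexHull ℝ (Set.range v), ENNReal.ofReal ((chd c x) ^ (-((d : ℝ) + 1))) ∂(muK d) := by
  rw [← lintegral_indicator (isClosed_hull v).measurableSet,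
    ← lintegral_indicator ((meas_hB c R).inter (isClosed_hull v).measurableSet)]
  congr 1
  funext x
  classical
  simp only [Set.indicator_apply, wt, mem_Iic, mem_inter_iff]
  by_cases h1 : x ∈ convexHull ℝ (Set.range v)
  · have h2 := mem_ball_zero_iff.mp (hull_sub v hv h1)
    simp [h1, hB, h2]
  · simp [h1]

lemma muK_lint {d : ℕ} (A : Set (EE d)) (hA : MeasurableSet A) (f : EE d → ENNReal) (hf : Measurable f) :
    ∫⁻ x in A, f x ∂(muK d) = ∫⁻ x in A, ENNReal.ofReal ((1 - ‖x‖ ^ 2) ^ (-((d : ℝ) + 1) / 2)) * f x := by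
  have hm : Measurable fun x : EE d => ENNReal.ofReal ((1 - ‖x‖ ^ 2) ^ (-((d : ℝ) + 1) / 2)) := meas_FF d
  rw [muK, setLIntegral_withDensity_eq_setLIntegral_mul _ hm hf hA]
  rfl

/-- in the centred case the weighted integral is the Lebesgue measure -/
lemma lint_wt_zero {d : ℕ} (v : Fin (d + 1) → EE d) (hv : ∀ i, ‖v i‖ < 1) (R : ℝ) :
    ∫⁻ x in hB (0 : EE d) R ∩ convexHull ℝ (Set.range v), ENNReal.ofReal ((chd 0 x) ^ (-((d : ℝ) + 1))) ∂(muK d) =
      volume (hB (0 : EE d) R ∩ convexHull ℝ (Set.range v)) := by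
  have hm := (meas_hB (0 : EE d) R).inter (isClosed_hull v).measurableSet
  rw [muK_lint _ hm (fun x => ENNReal.ofReal ((chd 0 x) ^ (-((d : ℝ) + 1))))
    (ENNReal.measurable_ofReal.comp ((meas_chd _).pow_const _))]
  rw [← setLIntegral_one]
  apply setLIntegral_congr_fun hm
  intro x hx
  have hx1 := mem_ball_zero_iff.mp (hull_sub v hv hx.2)
  beta_reduce
  have h1 : 0 < 1 - ‖x‖ ^ 2 := by nlinarith [norm_nonneg x]
  rw [← ENNReal.ofReal_mul (Real.rpow_nonneg h1.le _), mul_comm, chd_zero_rpow hx1, ENNReal.ofReal_one]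

lemma muK_hull {d : ℕ} (v : Fin (d + 1) → EE d) (hv : (mt v).det ≠ 0) :
    muK d (convexHull ℝ (Set.range v)) = ENNReal.ofReal |(mt v).det| * II v := by
  rw [muK, withDensity_apply _ (isClosed_hull v).measurableSet]
  exact lint_hull v hv _ (meas_FF d)

/-- hypotheses on a pair of simplices -/
structure Pair {d : ℕ} (c : EE d) (v w : Fin (d + 1) → EE d) : Prop where
  hc : ‖c‖ < 1
  hv : ∀ i, ‖v i‖ < 1
  hw : ∀ i, ‖w i‖ < 1
  hva : AffineIndependent ℝ v
  hwa : AffineIndependent ℝ w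
  hreg : ∃ s : ℝ, ∀ i j, i ≠ j → chd (w j) (w i) = s
  hcen : ∃ q : ℝ, ∀ i, chd c (w i) = q
  hvol : muK d (convexHull ℝ (Set.range w)) = muK d (convexHull ℝ (Set.range v))

lemma Pair.reg {d : ℕ} {v w : Fin (d + 1) → EE d} (h : Pair 0 v w) : ∃ α, 0 < α ∧ Reg w α := by
  obtain ⟨q, hq⟩ := h.hcen
  obtain ⟨s, hs⟩ := h.hreg
  have hp : ∀ i, 0 < 1 - ‖w i‖ ^ 2 := fun i => by nlinarith [norm_nonneg (w i), h.hw i]
  have h1 : ∀ i, 1 - ‖w i‖ ^ 2 = 1 / q ^ 2 := by
    intro i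
    have h2 := hq i
    rw [chd_zero] at h2
    have h3 : 0 < Real.sqrt (1 - ‖w i‖ ^ 2) := Real.sqrt_pos.mpr (hp i)
    rw [← h2, div_pow, one_pow, Real.sq_sqrt (hp i).le]
    have := (hp i).ne'
    field_simp
  refine reg_of_gram w ((affInd_iff w).mp h.hwa) (1 - 1 / q ^ 2) (1 - s * (1 / q ^ 2)) ?_ ?_
  · intro i
    rw [real_inner_self_eq_norm_sq]
    linarith [h1 i]
  · intro i j hij
    have h2 := hs i j hij
    rw [chd, h1 i, h1 j] at h2
    have h0 : 0 < 1 / q ^ 2 := by rw [← h1 0]; exact hp 0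
    rw [Real.sqrt_mul_self h0.le, div_eq_iff h0.ne'] at h2
    linarith

lemma Pair.tr {d : ℕ} {c : EE d} {v w : Fin (d + 1) → EE d} (h : Pair c v w) {n : ℝ × EE d} (hn : 0 < lor d n n) :
    Pair (tr n c) (fun i => tr n (v i)) (fun i => tr n (w i)) where
  hc := tr_norm hn h.hc
  hv := fun i => tr_norm hn (h.hv i)
  hw := fun i => tr_norm hn (h.hw i)
  hva := affInd_tr hn v h.hv h.hva
  hwa := affInd_tr hn w h.hw h.hwa
  hreg := by
    obtain ⟨s, hs⟩ := h.hreg
    exact ⟨s, fun i j hij => by rw [chd_tr hn (h.hw i) (h.hw j), hs i j hij]⟩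
  hcen := by
    obtain ⟨q, hq⟩ := h.hcen
    exact ⟨q, fun i => by rw [chd_tr hn (h.hw i) h.hc, hq i]⟩
  hvol := by
    have e1 := lint_tr hn v h.hv c h.hc (fun _ => 1) measurable_const
    have e2 := lint_tr hn w h.hw c h.hc (fun _ => 1) measurable_const
    simp only [lintegral_one, Measure.restrict_apply MeasurableSet.univ, univ_inter] at e1 e2
    rw [e1, e2]; exact h.hvol

/-- the centred case -/
lemma Pair.main0 {d : ℕ} {v w : Fin (d + 1) → EE d} (h : Pair 0 v w) (R : ℝ) :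
    volume (hB (0 : EE d) R ∩ convexHull ℝ (Set.range v)) ≤ volume (hB (0 : EE d) R ∩ convexHull ℝ (Set.range w)) := by
  obtain ⟨α, hα, hw⟩ := h.reg
  rcases hB_zero (d := d) R with ⟨h1, -⟩ | ⟨-, h1⟩
  · rw [h1]; simp
  · rw [h1]
    have hv := (affInd_iff v).mp h.hva
    have hw' := (affInd_iff w).mp h.hwa
    refine BallSimp.main0 v w α h.hv h.hw hv hw hα ?_ _
    rw [← muK_hull v hv, ← muK_hull w hw']
    exact h.hvol

/-- reduction to the centred case -/
lemma exists_centred {d : ℕ} (c : EE d) (hc : ‖c‖ < 1) : c = 0 ∨ ∃ n : ℝ × EE d, 0 < lor d n n ∧ BallSimp.tr n c = 0 := by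
  by_cases h : c = 0
  · left; exact h
  · right; exact exists_refl c hc h

theorem weighted {d : ℕ} {c : EE d} {v w : Fin (d + 1) → EE d} (h : Pair c v w) (R : ℝ) :
    ∫⁻ x in hB c R ∩ convexHull ℝ (Set.range v), ENNReal.ofReal ((chd c x) ^ (-((d : ℝ) + 1))) ∂(muK d) ≤
      ∫⁻ x in hB c R ∩ convexHull ℝ (Set.range w), ENNReal.ofReal ((chd c x) ^ (-((d : ℝ) + 1))) ∂(muK d) := by
  rcases exists_centred c h.hc with h0 | ⟨n, hn, h0⟩
  · subst h0
    rw [lint_wt_zero v h.hv, lint_wt_zero w h.hw]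
    exact h.main0 R
  · rw [← lint_wt v h.hv, ← lint_wt w h.hw, ← lint_tr hn v h.hv c h.hc _ (meas_wt d R),
      ← lint_tr hn w h.hw c h.hc _ (meas_wt d R), h0]
    have h1 := h.tr hn
    rw [h0] at h1
    rw [lint_wt _ h1.hv, lint_wt _ h1.hw, lint_wt_zero _ h1.hv, lint_wt_zero _ h1.hw]
    exact h1.main0 R

/-- a ball which is contained in the simplex up to measure zero is contained in it -/
lemma ball_sub {d : ℕ} (r : ℝ) (H : Set (EE d)) (hH : IsClosed H) (hr : 0 < r)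
    (hle : volume (Metric.closedBall (0 : EE d) r) ≤ volume (Metric.closedBall 0 r ∩ H)) :
    Metric.closedBall (0 : EE d) r ⊆ H := by
  have hfin : volume (Metric.closedBall (0 : EE d) r) ≠ ⊤ := (isCompact_closedBall _ _).measure_lt_top.ne
  have h1 : Metric.ball (0 : EE d) r ⊆ H := by
    by_contra hne
    rw [not_subset] at hne
    obtain ⟨x, hx, hxH⟩ := hne
    have hopen : IsOpen (Metric.ball (0 : EE d) r \ H) := Metric.isOpen_ball.sdiff hH
    have hpos : 0 < volume (Metric.ball (0 : EE d) r \ H) := hopen.measure_pos _ ⟨x, hx, hxH⟩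
    have h2 : volume (Metric.closedBall (0 : EE d) r \ H) + volume (Metric.closedBall (0 : EE d) r ∩ H) =
        volume (Metric.closedBall (0 : EE d) r) := measure_sdiff_add_inter _ hH.measurableSet
    have h3 : 0 < volume (Metric.closedBall (0 : EE d) r \ H) :=
      hpos.trans_le (measure_mono (sdiff_subset_sdiff_left Metric.ball_subset_closedBall))
    have h4 : volume (Metric.closedBall (0 : EE d) r ∩ H) ≠ ⊤ := ne_top_of_le_ne_top hfin (measure_mono inter_subset_left)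
    rw [← h2] at hle
    have h5 : volume (Metric.closedBall (0 : EE d) r ∩ H) <
        volume (Metric.closedBall (0 : EE d) r \ H) + volume (Metric.closedBall (0 : EE d) r ∩ H) := by
      rw [add_comm]; exact ENNReal.lt_add_right h4 h3.ne'
    exact absurd (h5.trans_le hle) (lt_irrefl _)
  rw [← closure_ball 0 hr.ne']
  exact closure_minimal h1 hH

lemma contain0 {d : ℕ} {v w : Fin (d + 1) → EE d} (h : Pair 0 v w) (R : ℝ)
    (hB1 : hB (0 : EE d) R ⊆ convexHull ℝ (Set.range v)) : hB (0 : EE d) R ⊆ convexHull ℝ (Set.range w) := by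
  have h2 := h.main0 R
  rw [inter_eq_left.mpr hB1] at h2
  obtain ⟨α, hα, hw⟩ := h.reg
  rcases hB_zero (d := d) R with ⟨h1, -⟩ | ⟨-, h1⟩
  · rw [h1]; exact empty_subset _
  · rw [h1] at h2 ⊢
    set r := Real.sqrt (1 - 1 / R ^ 2) with hr
    rcases (Real.sqrt_nonneg (1 - 1 / R ^ 2)).lt_or_eq with h3 | h3
    · exact ball_sub r _ (isClosed_hull w) h3 h2
    · rw [← hr] at h3
      rw [← h3, Metric.closedBall_zero]
      rintro x hx
      rw [mem_singleton_iff.mp hx]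
      have h2 : ∑ i, (1 / ((d : ℝ) + 1)) • w i ∈ convexHull ℝ (Set.range w) := by
        refine (convex_convexHull ℝ _).sum_mem (fun _ _ => by positivity) ?_ (fun i _ => subset_convexHull ℝ _ ⟨i, rfl⟩)
        simp only [Finset.sum_const, Finset.card_univ, Fintype.card_fin, nsmul_eq_mul]
        push_cast
        field_simp
      rwa [← Finset.smul_sum, hw.sum_eq, smul_zero] at h2

lemma hB_tr {d : ℕ} {n : ℝ × EE d} (hn : 0 < lor d n n) (c : EE d) (hc : ‖c‖ < 1) (R : ℝ) (v : Fin (d + 1) → EE d)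
    (hv : ∀ i, ‖v i‖ < 1) :
    hB (tr n c) R ⊆ convexHull ℝ (Set.range fun i => tr n (v i)) ↔ hB c R ⊆ convexHull ℝ (Set.range v) := by
  constructor
  · intro h x hx
    have h1 : tr n x ∈ hB (tr n c) R := ⟨tr_norm hn hx.1, by rw [chd_tr hn hx.1 hc]; exact hx.2⟩
    have h2 := (mem_hull_tr' hn v hv (tr_norm hn hx.1)).mpr (h h1)
    rwa [tr_tr hn hx.1] at h2
  · intro h x hx
    rw [← mem_hull_tr' hn v hv hx.1]
    refine h ⟨tr_norm hn hx.1, ?_⟩
    have h3 := chd_tr hn (tr_norm hn hx.1) hc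
    rw [tr_tr hn hx.1] at h3
    rw [← h3]; exact hx.2

theorem contain {d : ℕ} {c : EE d} {v w : Fin (d + 1) → EE d} (h : Pair c v w) (R : ℝ)
    (hB1 : hB c R ⊆ convexHull ℝ (Set.range v)) : hB c R ⊆ convexHull ℝ (Set.range w) := by
  rcases exists_centred c h.hc with h0 | ⟨n, hn, h0⟩
  · subst h0; exact contain0 h R hB1
  · have h1 := h.tr hn
    rw [← hB_tr hn c h.hc R w h.hw]
    rw [← hB_tr hn c h.hc R v h.hv] at hB1
    rw [h0] at h1 hB1 ⊢
    exact contain0 h1 R hB1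

lemma one_le_chd {d : ℕ} {c x : EE d} (hc : ‖c‖ < 1) (hx : ‖x‖ < 1) : 1 ≤ chd c x := by
  have h1 : 0 < 1 - ‖x‖ ^ 2 := by nlinarith [norm_nonneg x]
  have h2 : 0 < 1 - ‖c‖ ^ 2 := by nlinarith [norm_nonneg c]
  have h3 : 0 < Real.sqrt ((1 - ‖x‖ ^ 2) * (1 - ‖c‖ ^ 2)) := Real.sqrt_pos.mpr (mul_pos h1 h2)
  rw [chd, le_div_iff₀ h3, one_mul]
  have h4 := real_inner_le_norm x c
  have h5 : ‖x‖ * ‖c‖ < 1 := by nlinarith [norm_nonneg x, norm_nonneg c]
  apply Real.sqrt_le_iff.mpr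
  refine ⟨by linarith, ?_⟩
  nlinarith [sq_nonneg (‖x‖ - ‖c‖)]

theorem factor {d : ℕ} {c : EE d} {v w : Fin (d + 1) → EE d} (h : Pair c v w) (R : ℝ) :
    muK d (hB c R ∩ convexHull ℝ (Set.range v)) ≤
      ENNReal.ofReal (R ^ ((d : ℝ) + 1)) * muK d (hB c R ∩ convexHull ℝ (Set.range w)) := by
  by_cases hR : 1 ≤ R
  swap
  · have : hB c R = ∅ := by
      ext x
      simp only [hB, mem_ofPred_eq, mem_empty_iff_false, iff_false, not_and, not_le]
      intro hx
      push Not at hR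
      exact hR.trans_le (one_le_chd h.hc hx)
    rw [this]; simp
  have hR0 : 0 < R := by linarith
  have m1 := (meas_hB c R).inter (isClosed_hull v).measurableSet
  have m2 := (meas_hB c R).inter (isClosed_hull w).measurableSet
  have h1 : ENNReal.ofReal (R ^ (-((d : ℝ) + 1))) * muK d (hB c R ∩ convexHull ℝ (Set.range v)) ≤
      ∫⁻ x in hB c R ∩ convexHull ℝ (Set.range v), ENNReal.ofReal ((chd c x) ^ (-((d : ℝ) + 1))) ∂(muK d) := by
    rw [← setLIntegral_const]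
    apply setLIntegral_mono_ae' m1
    refine Eventually.of_forall fun x hx => ?_
    apply ENNReal.ofReal_le_ofReal
    apply Real.rpow_le_rpow_of_nonpos
    · have := one_le_chd h.hc hx.1.1; linarith
    · exact hx.1.2
    · have : (0 : ℝ) ≤ d := by positivity
      linarith
  have h2 : ∫⁻ x in hB c R ∩ convexHull ℝ (Set.range w), ENNReal.ofReal ((chd c x) ^ (-((d : ℝ) + 1))) ∂(muK d) ≤
      muK d (hB c R ∩ convexHull ℝ (Set.range w)) := by
    rw [← setLIntegral_one]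
    apply setLIntegral_mono_ae' m2
    refine Eventually.of_forall fun x hx => ?_
    rw [← ENNReal.ofReal_one]
    apply ENNReal.ofReal_le_ofReal
    apply Real.rpow_le_one_of_one_le_of_nonpos (one_le_chd h.hc hx.1.1)
    have : (0 : ℝ) ≤ d := by positivity
    linarith
  have h3 := (h1.trans (weighted h R)).trans h2
  have h4 : ENNReal.ofReal (R ^ ((d : ℝ) + 1)) * (ENNReal.ofReal (R ^ (-((d : ℝ) + 1))) * muK d (hB c R ∩ convexHull ℝ (Set.range v)))
      = muK d (hB c R ∩ convexHull ℝ (Set.range v)) := by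
    rw [← mul_assoc, ← ENNReal.ofReal_mul (by positivity), ← Real.rpow_add hR0, add_neg_cancel, Real.rpow_zero,
      ENNReal.ofReal_one, one_mul]
  rw [← h4]
  gcongr

end BallSimp
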