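import Pool.Agent.BallSimp.Eucl

set_option autoImplicit false

open MeasureTheory Set Filter Topology

namespace BallSimp

/-- the density of the hyperbolic volume in the Klein model as a function of `|x|^2` -/
noncomputable def FF (d : ℕ) (q : ℝ) : ℝ := (1 - q) ^ (-((d : ℝ) + 1) / 2)

lemma FF_pos (d : ℕ) {q : ℝ} (hq : q < 1) : 0 < FF d q := Real.rpow_pos_of_pos (by linarith) _

lemma FF_mono (d : ℕ) {p q : ℝ} (hpq : p ≤ q) (hq : q < 1) : FF d p ≤ FF d q := by
  unfold FF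
  apply Real.rpow_le_rpow_of_nonpos (by linarith) (by linarith)
  have : (0 : ℝ) ≤ d := by positivity
  linarith

lemma FF_convex (d : ℕ) : ConvexOn ℝ (Iio (1 : ℝ)) (FF d) := by
  have h1 : ConcaveOn ℝ (Iio (1 : ℝ)) (fun q : ℝ => Real.log (1 - q)) := by
    have h := strictConcaveOn_log_Ioi.concaveOn.comp_affineMap (AffineMap.const ℝ ℝ 1 - AffineMap.id ℝ ℝ)
    have e : (AffineMap.const ℝ ℝ (1 : ℝ) - AffineMap.id ℝ ℝ) ⁻¹' Ioi 0 = Iio (1 : ℝ) := by
      ext q; simp
    rw [e] at h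
    exact h
  have h2 : ConvexOn ℝ (Iio (1 : ℝ)) (fun q : ℝ => (((d : ℝ) + 1) / 2) • -Real.log (1 - q)) :=
    (h1.neg).smul (by positivity)
  have h3 := ConvexOn.comp (g := Real.exp) (s := Iio (1 : ℝ)) (f := fun q : ℝ => (((d : ℝ) + 1) / 2) • -Real.log (1 - q))
    (convexOn_exp.subset (subset_univ _) (by
      have hc : ContinuousOn (fun q : ℝ => (((d : ℝ) + 1) / 2) • -Real.log (1 - q)) (Iio 1) := by
        have h0 : ContinuousOn (fun q : ℝ => 1 - q) (Iio 1) := by fun_prop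
        have h1 : ContinuousOn (fun q : ℝ => -Real.log (1 - q)) (Iio 1) := ContinuousOn.neg (ContinuousOn.log h0 (fun x hx => by
          have : x < 1 := hx
          linarith))
        simp only [smul_eq_mul]
        exact continuousOn_const.mul h1
      exact (h2.1.isPreconnected.image _ hc).ordConnected.convex)) h2
    (Real.exp_monotone.monotoneOn _)
  refine h3.congr ?_
  intro q hq
  have hq' : q < 1 := hq
  simp only [Function.comp, FF, smul_eq_mul]
  rw [Real.rpow_def_of_pos (by linarith)]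
  congr 1; ring

lemma amgm {d : ℕ} (P : Matrix (Fin d) (Fin d) ℝ) (hP : P.PosSemidef) (h1 : 1 ≤ P.det) : (d : ℝ) ≤ P.trace := by
  rcases Nat.eq_zero_or_pos d with hd | hd
  · subst hd; simp
  have hd' : (0 : ℝ) < d := by exact_mod_cast hd
  have e1 := hP.1.det_eq_prod_eigenvalues
  have e2 := hP.1.trace_eq_sum_eigenvalues
  simp only [RCLike.ofReal_real_eq_id, id_eq] at e1 e2
  have hnn : ∀ i, 0 ≤ hP.1.eigenvalues i := hP.eigenvalues_nonneg
  have h2 := Real.geom_mean_le_arith_mean_weighted Finset.univ (fun _ : Fin d => 1 / (d : ℝ)) hP.1.eigenvalues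
    (fun _ _ => by positivity) (by simp [hd'.ne']) (fun i _ => hnn i)
  rw [Real.finsetProd_rpow _ _ (fun i _ => hnn i), ← Finset.mul_sum, ← e1, ← e2] at h2
  have h3 : 1 ≤ P.det ^ (1 / (d : ℝ)) := Real.one_le_rpow h1 (by positivity)
  have h4 : 1 ≤ 1 / (d : ℝ) * P.trace := h3.trans h2
  rw [one_div, inv_mul_eq_div, le_div_iff₀ hd'] at h4
  linarith

/-- the average squared edge length, normalised -/
noncomputable def alf {d : ℕ} (u : Fin (d + 1) → EE d) : ℝ :=
  (((d : ℝ) + 1) * ∑ k, ‖u k‖ ^ 2 - ‖∑ k, u k‖ ^ 2) / (((d : ℝ) + 1) * d)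

/-- the average inner product of two different vertices -/
noncomputable def bet {d : ℕ} (u : Fin (d + 1) → EE d) : ℝ :=
  (‖∑ k, u k‖ ^ 2 - ∑ k, ‖u k‖ ^ 2) / (((d : ℝ) + 1) * d)

lemma inv_one_add_ones (d : ℕ) : (1 + Matrix.of fun _ _ => (1 : ℝ) : Matrix (Fin d) (Fin d) ℝ) *
    (1 - (1 / ((d : ℝ) + 1)) • Matrix.of fun _ _ => (1 : ℝ)) = 1 := by
  have hJ : (Matrix.of fun _ _ => (1 : ℝ) : Matrix (Fin d) (Fin d) ℝ) * (Matrix.of fun _ _ => (1 : ℝ)) =
      (d : ℝ) • Matrix.of fun _ _ => (1 : ℝ) := by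
    ext i j; simp [Matrix.mul_apply]
  have hd : (d : ℝ) + 1 ≠ 0 := by positivity
  rw [add_mul, one_mul, mul_sub, mul_one, Matrix.mul_smul, hJ, smul_smul]
  have : (1 / ((d : ℝ) + 1)) * d = 1 - 1 / ((d : ℝ) + 1) := by field_simp; ring
  rw [this]
  module

lemma trace_gram {d : ℕ} (u : Fin (d + 1) → EE d) :
    (mt u * (mt u).transpose * (1 - (1 / ((d : ℝ) + 1)) • Matrix.of fun _ _ => (1 : ℝ))).trace =
      ∑ k, ‖u k‖ ^ 2 - ‖∑ k, u k‖ ^ 2 / ((d : ℝ) + 1) := by
  have hd : (d : ℝ) + 1 ≠ 0 := by positivity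
  have e1 : (mt u * (mt u).transpose).trace = ∑ k, ‖u k‖ ^ 2 - 2 * inner ℝ (∑ k, u k) (u 0) + ((d : ℝ) + 1) * ‖u 0‖ ^ 2 := by
    simp only [Matrix.trace, Matrix.diag_apply, mt_mul_transpose, real_inner_self_eq_norm_sq]
    have h1 : ∑ k : Fin (d + 1), ‖u k - u 0‖ ^ 2 = ∑ k : Fin d, ‖u k.succ - u 0‖ ^ 2 := by
      rw [Fin.sum_univ_succ]; simp
    rw [← h1]
    simp only [norm_sub_sq_real, Finset.sum_add_distrib, Finset.sum_sub_distrib, ← Finset.mul_sum, sum_inner,
      Finset.sum_const, Finset.card_univ, Fintype.card_fin, nsmul_eq_mul]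
    push_cast; ring
  have e2 : (mt u * (mt u).transpose * (Matrix.of fun _ _ => (1 : ℝ))).trace =
      ‖∑ k, u k‖ ^ 2 - 2 * ((d : ℝ) + 1) * inner ℝ (∑ k, u k) (u 0) + ((d : ℝ) + 1) ^ 2 * ‖u 0‖ ^ 2 := by
    have h1 : (mt u * (mt u).transpose * (Matrix.of fun _ _ => (1 : ℝ))).trace =
        ‖∑ k : Fin d, (u k.succ - u 0)‖ ^ 2 := by
      rw [← real_inner_self_eq_norm_sq, sum_inner]
      simp only [Matrix.trace, Matrix.diag_apply, Matrix.mul_apply (M := mt u * (mt u).transpose), mt_mul_transpose,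
        Matrix.of_apply, mul_one, inner_sum]
    have h2 : ∑ k : Fin d, (u k.succ - u 0) = ∑ k, u k - ((d : ℝ) + 1) • u 0 := by
      have : ∑ k : Fin (d + 1), (u k - u 0) = ∑ k : Fin d, (u k.succ - u 0) := by
        rw [Fin.sum_univ_succ]; simp
      rw [← this, Finset.sum_sub_distrib]
      simp only [Finset.sum_const, Finset.card_univ, Fintype.card_fin]
      rw [← Nat.cast_smul_eq_nsmul ℝ]
      push_cast; rfl
    rw [h1, h2, norm_sub_sq_real, norm_smul, inner_smul_right, mul_pow]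
    simp only [Real.norm_eq_abs, sq_abs]
    ring
  rw [mul_sub, mul_one, Matrix.mul_smul, Matrix.trace_sub, Matrix.trace_smul, e1, e2, smul_eq_mul]
  field_simp
  ring

/-- the regular simplex has the smallest average edge for its volume -/
lemma alf_ge {d : ℕ} (hd : 0 < d) (u w : Fin (d + 1) → EE d) (α : ℝ) (hα : 0 < α) (hw : Reg w α)
    (hle : |(mt w).det| ≤ |(mt u).det|) : α ≤ alf u := by
  have hd' : (0 : ℝ) < d := by exact_mod_cast hd
  have hwd : (mt w).det ≠ 0 := by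
    have := hw.det_sq
    intro h0
    rw [h0] at this
    have h2 : 0 < α ^ d * ((d : ℝ) + 1) := by positivity
    rw [← this] at h2
    simp at h2
  have hun : IsUnit (mt w).det := isUnit_iff_ne_zero.mpr hwd
  set N := (mt w)⁻¹ * mt u with hN
  have hP : (N * N.conjTranspose).PosSemidef := Matrix.posSemidef_self_mul_conjTranspose N
  have hct : N.conjTranspose = N.transpose := by ext i j; simp [Matrix.conjTranspose_apply]
  rw [hct] at hP
  have hdet : 1 ≤ (N * N.transpose).det := by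
    rw [Matrix.det_mul, Matrix.det_transpose, ← sq, hN, Matrix.det_mul, Matrix.det_nonsing_inv, Ring.inverse_eq_inv',
      ← sq_abs, abs_mul, abs_inv]
    have : 1 ≤ |(mt w).det|⁻¹ * |(mt u).det| := by
      rw [inv_mul_eq_div, one_le_div (abs_pos.mpr hwd)]; exact hle
    nlinarith
  have htr := amgm _ hP hdet
  have hinv : (mt w * (mt w).transpose)⁻¹ = α⁻¹ • (1 - (1 / ((d : ℝ) + 1)) • Matrix.of fun _ _ => (1 : ℝ)) := by
    apply Matrix.inv_eq_right_inv
    rw [hw.gram, Matrix.smul_mul, Matrix.mul_smul, inv_one_add_ones, smul_smul, mul_inv_cancel₀ hα.ne', one_smul]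
  have h2 : (N * N.transpose).trace = α⁻¹ * (∑ k, ‖u k‖ ^ 2 - ‖∑ k, u k‖ ^ 2 / ((d : ℝ) + 1)) := by
    rw [← trace_gram u, hN, Matrix.transpose_mul, Matrix.trace_mul_comm, Matrix.mul_assoc,
      ← Matrix.mul_assoc ((mt w)⁻¹.transpose), Matrix.transpose_nonsing_inv, ← Matrix.mul_inv_rev, hinv]
    rw [← Matrix.mul_assoc, Matrix.trace_mul_comm, ← Matrix.mul_assoc, Matrix.mul_smul, Matrix.trace_smul, smul_eq_mul]
  rw [h2, inv_mul_eq_div, le_div_iff₀ hα] at htr
  rw [alf, le_div_iff₀ (by positivity)]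
  have hd1 : (d : ℝ) + 1 ≠ 0 := by positivity
  have : (((d : ℝ) + 1) * ∑ k, ‖u k‖ ^ 2 - ‖∑ k, u k‖ ^ 2) = ((d : ℝ) + 1) * (∑ k, ‖u k‖ ^ 2 - ‖∑ k, u k‖ ^ 2 / ((d : ℝ) + 1)) := by
    field_simp
  rw [this]
  have h3 : 0 < (d : ℝ) + 1 := by positivity
  nlinarith

/-- average of a kernel over all permutations -/
lemma perm_avg (n : ℕ) (K : Fin n → Fin n → ℝ) (l : Fin n → ℝ) (hl : ∑ i, l i = 1) (hn : 2 ≤ n) :
    ∑ σ : Equiv.Perm (Fin n), ∑ i, ∑ j, l i * l j * K (σ i) (σ j) = (Nat.factorial n : ℝ) *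
      (((n * ∑ i, K i i - ∑ i, ∑ j, K i j) / (n * (n - 1))) * ∑ i, l i ^ 2 +
        (∑ i, ∑ j, K i j - ∑ i, K i i) / (n * (n - 1))) := by
  classical
  set A : Fin n → Fin n → ℝ := fun i j => ∑ σ : Equiv.Perm (Fin n), K (σ i) (σ j) with hA
  have hinv : ∀ (τ : Equiv.Perm (Fin n)) i j, A (τ i) (τ j) = A i j := by
    intro τ i j
    simp only [hA]
    exact Fintype.sum_equiv (Equiv.mulRight τ) _ _ fun σ => by simp [Equiv.Perm.mul_apply]
  let i0 : Fin n := ⟨0, by omega⟩
  let i1 : Fin n := ⟨1, by omega⟩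
  have h01 : i0 ≠ i1 := by simp [i0, i1]
  have hdiag : ∀ i, A i i = A i0 i0 := by
    intro i
    rw [← hinv (Equiv.swap i i0) i0 i0, Equiv.swap_apply_right]
  have hoff : ∀ i j, i ≠ j → A i j = A i0 i1 := by
    intro i j hij
    -- a permutation with i0 -> i and i1 -> j
    have h1 : A i j = A i0 (Equiv.swap i i0 j) := by
      rw [← hinv (Equiv.swap i i0) i j, Equiv.swap_apply_left]
    rw [h1]
    set k := Equiv.swap i i0 j with hk
    have hk0 : k ≠ i0 := by
      intro h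
      rw [hk] at h
      have := congrArg (Equiv.swap i i0) h
      rw [Equiv.swap_apply_self, Equiv.swap_apply_right] at this
      exact hij this.symm
    rw [← hinv (Equiv.swap k i1) i0 k, Equiv.swap_apply_left,
      Equiv.swap_apply_of_ne_of_ne hk0.symm h01]
  set a := A i0 i0 with ha
  set b := A i0 i1 with hb
  have hAij : ∀ i j, A i j = (a - b) * (if i = j then 1 else 0) + b := by
    intro i j
    by_cases h : i = j
    · subst h; rw [hdiag, if_pos rfl]; ring
    · rw [hoff i j h, if_neg h]; ring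
  have hn' : (n : ℝ) ≠ 0 := by positivity
  have hn1 : (n : ℝ) - 1 ≠ 0 := by
    have : (2 : ℝ) ≤ n := by exact_mod_cast hn
    linarith
  -- the two relations
  have s1 : (n : ℝ) * a = (Nat.factorial n : ℝ) * ∑ i, K i i := by
    have e1 : ∑ i, A i i = n * a := by simp [hdiag]
    rw [← e1]
    simp only [hA]
    rw [Finset.sum_comm]
    have : ∀ σ : Equiv.Perm (Fin n), ∑ i, K (σ i) (σ i) = ∑ i, K i i := fun σ => Equiv.sum_comp σ (fun i => K i i)
    simp [this, Fintype.card_perm]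
  have s2 : (n : ℝ) * a + n * (n - 1) * b = (Nat.factorial n : ℝ) * ∑ i, ∑ j, K i j := by
    have e1 : ∑ i, ∑ j, A i j = n * a + n * (n - 1) * b := by
      simp only [hAij, Finset.sum_add_distrib, ← Finset.mul_sum, Finset.sum_ite_eq, Finset.mem_univ, if_true,
        Finset.sum_const, Finset.card_univ, Fintype.card_fin, nsmul_eq_mul]
      ring
    rw [← e1]
    simp only [hA]
    have : ∀ σ : Equiv.Perm (Fin n), ∑ i, ∑ j, K (σ i) (σ j) = ∑ i, ∑ j, K i j := by
      intro σ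
      rw [← Equiv.sum_comp σ (fun i => ∑ j, K i j)]
      exact Finset.sum_congr rfl fun i _ => Equiv.sum_comp σ (fun j => K (σ i) j)
    have e2 : ∑ i, ∑ j, ∑ σ : Equiv.Perm (Fin n), K (σ i) (σ j) = ∑ σ : Equiv.Perm (Fin n), ∑ i, ∑ j, K (σ i) (σ j) := by
      simp only [Finset.sum_comm (s := (Finset.univ : Finset (Fin n))) (t := (Finset.univ : Finset (Equiv.Perm (Fin n))))]
    rw [e2]
    simp [this, Fintype.card_perm]
  have e3 : ∑ σ : Equiv.Perm (Fin n), ∑ i, ∑ j, l i * l j * K (σ i) (σ j) = ∑ i, ∑ j, l i * l j * A i j := by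
    simp only [hA, Finset.mul_sum]
    simp only [Finset.sum_comm (s := (Finset.univ : Finset (Fin n))) (t := (Finset.univ : Finset (Equiv.Perm (Fin n))))]
  rw [e3]
  have e4 : ∑ i, ∑ j, l i * l j * A i j = (a - b) * ∑ i, l i ^ 2 + b := by
    have : ∀ i, ∑ j, l i * l j * A i j = (a - b) * l i ^ 2 + b * l i := by
      intro i
      have h1 : ∀ j, l i * l j * A i j = (if i = j then (a - b) * l i ^ 2 else 0) + (b * l i) * l j := by
        intro j
        rw [hAij]
        by_cases h : i = j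
        · subst h; simp; ring
        · simp [h]; ring
      simp only [h1, Finset.sum_add_distrib, Finset.sum_ite_eq, Finset.mem_univ, if_true, ← Finset.mul_sum, hl]
      ring
    simp only [this, Finset.sum_add_distrib, ← Finset.mul_sum, hl]
    ring
  rw [e4]
  have hb' : b = (Nat.factorial n : ℝ) * ((∑ i, ∑ j, K i j - ∑ i, K i i) / (n * (n - 1))) := by
    field_simp
    linear_combination s2 - s1
  have ha' : a - b = (Nat.factorial n : ℝ) * ((n * ∑ i, K i i - ∑ i, ∑ j, K i j) / (n * (n - 1))) := by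
    field_simp
    linear_combination (n : ℝ) * s1 - s2
  rw [ha', hb']
  ring

end BallSimp
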