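import Pool.Agent.BallSimp.Jens

set_option autoImplicit false

open MeasureTheory Set Filter Topology

namespace BallSimp

lemma affInd_iff {d : ℕ} (u : Fin (d + 1) → EE d) : AffineIndependent ℝ u ↔ (mt u).det ≠ 0 := by
  rw [affineIndependent_iff_linearIndependent_vsub ℝ u 0,
    ← linearIndependent_equiv (finSuccAboveEquiv (0 : Fin (d + 1)))]
  have e1 : ((fun i : {x // x ≠ (0 : Fin (d + 1))} => (u i -ᵥ u 0 : EE d)) ∘ (finSuccAboveEquiv (0 : Fin (d + 1)))) =
      fun k : Fin d => u k.succ - u 0 := by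
    funext k
    simp [finSuccAboveEquiv_apply]
  rw [e1, ← isUnit_iff_ne_zero, ← Matrix.isUnit_iff_isUnit_det, ← Matrix.linearIndependent_rows_iff_isUnit]
  have e2 : (fun k : Fin d => u k.succ - u 0) = fun k => (WithLp.linearEquiv 2 ℝ (Fin d → ℝ)).symm ((mt u).row k) := by
    funext k
    ext i
    simp [mt, Matrix.row]
  rw [e2]
  exact LinearMap.linearIndependent_iff_of_injOn (WithLp.linearEquiv 2 ℝ (Fin d → ℝ)).symm.toLinearMap
    ((WithLp.linearEquiv 2 ℝ (Fin d → ℝ)).symm.injective.injOn)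

lemma vol_Std_pos (d : ℕ) : 0 < volume (Std d) := by
  have h : (Set.pi univ fun _ : Fin d => Ioo (0 : ℝ) (1 / ((d : ℝ) + 1))) ⊆ Std d := by
    intro x hx
    refine ⟨fun i => (hx i (mem_univ _)).1.le, ?_⟩
    have : ∑ i, x i ≤ ∑ _i : Fin d, 1 / ((d : ℝ) + 1) := Finset.sum_le_sum fun i _ => (hx i (mem_univ _)).2.le
    refine this.trans ?_
    simp only [Finset.sum_const, Finset.card_univ, Fintype.card_fin, nsmul_eq_mul]
    rw [mul_one_div, div_le_one (by positivity)]
    linarith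
  refine lt_of_lt_of_le ?_ (measure_mono h)
  rw [Real.volume_pi_Ioo]
  simp only [sub_zero, Finset.prod_const, Finset.card_univ, Fintype.card_fin]
  apply ENNReal.pow_pos
  rw [ENNReal.ofReal_pos]
  positivity

lemma vol_hull {d : ℕ} (u : Fin (d + 1) → EE d) (h : (mt u).det ≠ 0) :
    volume (convexHull ℝ (Set.range u)) = ENNReal.ofReal |(mt u).det| * volume (Std d) := by
  have := vol_hull_inter u h univ MeasurableSet.univ
  simpa using this

lemma range_perm {d : ℕ} (u : Fin (d + 1) → EE d) (σ : Equiv.Perm (Fin (d + 1))) :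
    Set.range (fun i => u (σ i)) = Set.range u := by
  have : (fun i => u (σ i)) = u ∘ σ := rfl
  rw [this, EquivLike.range_comp]

lemma det_perm {d : ℕ} (u : Fin (d + 1) → EE d) (h : (mt u).det ≠ 0) (σ : Equiv.Perm (Fin (d + 1))) :
    (mt (fun i => u (σ i))).det ≠ 0 ∧ |(mt (fun i => u (σ i))).det| = |(mt u).det| := by
  have h1 : (mt (fun i => u (σ i))).det ≠ 0 := by
    rw [← affInd_iff] at h ⊢
    exact h.comp_embedding σ.toEmbedding
  refine ⟨h1, ?_⟩
  have e1 := vol_hull u h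
  have e2 := vol_hull _ h1
  rw [range_perm, e1] at e2
  have e3 := (ENNReal.mul_left_inj (vol_Std_pos d).ne' (vol_Std_lt d).ne).mp e2
  exact ((ENNReal.ofReal_eq_ofReal_iff (abs_nonneg _) (abs_nonneg _)).mp e3).symm

lemma meas_FF (d : ℕ) : Measurable fun y : EE d => ENNReal.ofReal (FF d (‖y‖ ^ 2)) := by
  unfold FF
  refine ENNReal.measurable_ofReal.comp ?_
  exact ((measurable_const.sub (measurable_norm.pow_const 2)).pow_const _)

lemma meas_FFb {d : ℕ} (u : Fin (d + 1) → EE d) : Measurable fun x : Fin d → ℝ => ENNReal.ofReal (FF d (‖bmap u x‖ ^ 2)) :=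
  (meas_FF d).comp (continuous_bmap u).measurable

/-- the integral of the density over the simplex, in barycentric coordinates -/
noncomputable def II {d : ℕ} (u : Fin (d + 1) → EE d) : ENNReal :=
  ∫⁻ x in Std d, ENNReal.ofReal (FF d (‖bmap u x‖ ^ 2))

lemma II_perm {d : ℕ} (u : Fin (d + 1) → EE d) (h : (mt u).det ≠ 0) (σ : Equiv.Perm (Fin (d + 1))) :
    II (fun i => u (σ i)) = II u := by
  obtain ⟨h1, h2⟩ := det_perm u h σ
  have e1 := lint_hull u h _ (meas_FF d)
  have e2 := lint_hull _ h1 _ (meas_FF d)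
  rw [range_perm, e1, h2] at e2
  have h3 : ENNReal.ofReal |(mt u).det| ≠ 0 := by
    rw [Ne, ENNReal.ofReal_eq_zero, not_le]; exact abs_pos.mpr h
  exact ((ENNReal.mul_right_inj h3 ENNReal.ofReal_ne_top).mp e2).symm

lemma norm_bmap_lt {d : ℕ} (u : Fin (d + 1) → EE d) (hu : ∀ i, ‖u i‖ < 1) {x : Fin d → ℝ} (hx : x ∈ Std d) :
    ‖bmap u x‖ < 1 := by
  have h1 : bmap u x ∈ convexHull ℝ (Set.range u) := by
    rw [← bmap_image]; exact ⟨x, hx, rfl⟩
  have h2 : convexHull ℝ (Set.range u) ⊆ Metric.ball 0 1 := by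
    apply convexHull_min _ (convex_ball 0 1)
    rintro _ ⟨i, rfl⟩
    rw [mem_ball_zero_iff]; exact hu i
  exact mem_ball_zero_iff.mp (h2 h1)

lemma sum_lam_sq {d : ℕ} (x : Fin d → ℝ) : 1 / ((d : ℝ) + 1) ≤ ∑ k, lam x k ^ 2 := by
  have h := sq_sum_le_card_mul_sum_sq (s := (Finset.univ : Finset (Fin (d + 1)))) (f := lam x)
  rw [sum_lam] at h
  simp only [Finset.card_univ, Fintype.card_fin] at h
  rw [div_le_iff₀ (by positivity)]
  push_cast at h
  linarith

lemma normsq_bmap {d : ℕ} (u : Fin (d + 1) → EE d) (x : Fin d → ℝ) :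
    ‖bmap u x‖ ^ 2 = ∑ i, ∑ j, lam x i * lam x j * inner ℝ (u i) (u j) := by
  rw [← real_inner_self_eq_norm_sq, inner_bmap]
  refine Finset.sum_congr rfl fun i _ => ?_
  rw [real_inner_comm, inner_bmap, Finset.mul_sum]
  refine Finset.sum_congr rfl fun j _ => ?_
  rw [real_inner_comm]; ring

theorem jens {d : ℕ} (u w : Fin (d + 1) → EE d) (α : ℝ) (hu : ∀ i, ‖u i‖ < 1) (hdet : (mt u).det ≠ 0)
    (hw : Reg w α) (hα : 0 < α) (hle : |(mt w).det| ≤ |(mt u).det|) : II w ≤ II u := by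
  rcases Nat.eq_zero_or_pos d with hd | hd
  · subst hd
    have : u = w := Subsingleton.elim _ _
    rw [this]
  have hd' : (0 : ℝ) < d := by exact_mod_cast hd
  have hα2 := alf_ge hd u w α hα hw hle
  set N : ℕ := Nat.factorial (d + 1) with hN
  have hN0 : (0 : ℝ) < N := by exact_mod_cast Nat.factorial_pos _
  have hcard : (Finset.univ : Finset (Equiv.Perm (Fin (d + 1)))).card = N := by
    rw [Finset.card_univ, Fintype.card_perm, Fintype.card_fin]
  -- the sum over all permutations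
  have h1 : (N : ENNReal) * II u = ∫⁻ x in Std d, ∑ σ : Equiv.Perm (Fin (d + 1)),
      ENNReal.ofReal (FF d (‖bmap (fun i => u (σ i)) x‖ ^ 2)) := by
    rw [lintegral_finsetSum _ (fun σ _ => meas_FFb (fun i => u (σ i)))]
    have : ∀ σ : Equiv.Perm (Fin (d + 1)), ∫⁻ x in Std d, ENNReal.ofReal (FF d (‖bmap (fun i => u (σ i)) x‖ ^ 2)) = II u :=
      fun σ => II_perm u hdet σ
    simp only [this, Finset.sum_const, hcard, nsmul_eq_mul]
  have h2 : (N : ENNReal) * II w = ∫⁻ x in Std d, (N : ENNReal) * ENNReal.ofReal (FF d (‖bmap w x‖ ^ 2)) := by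
    rw [lintegral_const_mul _ (meas_FFb w)]
    rfl
  have h3 : (N : ENNReal) * II w ≤ (N : ENNReal) * II u := by
    rw [h1, h2]
    apply setLIntegral_mono_ae' (isClosed_Std d).measurableSet
    refine Eventually.of_forall fun x hx => ?_
    have hq : ∀ σ : Equiv.Perm (Fin (d + 1)), ‖bmap (fun i => u (σ i)) x‖ ^ 2 < 1 := by
      intro σ
      have h4 := norm_bmap_lt (fun i => u (σ i)) (fun i => hu _) hx
      have h5 := norm_nonneg (bmap (fun i => u (σ i)) x)
      nlinarith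
    rw [← ENNReal.ofReal_sum_of_nonneg (fun σ _ => (FF_pos d (hq σ)).le), ← ENNReal.ofReal_natCast, ← ENNReal.ofReal_mul hN0.le]
    apply ENNReal.ofReal_le_ofReal
    -- Jensen
    have hj := (FF_convex d).map_sum_le (t := (Finset.univ : Finset (Equiv.Perm (Fin (d + 1)))))
      (w := fun _ => 1 / (N : ℝ)) (p := fun σ => ‖bmap (fun i => u (σ i)) x‖ ^ 2)
      (fun _ _ => by positivity) (by rw [Finset.sum_const, hcard, nsmul_eq_mul, mul_one_div, div_self hN0.ne'])
      (fun σ _ => hq σ)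
    simp only [smul_eq_mul, ← Finset.mul_sum] at hj
    have havg : 1 / (N : ℝ) * ∑ σ : Equiv.Perm (Fin (d + 1)), ‖bmap (fun i => u (σ i)) x‖ ^ 2 =
        alf u * ∑ k, lam x k ^ 2 + bet u := by
      simp only [normsq_bmap]
      rw [perm_avg (d + 1) (fun i j => inner ℝ (u i) (u j)) (lam x) (sum_lam x) (by omega), ← hN, ← mul_assoc,
        one_div, inv_mul_cancel₀ hN0.ne', one_mul]
      have e1 : ∑ i, ∑ j, inner ℝ (u i) (u j) = ‖∑ k, u k‖ ^ 2 := by
        rw [← real_inner_self_eq_norm_sq, sum_inner]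
        simp only [inner_sum]
      simp only [e1, real_inner_self_eq_norm_sq]
      push_cast
      rw [alf, bet, add_sub_cancel_right]
    have hlt : alf u * ∑ k, lam x k ^ 2 + bet u < 1 := by
      rw [← havg]
      have : ∑ σ : Equiv.Perm (Fin (d + 1)), ‖bmap (fun i => u (σ i)) x‖ ^ 2 < ∑ _σ : Equiv.Perm (Fin (d + 1)), (1 : ℝ) :=
        Finset.sum_lt_sum_of_nonempty Finset.univ_nonempty fun σ _ => hq σ
      rw [Finset.sum_const, hcard, nsmul_eq_mul, mul_one] at this
      rw [one_div, inv_mul_lt_iff₀ hN0, mul_one]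
      exact this
    have hle2 : ‖bmap w x‖ ^ 2 ≤ alf u * ∑ k, lam x k ^ 2 + bet u := by
      rw [hw.norm_bmap]
      have h4 := sum_lam_sq x
      have h5 : α * (∑ k, lam x k ^ 2 - 1 / ((d : ℝ) + 1)) ≤ alf u * (∑ k, lam x k ^ 2 - 1 / ((d : ℝ) + 1)) :=
        mul_le_mul_of_nonneg_right hα2 (by linarith)
      have h6 : bet u + alf u * (1 / ((d : ℝ) + 1)) = ‖∑ k, u k‖ ^ 2 / ((d : ℝ) + 1) ^ 2 := by
        rw [alf, bet]; field_simp; ring
      have h7 : 0 ≤ ‖∑ k, u k‖ ^ 2 / ((d : ℝ) + 1) ^ 2 := by positivity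
      linarith
    rw [havg] at hj
    have h8 := (FF_mono d hle2 hlt).trans hj
    rw [one_div, inv_mul_eq_div, le_div_iff₀ hN0] at h8
    linarith
  exact (ENNReal.mul_le_mul_iff_right (by exact_mod_cast hN0.ne') (ENNReal.natCast_ne_top _)).mp h3

end BallSimp
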