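import Pool.Agent.BallSimp.Refl
import Pool.Agent.BallSimp.Jens2

set_option autoImplicit false

open MeasureTheory Set Filter Topology
open scoped Pointwise

namespace BallSimp

/-- the Lorentz form on `ℝ × ℝ^d`, positive on space like vectors -/
noncomputable def lor (d : ℕ) : LinearMap.BilinForm ℝ (ℝ × EE d) :=
  LinearMap.mk₂ ℝ (fun X Y => inner ℝ X.2 Y.2 - X.1 * Y.1)
    (fun X Y Z => by simp only [Prod.snd_add, Prod.fst_add, inner_add_left]; ring)
    (fun c X Y => by simp only [Prod.smul_snd, Prod.smul_fst, real_inner_smul_left, smul_eq_mul]; ring)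
    (fun X Y Z => by simp only [Prod.snd_add, Prod.fst_add, inner_add_right]; ring)
    (fun c X Y => by simp only [Prod.smul_snd, Prod.smul_fst, real_inner_smul_right, smul_eq_mul]; ring)

lemma lor_apply {d : ℕ} (X Y : ℝ × EE d) : lor d X Y = inner ℝ X.2 Y.2 - X.1 * Y.1 := rfl

lemma lor_self {d : ℕ} (X : ℝ × EE d) : lor d X X = ‖X.2‖ ^ 2 - X.1 ^ 2 := by
  rw [lor_apply, real_inner_self_eq_norm_sq]; ring

lemma lor_symm {d : ℕ} (X Y : ℝ × EE d) : lor d X Y = lor d Y X := by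
  rw [lor_apply, lor_apply, real_inner_comm]; ring

/-- forward time like vectors -/
def Fwd {d : ℕ} (X : ℝ × EE d) : Prop := 0 < X.1 ∧ lor d X X < 0

lemma Fwd.norm_lt {d : ℕ} {X : ℝ × EE d} (h : Fwd X) : ‖X.2‖ < X.1 := by
  have h2 := h.2
  rw [lor_self] at h2
  have := h.1
  have := norm_nonneg X.2
  nlinarith

lemma fwd_iff {d : ℕ} (X : ℝ × EE d) : Fwd X ↔ ‖X.2‖ < X.1 := by
  refine ⟨fun h => h.norm_lt, fun h => ⟨lt_of_le_of_lt (norm_nonneg _) h, ?_⟩⟩
  rw [lor_self]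
  have := norm_nonneg X.2
  nlinarith

lemma Fwd.lor_neg {d : ℕ} {X Y : ℝ × EE d} (hX : Fwd X) (hY : Fwd Y) : lor d X Y < 0 := by
  rw [lor_apply]
  have h1 := real_inner_le_norm X.2 Y.2
  have h2 := hX.norm_lt
  have h3 := hY.norm_lt
  have h4 := norm_nonneg X.2
  have h5 := norm_nonneg Y.2
  nlinarith

/-- reversed Cauchy inequality -/
lemma Fwd.rev {d : ℕ} {X Y : ℝ × EE d} (hX : Fwd X) (hY : Fwd Y) : lor d X X * lor d Y Y ≤ lor d X Y ^ 2 := by
  rw [lor_self, lor_self, lor_apply]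
  have h1 := real_inner_le_norm X.2 Y.2
  have h2 := hX.norm_lt
  have h3 := hY.norm_lt
  have h4 := norm_nonneg X.2
  have h5 := norm_nonneg Y.2
  have h6 : ‖X.2‖ * ‖Y.2‖ < X.1 * Y.1 := by nlinarith
  have h7 : (X.1 * Y.1 - ‖X.2‖ * ‖Y.2‖) ^ 2 ≤ (inner ℝ X.2 Y.2 - X.1 * Y.1) ^ 2 := by nlinarith
  nlinarith [sq_nonneg (X.1 * ‖Y.2‖ - ‖X.2‖ * Y.1)]

/-- a forward vector orthogonal to a space like vector -/
lemma exists_fwd_orth {d : ℕ} (n : ℝ × EE d) (hn : 0 < lor d n n) : ∃ Y : ℝ × EE d, Fwd Y ∧ lor d n Y = 0 := by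
  rw [lor_self] at hn
  have h0 : 0 < ‖n.2‖ := by
    by_contra h
    push Not at h
    have h1 : ‖n.2‖ = 0 := le_antisymm h (norm_nonneg _)
    rw [h1] at hn
    nlinarith [sq_nonneg n.1]
  refine ⟨(‖n.2‖ ^ 2, n.1 • n.2), ?_, ?_⟩
  · rw [fwd_iff]
    simp only [norm_smul, Real.norm_eq_abs]
    have : |n.1| < ‖n.2‖ := by
      apply abs_lt_of_sq_lt_sq _ h0.le
      linarith
    nlinarith
  · rw [lor_apply]
    simp only [real_inner_smul_right, real_inner_self_eq_norm_sq]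
    ring

lemma fwd_refl {d : ℕ} {n : ℝ × EE d} (hn : 0 < lor d n n) {X : ℝ × EE d} (hX : Fwd X) :
    Fwd (rfl' (lor d) n X) := by
  obtain ⟨Y, hY, hY0⟩ := exists_fwd_orth n hn
  have h1 : lor d (rfl' (lor d) n X) (rfl' (lor d) n X) < 0 := by
    rw [rfl'_form _ lor_symm hn.ne']; exact hX.2
  have h2 : lor d (rfl' (lor d) n X) Y < 0 := by
    rw [rfl'_form' _ lor_symm hn.ne', rfl'_apply, hY0]
    simpa using hX.lor_neg hY
  refine ⟨?_, h1⟩
  by_contra h
  push Not at h
  -- then minus the reflected vector is forward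
  have h3 : Fwd (-(rfl' (lor d) n X)) := by
    rw [fwd_iff]
    simp only [Prod.snd_neg, Prod.fst_neg, norm_neg]
    rw [lor_self] at h1
    have := norm_nonneg (rfl' (lor d) n X).2
    nlinarith
  have h4 := h3.lor_neg hY
  rw [map_neg, LinearMap.neg_apply] at h4
  linarith

lemma vol_refl {d : ℕ} {n : ℝ × EE d} (hn : 0 < lor d n n) :
    MeasurePreserving (rfl' (lor d) n) (volume : Measure (ℝ × EE d)) volume := by
  set f := rfl' (lor d) n with hf
  have hff : f ∘ₗ f = LinearMap.id := by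
    ext X <;> simp [hf, rfl'_invol _ hn.ne']
  have hdet : LinearMap.det f * LinearMap.det f = 1 := by
    rw [← LinearMap.det_comp, hff, LinearMap.det_id]
  have habs : |LinearMap.det f| = 1 := by
    have : |LinearMap.det f| * |LinearMap.det f| = 1 := by rw [← abs_mul, hdet, abs_one]
    nlinarith [abs_nonneg (LinearMap.det f)]
  have hne : LinearMap.det f ≠ 0 := by
    intro h; rw [h] at hdet; simp at hdet
  have : (volume : Measure (ℝ × EE d)).IsAddHaarMeasure := by
    rw [Measure.volume_eq_prod]; infer_instance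
  refine ⟨(LinearMap.continuous_of_finiteDimensional f).measurable, ?_⟩
  rw [Measure.map_linearMap_addHaar_eq_smul_addHaar _ hne, abs_inv, habs]
  simp

/-- the region between the cone and the hyperboloid -/
def HH (d : ℕ) : Set (ℝ × EE d) := {X | Fwd X ∧ -1 ≤ lor d X X}

lemma continuous_lor {d : ℕ} (Y : ℝ × EE d) : Continuous fun X : ℝ × EE d => lor d X Y := by
  simp only [lor_apply]; fun_prop

lemma continuous_lor_self {d : ℕ} : Continuous fun X : ℝ × EE d => lor d X X := by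
  simp only [lor_apply]; fun_prop

lemma meas_HH (d : ℕ) : MeasurableSet (HH d) := by
  have : HH d = ({X | 0 < X.1} ∩ {X | lor d X X < 0}) ∩ {X | -1 ≤ lor d X X} := by
    ext X; simp [HH, Fwd]
  rw [this]
  refine ((measurableSet_lt measurable_const measurable_fst).inter
    (measurableSet_lt continuous_lor_self.measurable measurable_const)).inter
    (measurableSet_le measurable_const continuous_lor_self.measurable)

/-- the reference measure -/
noncomputable def nu (d : ℕ) : Measure (ℝ × EE d) := volume.restrict (HH d)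

lemma nu_refl {d : ℕ} {n : ℝ × EE d} (hn : 0 < lor d n n) : MeasurePreserving (rfl' (lor d) n) (nu d) (nu d) := by
  have h := (vol_refl hn).restrict_preimage (meas_HH d)
  have e : (rfl' (lor d) n) ⁻¹' (HH d) = HH d := by
    ext X
    simp only [HH, mem_preimage, mem_ofPred_eq, rfl'_form _ lor_symm hn.ne']
    constructor
    · rintro ⟨h1, h2⟩
      refine ⟨?_, h2⟩
      have := fwd_refl hn h1
      rwa [rfl'_invol _ hn.ne'] at this
    · rintro ⟨h1, h2⟩
      exact ⟨fwd_refl hn h1, h2⟩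
  rw [e] at h
  exact h

/-- the hyperbolic volume in the Klein model -/
noncomputable def muK (d : ℕ) : Measure (EE d) :=
  volume.withDensity fun x => ENNReal.ofReal ((1 - ‖x‖ ^ 2) ^ (-((d : ℝ) + 1) / 2))

lemma lint_pow (d : ℕ) (a : ℝ) (ha : 0 ≤ a) :
    ∫⁻ s in Ioc 0 a, ENNReal.ofReal (s ^ d) = ENNReal.ofReal (a ^ (d + 1) / ((d : ℝ) + 1)) := by
  have h1 : ∫ s in (0 : ℝ)..a, s ^ d = a ^ (d + 1) / ((d : ℝ) + 1) := by
    rw [integral_pow]; simp
  rw [intervalIntegral.integral_of_le ha] at h1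
  rw [← h1, ofReal_integral_eq_lintegral_ofReal]
  · have : IntervalIntegrable (fun s : ℝ => s ^ d) volume 0 a := (continuous_pow d).intervalIntegrable _ _
    rwa [intervalIntegrable_iff_integrableOn_Ioc_of_le ha] at this
  · filter_upwards [ae_restrict_mem measurableSet_Ioc] with s hs
    have : 0 < s := hs.1
    positivity

/-- the hyperbolic volume of a set in the Klein model as a Lebesgue measure of a cone -/
lemma muK_eq {d : ℕ} (A : Set (EE d)) (hA : MeasurableSet A) (hA1 : A ⊆ Metric.ball 0 1) :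
    muK d A = ((d : ENNReal) + 1) * nu d {X | X.1⁻¹ • X.2 ∈ A} := by
  have hm : MeasurableSet {X : ℝ × EE d | X.1⁻¹ • X.2 ∈ A} := by
    have : Measurable fun X : ℝ × EE d => X.1⁻¹ • X.2 := measurable_fst.inv.smul measurable_snd
    exact this hA
  rw [nu, Measure.restrict_apply hm, Measure.volume_eq_prod, Measure.prod_apply (hm.inter (meas_HH d))]
  -- the slices
  have h1 : ∀ s : ℝ, volume (Prod.mk s ⁻¹' ({X : ℝ × EE d | X.1⁻¹ • X.2 ∈ A} ∩ HH d)) =
      (Ioi (0 : ℝ)).indicator (fun s => ENNReal.ofReal (s ^ d) * volume (A ∩ {x | s ^ 2 * (1 - ‖x‖ ^ 2) ≤ 1})) s := by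
    intro s
    by_cases hs : 0 < s
    · rw [Set.indicator_of_mem (by exact hs)]
      have e1 : Prod.mk s ⁻¹' ({X : ℝ × EE d | X.1⁻¹ • X.2 ∈ A} ∩ HH d) = s • (A ∩ {x | s ^ 2 * (1 - ‖x‖ ^ 2) ≤ 1}) := by
        ext y
        rw [Set.mem_smul_set_iff_inv_smul_mem₀ hs.ne']
        simp only [mem_preimage, mem_inter_iff, mem_ofPred_eq, HH, fwd_iff, lor_self]
        constructor
        · rintro ⟨h2, h3, h4⟩
          refine ⟨h2, ?_⟩
          rw [norm_smul, norm_inv, Real.norm_eq_abs, abs_of_pos hs]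
          have : s ^ 2 * (1 - (s⁻¹ * ‖y‖) ^ 2) = s ^ 2 - ‖y‖ ^ 2 := by field_simp
          rw [this]; linarith
        · rintro ⟨h2, h3⟩
          have h4 := mem_ball_zero_iff.mp (hA1 h2)
          rw [norm_smul, norm_inv, Real.norm_eq_abs, abs_of_pos hs] at h3 h4
          have : s ^ 2 * (1 - (s⁻¹ * ‖y‖) ^ 2) = s ^ 2 - ‖y‖ ^ 2 := by field_simp
          rw [this] at h3
          refine ⟨h2, ?_, by linarith⟩
          rw [inv_mul_lt_iff₀ hs] at h4
          linarith
      rw [e1, Measure.addHaar_smul, finrank_euclideanSpace_fin, abs_of_pos (by positivity)]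
    · rw [Set.indicator_of_notMem (by simpa using hs)]
      have : Prod.mk s ⁻¹' ({X : ℝ × EE d | X.1⁻¹ • X.2 ∈ A} ∩ HH d) = ∅ := by
        ext y
        simp only [mem_preimage, mem_inter_iff, mem_ofPred_eq, HH, Fwd, mem_empty_iff_false, iff_false]
        rintro ⟨-, ⟨h2, -⟩, -⟩
        exact hs h2
      rw [this]; simp
  simp only [h1]
  rw [lintegral_indicator measurableSet_Ioi]
  -- Fubini
  have hq : ∀ s : ℝ, MeasurableSet {x : EE d | s ^ 2 * (1 - ‖x‖ ^ 2) ≤ 1} := fun s =>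
    measurableSet_le (by fun_prop) measurable_const
  have h2 : ∀ s : ℝ, ENNReal.ofReal (s ^ d) * volume (A ∩ {x | s ^ 2 * (1 - ‖x‖ ^ 2) ≤ 1}) =
      ∫⁻ x in A, ({p : ℝ × EE d | p.1 ^ 2 * (1 - ‖p.2‖ ^ 2) ≤ 1}).indicator (fun p => ENNReal.ofReal (p.1 ^ d)) (s, x) := by
    intro s
    have e1 : (fun x : EE d => ({p : ℝ × EE d | p.1 ^ 2 * (1 - ‖p.2‖ ^ 2) ≤ 1}).indicator (fun p => ENNReal.ofReal (p.1 ^ d)) (s, x)) =
        ({x : EE d | s ^ 2 * (1 - ‖x‖ ^ 2) ≤ 1}).indicator fun _ => ENNReal.ofReal (s ^ d) := by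
      funext x; simp [Set.indicator]
    rw [e1, lintegral_indicator (hq s), lintegral_const, Measure.restrict_restrict (hq s), Measure.restrict_apply MeasurableSet.univ,
      univ_inter, inter_comm]
  simp only [h2]
  have hmeas : Measurable (({p : ℝ × EE d | p.1 ^ 2 * (1 - ‖p.2‖ ^ 2) ≤ 1}).indicator fun p => ENNReal.ofReal (p.1 ^ d)) := by
    apply Measurable.indicator
    · exact ENNReal.measurable_ofReal.comp (measurable_fst.pow_const d)
    · exact measurableSet_le (by fun_prop) measurable_const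
  rw [lintegral_lintegral_swap (μ := volume.restrict (Ioi (0 : ℝ))) (ν := volume.restrict A)
    (f := fun (s : ℝ) (x : EE d) => ({p : ℝ × EE d | p.1 ^ 2 * (1 - ‖p.2‖ ^ 2) ≤ 1}).indicator
      (fun p => ENNReal.ofReal (p.1 ^ d)) (s, x)) hmeas.aemeasurable]
  rw [muK, withDensity_apply _ hA, ← lintegral_const_mul']
  swap
  · exact ENNReal.add_ne_top.mpr ⟨ENNReal.natCast_ne_top _, ENNReal.one_ne_top⟩
  apply setLIntegral_congr_fun hA
  intro x hx
  have hx1 := mem_ball_zero_iff.mp (hA1 hx)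
  have hx2 : 0 < 1 - ‖x‖ ^ 2 := by nlinarith [norm_nonneg x]
  beta_reduce
  set a : ℝ := (1 - ‖x‖ ^ 2) ^ (-(1 : ℝ) / 2) with ha
  have ha0 : 0 < a := Real.rpow_pos_of_pos hx2 _
  have ha2 : a ^ 2 * (1 - ‖x‖ ^ 2) = 1 := by
    rw [ha, ← Real.rpow_natCast, ← Real.rpow_mul hx2.le]
    norm_num
    rw [Real.rpow_neg_one, inv_mul_cancel₀ hx2.ne']
  have e2 : ∫⁻ s in Ioi (0 : ℝ), ({p : ℝ × EE d | p.1 ^ 2 * (1 - ‖p.2‖ ^ 2) ≤ 1}).indicator (fun p => ENNReal.ofReal (p.1 ^ d)) (s, x) =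
      ∫⁻ s in Ioc 0 a, ENNReal.ofReal (s ^ d) := by
    rw [← lintegral_indicator measurableSet_Ioi, ← lintegral_indicator measurableSet_Ioc]
    congr 1
    funext s
    classical
    simp only [Set.indicator_apply, mem_Ioi, mem_Ioc, mem_ofPred_eq]
    by_cases hs : 0 < s
    · have : s ^ 2 * (1 - ‖x‖ ^ 2) ≤ 1 ↔ s ≤ a := by
        constructor
        · intro h
          have h' : s ^ 2 * (1 - ‖x‖ ^ 2) ≤ a ^ 2 * (1 - ‖x‖ ^ 2) := by linarith
          have : s ^ 2 ≤ a ^ 2 := le_of_mul_le_mul_right h' hx2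
          exact (pow_le_pow_iff_left₀ hs.le ha0.le (by norm_num)).mp this
        · intro h
          have : s ^ 2 ≤ a ^ 2 := by gcongr
          have h' := mul_le_mul_of_nonneg_right this hx2.le
          linarith
      simp [hs, this]
    · simp [hs]
  rw [e2, lint_pow d a ha0.le]
  have hd : (d : ENNReal) + 1 = ENNReal.ofReal ((d : ℝ) + 1) := by
    rw [ENNReal.ofReal_add (by positivity) (by norm_num)]; simp
  rw [hd, ← ENNReal.ofReal_mul (by positivity)]
  congr 1
  have e3 : a ^ (d + 1) = (1 - ‖x‖ ^ 2) ^ ((-(1 : ℝ) / 2) * ((d + 1 : ℕ) : ℝ)) := by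
    rw [Real.rpow_mul hx2.le, Real.rpow_natCast]
  rw [mul_div_cancel₀ _ (by positivity : (d : ℝ) + 1 ≠ 0), e3]
  congr 1
  push_cast; ring

end BallSimp
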