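import Mathlib

set_option autoImplicit false

open MeasureTheory Set Filter Topology

namespace BallSimp

section two

variable {X : Type*} [MeasurableSpace X]

/-- the abstract two point inequality -/
lemma two_point (μ : Measure X) (σ : X → X) (hσ : MeasurePreserving σ μ μ) (hinv : ∀ x, σ (σ x) = x)
    (P T A : Set X) (hT : MeasurableSet T) (hA : MeasurableSet A)
    (h0 : ∀ x, x ∈ P ∨ σ x ∈ P ∨ σ x = x) (h1 : ∀ x ∈ P, σ x ∈ A → x ∈ A) (h2 : ∀ x ∈ P, x ∈ T → σ x ∈ T) :
    μ (A ∩ T) ≤ μ ((σ ⁻¹' A) ∩ T) := by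
  have m1 : MeasurableSet (A ∩ T) := hA.inter hT
  have m2 : MeasurableSet ((σ ⁻¹' A) ∩ T) := (hσ.measurable hA).inter hT
  have e : ∀ S : Set X, MeasurableSet S → 2 * μ S = ∫⁻ x, S.indicator 1 x + S.indicator 1 (σ x) ∂μ := by
    intro S hS
    have hm : Measurable (S.indicator (1 : X → ENNReal)) := measurable_one.indicator hS
    rw [lintegral_add_left hm, hσ.lintegral_comp hm, lintegral_indicator_one hS, two_mul]
  have h3 : 2 * μ (A ∩ T) ≤ 2 * μ ((σ ⁻¹' A) ∩ T) := by
    rw [e _ m1, e _ m2]
    apply lintegral_mono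
    intro x
    beta_reduce
    -- the pointwise inequality
    have key : ∀ x, x ∈ P → (A ∩ T).indicator (1 : X → ENNReal) x + (A ∩ T).indicator 1 (σ x) ≤
        ((σ ⁻¹' A) ∩ T).indicator 1 x + ((σ ⁻¹' A) ∩ T).indicator 1 (σ x) := by
      intro x hx
      have a1 := h1 x hx
      have a2 := h2 x hx
      classical
      simp only [Set.indicator_apply, mem_inter_iff, mem_preimage, hinv, Pi.one_apply]
      by_cases b1 : x ∈ A <;> by_cases b2 : σ x ∈ A <;> by_cases b3 : x ∈ T <;> by_cases b4 : σ x ∈ T <;>
        simp_all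
    rcases h0 x with hx | hx | hx
    · exact key x hx
    · have := key (σ x) hx
      simp only [hinv] at this
      rw [add_comm, add_comm (((σ ⁻¹' A) ∩ T).indicator (1 : X → ENNReal) x)]
      exact this
    · have : ∀ y, y = x → y = σ x := by intro y hy; rw [hy, hx]
      have e1 : (A ∩ T).indicator (1 : X → ENNReal) x = ((σ ⁻¹' A) ∩ T).indicator 1 x := by
        classical
        simp only [Set.indicator_apply, mem_inter_iff, mem_preimage, hx]
      rw [hx, e1]
  rwa [ENNReal.mul_le_mul_iff_right (by norm_num) (by norm_num)] at h3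

end two

section refl

variable {W : Type*} [AddCommGroup W] [Module ℝ W] (b : LinearMap.BilinForm ℝ W)

/-- the reflection in the hyperplane orthogonal to `n` -/
noncomputable def rfl' (n : W) : W →ₗ[ℝ] W := LinearMap.id - (2 / b n n) • (b n).smulRight n

lemma rfl'_apply (n x : W) : rfl' b n x = x - (2 / b n n * b n x) • n := by
  simp [rfl', smul_smul]

lemma rfl'_invol {n : W} (hn : b n n ≠ 0) (x : W) : rfl' b n (rfl' b n x) = x := by
  rw [rfl'_apply b n (rfl' b n x), rfl'_apply b n x]
  simp only [map_sub, map_smul, smul_eq_mul]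
  have : 2 / b n n * (b n x - 2 / b n n * b n x * b n n) = -(2 / b n n * b n x) := by
    field_simp; ring
  rw [this]
  module

lemma rfl'_form (hb : ∀ x y, b x y = b y x) {n : W} (hn : b n n ≠ 0) (x y : W) :
    b (rfl' b n x) (rfl' b n y) = b x y := by
  simp only [rfl'_apply, map_sub, map_smul, smul_eq_mul, LinearMap.sub_apply, LinearMap.smul_apply]
  rw [hb x n]
  field_simp
  ring

lemma rfl'_form' (hb : ∀ x y, b x y = b y x) {n : W} (hn : b n n ≠ 0) (x y : W) :
    b (rfl' b n x) y = b x (rfl' b n y) := by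
  rw [← rfl'_form b hb hn (rfl' b n x) y, rfl'_invol b hn]

/-- the cone over a family -/
def Kc {ι : Type*} [Fintype ι] (v : ι → W) : Set W := {x | ∃ a : ι → ℝ, (∀ i, 0 ≤ a i) ∧ x = ∑ i, a i • v i}

/-- one reflection step: the measure of the intersection of a ball with the cone does not decrease -/
lemma step {ι : Type*} [Fintype ι] [DecidableEq ι] [MeasurableSpace W] (hb : ∀ x y, b x y = b y x)
    (μ : Measure W) (g : W → ℝ) (v : ι → W) (n c : W) (i : ι) (a : ι → ℝ) (hna : n = ∑ l, a l • v l)
    (ha : ∀ l, l ≠ i → a l ≤ 0) (hl : ∀ l, l ≠ i → b n (v l) ≤ 0) (hn : 0 < b n n)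
    (hni : 2 * a i * b n (v i) ≤ b n n) (hc : 0 ≤ b n c)
    (hμ : MeasurePreserving (rfl' b n) μ μ) (hg : ∀ x, g (rfl' b n x) = g x)
    (hT : MeasurableSet (Kc v)) (hA : MeasurableSet {x | g x ≤ b x c}) :
    μ ({x | g x ≤ b x c} ∩ Kc v) ≤ μ ({x | g x ≤ b x (rfl' b n c)} ∩ Kc v) := by
  have h := two_point μ (rfl' b n) hμ (rfl'_invol b hn.ne') {x | 0 < b n x} (Kc v) {x | g x ≤ b x c} hT hA ?_ ?_ ?_
  · have e : (rfl' b n) ⁻¹' {x | g x ≤ b x c} = {x | g x ≤ b x (rfl' b n c)} := by
      ext x
      simp only [mem_preimage, mem_ofPred_eq, hg, rfl'_form' b hb hn.ne']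
    rwa [e] at h
  · intro x
    rcases lt_trichotomy 0 (b n x) with h | h | h
    · left; exact h
    · right; right
      rw [rfl'_apply, ← h]; simp
    · right; left
      simp only [mem_ofPred_eq, rfl'_apply, map_sub, map_smul, smul_eq_mul]
      have : b n x - 2 / b n n * b n x * b n n = -b n x := by field_simp; ring
      rw [this]; linarith
  · intro x hx hσ
    simp only [mem_ofPred_eq] at hx hσ ⊢
    rw [hg] at hσ
    refine hσ.trans ?_
    rw [rfl'_apply, map_sub, map_smul, LinearMap.sub_apply, LinearMap.smul_apply, smul_eq_mul]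
    have : 0 ≤ 2 / b n n * b n x * b n c := by positivity
    linarith
  · intro x hx hxT
    simp only [mem_ofPred_eq] at hx
    obtain ⟨m, hm0, hm⟩ := hxT
    refine ⟨fun l => m l - 2 / b n n * b n x * a l, fun l => ?_, ?_⟩
    · have h3 : 0 ≤ 2 / b n n * b n x := by positivity
      by_cases hli : l = i
      · subst hli
        -- b n x ≤ m l * b n (v l)
        have h4 : b n x ≤ m l * b n (v l) := by
          rw [hm, map_sum, ← Finset.add_sum_erase _ _ (Finset.mem_univ l)]
          simp only [map_smul, smul_eq_mul]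
          have : ∑ k ∈ Finset.univ.erase l, m k * b n (v k) ≤ 0 :=
            Finset.sum_nonpos fun k hk => mul_nonpos_of_nonneg_of_nonpos (hm0 k) (hl k (Finset.ne_of_mem_erase hk))
          linarith
        have hmp : 0 < m l := by
          rcases (hm0 l).lt_or_eq with h | h
          · exact h
          · rw [← h, zero_mul] at h4; linarith
        have hvp : 0 < b n (v l) := by
          by_contra h
          push Not at h
          have := mul_nonpos_of_nonneg_of_nonpos (hm0 l) h
          linarith
        by_cases ha0 : a l ≤ 0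
        · have := mul_nonpos_of_nonneg_of_nonpos h3 ha0
          linarith [hm0 l]
        · push Not at ha0
          have h5 : b n x * a l ≤ m l * (b n n / 2) := by
            calc b n x * a l ≤ (m l * b n (v l)) * a l := mul_le_mul_of_nonneg_right h4 ha0.le
              _ = m l * (a l * b n (v l)) := by ring
              _ ≤ m l * (b n n / 2) := by
                apply mul_le_mul_of_nonneg_left _ (hm0 l); linarith
          have : 2 / b n n * b n x * a l ≤ m l := by
            rw [div_mul_eq_mul_div, div_mul_eq_mul_div, div_le_iff₀ hn]; linarith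
          linarith
      · have := mul_nonpos_of_nonneg_of_nonpos h3 (ha l hli)
        linarith [hm0 l]
    · rw [rfl'_apply]
      simp only [sub_smul, Finset.sum_sub_distrib, ← hm, mul_smul, ← Finset.smul_sum, ← hna]

end refl

end BallSimp
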