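import Pool.Agent.BallSimp.HypMain
import Pool.Agent.BallSimp.Usc

set_option autoImplicit false

open MeasureTheory Set Filter Topology

namespace BallSimp

section gen

variable {W : Type*} [AddCommGroup W] [Module ℝ W] [FiniteDimensional ℝ W] [TopologicalSpace W]
  [IsTopologicalAddGroup W] [ContinuousSMul ℝ W] [T2Space W]

/-- the cone over a basis is closed -/
lemma isClosed_Kc {ι : Type*} [Fintype ι] [Nonempty ι] (v : ι → W) (hli : LinearIndependent ℝ v)
    (hcard : Fintype.card ι = Module.finrank ℝ W) : IsClosed (Kc v) := by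
  let bs := basisOfLinearIndependentOfCardEqFinrank hli hcard
  have hbs : ∀ i, bs i = v i := fun i => by simp [bs]
  have e : Kc v = ⋂ i, {x | 0 ≤ bs.coord i x} := by
    ext x
    simp only [mem_iInter, mem_ofPred_eq]
    constructor
    · rintro ⟨a, ha, hx⟩ i
      have : bs.coord i x = a i := by
        rw [hx, Module.Basis.coord_apply]
        have : ∑ i, a i • v i = ∑ i, a i • bs i := by simp [hbs]
        rw [this, Module.Basis.repr_sum_self]
      rw [this]; exact ha i
    · intro h
      refine ⟨fun i => bs.coord i x, h, ?_⟩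
      have := bs.sum_repr x
      simp only [hbs] at this
      simp only [Module.Basis.coord_apply]
      exact this.symm
  rw [e]
  refine isClosed_iInter fun i => ?_
  exact isClosed_le continuous_const (LinearMap.continuous_of_finiteDimensional (bs.coord i))

end gen

/-- the bilinear form determined by a Gram matrix: two families -/
lemma form_congr {W : Type*} [AddCommGroup W] [Module ℝ W] {ι : Type*} [Fintype ι]
    (b : LinearMap.BilinForm ℝ W) (v w : ι → W) (hvw : ∀ i j, b (v i) (v j) = b (w i) (w j)) (x y : ι → ℝ) :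
    b (∑ i, x i • v i) (∑ i, y i • v i) = b (∑ i, x i • w i) (∑ i, y i • w i) := by
  simp only [map_sum, LinearMap.sum_apply, map_smul, LinearMap.smul_apply, hvw]

section hyp

variable {d : ℕ}

lemma lor_nondeg (X : ℝ × EE d) (h : ∀ Y, lor d X Y = 0) : X = 0 := by
  have h1 := h (-X.1, X.2)
  rw [lor_apply] at h1
  simp only [real_inner_self_eq_norm_sq] at h1
  have h2 : ‖X.2‖ ^ 2 = 0 := by nlinarith [sq_nonneg ‖X.2‖, sq_nonneg X.1]
  have h3 : X.1 ^ 2 = 0 := by nlinarith [sq_nonneg ‖X.2‖, sq_nonneg X.1]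
  ext1
  · simpa using h3
  · simpa using h2

lemma fr : Module.finrank ℝ (ℝ × EE d) = d + 1 := by
  rw [Module.finrank_prod]; simp [add_comm]

/-- forward vectors are characterised by the sign of the product with one forward vector -/
lemma fwd_of {X Y : ℝ × EE d} (hY : Fwd Y) (h1 : lor d X X < 0) (h2 : lor d X Y < 0) : Fwd X := by
  refine ⟨?_, h1⟩
  by_contra h
  push Not at h
  have h3 : Fwd (-X) := by
    rw [fwd_iff]
    simp only [Prod.snd_neg, Prod.fst_neg, norm_neg]
    rw [lor_self] at h1
    have := norm_nonneg X.2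
    nlinarith
  have h4 := h3.lor_neg hY
  rw [map_neg, LinearMap.neg_apply] at h4
  linarith

/-- a Lorentz map preserving the future preserves the reference measure -/
lemma nu_iso (φ : (ℝ × EE d) →ₗ[ℝ] (ℝ × EE d)) (hφ : ∀ X Y, lor d (φ X) (φ Y) = lor d X Y)
    (Y0 : ℝ × EE d) (hY0 : Fwd Y0) (hφY : Fwd (φ Y0)) :
    MeasurePreserving φ (nu d) (nu d) ∧ ∀ X, Fwd (φ X) ↔ Fwd X := by
  -- determinant
  have hdet : LinearMap.det φ * LinearMap.det φ = 1 := by
    let bs := Module.finBasis ℝ (ℝ × EE d)
    have h1 : (lor d).comp φ φ = lor d := by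
      refine LinearMap.ext₂ fun X Y => ?_
      exact hφ X Y
    have h2 := LinearMap.BilinForm.toMatrix_comp bs bs (lor d) φ φ
    rw [h1] at h2
    have h3 := congrArg Matrix.det h2
    rw [Matrix.det_mul, Matrix.det_mul, Matrix.det_transpose, LinearMap.det_toMatrix] at h3
    have hnd : (lor d).Nondegenerate := by
      rw [LinearMap.BilinForm.nondegenerate_iff_ker_eq_bot, LinearMap.ker_eq_bot']
      intro X hX
      exact lor_nondeg X fun Y => by rw [hX]; rfl
    have h4 := (LinearMap.BilinForm.nondegenerate_iff_det_ne_zero bs).mp hnd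
    have h5 : (LinearMap.BilinForm.toMatrix bs (lor d)).det * (LinearMap.det φ * LinearMap.det φ - 1) = 0 := by
      linear_combination -h3
    rcases mul_eq_zero.mp h5 with h6 | h6
    · exact absurd h6 h4
    · linarith
  have habs : |LinearMap.det φ| = 1 := by
    have : |LinearMap.det φ| * |LinearMap.det φ| = 1 := by rw [← abs_mul, hdet, abs_one]
    nlinarith [abs_nonneg (LinearMap.det φ)]
  have hne : LinearMap.det φ ≠ 0 := by
    intro h; rw [h] at hdet; simp at hdet
  have hvol : MeasurePreserving φ (volume : Measure (ℝ × EE d)) volume := by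
    have : (volume : Measure (ℝ × EE d)).IsAddHaarMeasure := by
      rw [Measure.volume_eq_prod]; infer_instance
    refine ⟨(LinearMap.continuous_of_finiteDimensional φ).measurable, ?_⟩
    rw [Measure.map_linearMap_addHaar_eq_smul_addHaar _ hne, abs_inv, habs]
    simp
  have hfwd : ∀ X, Fwd (φ X) ↔ Fwd X := by
    intro X
    constructor
    · intro h
      have h1 := h.lor_neg hφY
      rw [hφ] at h1
      have h2 := h.2
      rw [hφ] at h2
      exact fwd_of hY0 h2 h1
    · intro h
      have h1 := h.lor_neg hY0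
      rw [← hφ] at h1
      have h2 := h.2
      rw [← hφ] at h2
      exact fwd_of hφY h2 h1
  refine ⟨?_, hfwd⟩
  have h := hvol.restrict_preimage (meas_HH d)
  have e : φ ⁻¹' (HH d) = HH d := by
    ext X
    simp only [HH, mem_preimage, mem_ofPred_eq, hφ, hfwd]
  rw [e] at h
  exact h

/-- the function describing hyperbolic balls: `x` is in the ball with centre `c` when `gR R x ≤ lor x c` -/
noncomputable def gR (d : ℕ) (R : ℝ) (X : ℝ × EE d) : ℝ := -R * Real.sqrt (-lor d X X)

lemma continuous_gR (R : ℝ) : Continuous (gR d R) := by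
  unfold gR
  exact continuous_const.mul (continuous_lor_self.neg.sqrt)

/-- the measure of the intersection of the cone over `V` with the ball with centre `c` -/
noncomputable def mB (V : Fin (d + 1) → ℝ × EE d) (R : ℝ) (c : ℝ × EE d) : ENNReal :=
  nu d ({X | gR d R X ≤ lor d X c} ∩ Kc V)

lemma meas_ball (R : ℝ) (c : ℝ × EE d) : MeasurableSet {X | gR d R X ≤ lor d X c} :=
  (isClosed_le (continuous_gR R) (continuous_lor c)).measurableSet

lemma isClosed_Kc' (V : Fin (d + 1) → ℝ × EE d) (hli : LinearIndependent ℝ V) : IsClosed (Kc V) :=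
  isClosed_Kc V hli (by rw [fr, Fintype.card_fin])

lemma continuous_lor_right (X : ℝ × EE d) : Continuous fun Y : ℝ × EE d => lor d X Y := by
  simp only [lor_apply]; fun_prop

lemma mB_usc (V : Fin (d + 1) → ℝ × EE d) (hli : LinearIndependent ℝ V) (hfin : nu d (Kc V) ≠ ⊤) (R : ℝ)
    (cs : ℕ → ℝ × EE d) (c : ℝ × EE d) (hlim : Tendsto cs atTop (𝓝 c)) (M : ENNReal) (hM : ∀ n, M ≤ mB V R (cs n)) :
    M ≤ mB V R c := by
  refine usc_measure (nu d) (Kc V) hfin (fun n => {X | gR d R X ≤ lor d X (cs n)} ∩ Kc V) _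
    (fun n => (meas_ball R _).inter (isClosed_Kc' V hli).measurableSet) (fun n => inter_subset_right) ?_ M hM
  intro X hX
  refine ⟨?_, ?_⟩
  · have h1 : Tendsto (fun n => lor d X (cs n)) atTop (𝓝 (lor d X c)) := ((continuous_lor_right X).tendsto c).comp hlim
    exact ge_of_tendsto_of_frequently h1 (hX.mono fun n hn => hn.1)
  · obtain ⟨n, hn⟩ := hX.exists
    exact hn.2

/-- normalised forward vectors at bounded distance from a given one form a compact set -/
lemma compact_H (O : ℝ × EE d) (hO : Fwd O) (K : ℝ) :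
    IsCompact {c : ℝ × EE d | 0 ≤ c.1 ∧ lor d c c = -1 ∧ K ≤ lor d c O} := by
  have hOp : 0 < O.1 - ‖O.2‖ := by linarith [hO.norm_lt]
  have hcl : IsClosed {c : ℝ × EE d | 0 ≤ c.1 ∧ lor d c c = -1 ∧ K ≤ lor d c O} := by
    have : {c : ℝ × EE d | 0 ≤ c.1 ∧ lor d c c = -1 ∧ K ≤ lor d c O} =
        {c | 0 ≤ c.1} ∩ ({c | lor d c c = -1} ∩ {c | K ≤ lor d c O}) := by
      ext c; simp
    rw [this]
    exact (isClosed_le continuous_const continuous_fst).inter
      ((isClosed_eq continuous_lor_self continuous_const).inter (isClosed_le continuous_const (continuous_lor O)))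
  have hsub : {c : ℝ × EE d | 0 ≤ c.1 ∧ lor d c c = -1 ∧ K ≤ lor d c O} ⊆
      Icc 0 (-K / (O.1 - ‖O.2‖)) ×ˢ Metric.closedBall (0 : EE d) (-K / (O.1 - ‖O.2‖)) := by
    rintro c ⟨h1, h2, h3⟩
    rw [lor_self] at h2
    have h4 : ‖c.2‖ ≤ c.1 := by
      have := norm_nonneg c.2
      nlinarith
    have h5 : c.1 ≤ -K / (O.1 - ‖O.2‖) := by
      rw [le_div_iff₀ hOp]
      rw [lor_apply] at h3
      have h6 := real_inner_le_norm c.2 O.2
      have h7 := norm_nonneg O.2
      nlinarith
    refine ⟨⟨h1, h5⟩, ?_⟩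
    rw [mem_closedBall_zero_iff]
    linarith
  exact (isCompact_Icc.prod (isCompact_closedBall _ _)).of_isClosed_subset hcl hsub

/-- the optimal position of a regular simplex -/
theorem regH_centre (V : Fin (d + 1) → ℝ × EE d) (hV : ∀ i, Fwd (V i)) (C : ℝ) (hC : 1 < C)
    (h1 : ∀ i, lor d (V i) (V i) = -1) (h2 : ∀ i j, i ≠ j → lor d (V i) (V j) = -C)
    (hli : LinearIndependent ℝ V) (hfin : nu d (Kc V) ≠ ⊤) (O : ℝ × EE d) (hO : Fwd O) (hO1 : lor d O O = -1)
    (q : ℝ) (hOq : ∀ i, lor d (V i) O = -q) (c0 : ℝ × EE d) (hc0 : Fwd c0) (hc1 : lor d c0 c0 = -1) (R : ℝ) :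
    mB V R c0 ≤ mB V R O := by
  have hq : 0 < q := by
    have := (hV 0).lor_neg hO
    rw [hOq] at this; linarith
  set Z : Set (ℝ × EE d) := {c | 0 ≤ c.1 ∧ lor d c c = -1 ∧ lor d c0 O ≤ lor d c O} ∩ {c | mB V R c0 ≤ mB V R c} with hZ
  have hZc : IsCompact Z := by
    refine (compact_H O hO (lor d c0 O)).of_isClosed_subset ?_ inter_subset_left
    refine (compact_H O hO (lor d c0 O)).isClosed.inter ?_
    apply IsSeqClosed.isClosed
    intro cs c hcs hlim
    exact mB_usc V hli hfin R cs c hlim _ hcs
  have hc0Z : c0 ∈ Z := ⟨⟨hc0.1.le, hc1, le_rfl⟩, le_refl (mB V R c0)⟩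
  obtain ⟨c, hcZ, hmax⟩ := hZc.exists_isMaxOn ⟨c0, hc0Z⟩ (f := fun c => lor d c O) (continuous_lor O).continuousOn
  have hcf : Fwd c := by
    have h3 := hcZ.1.2.1
    refine ⟨?_, by rw [h3]; norm_num⟩
    rw [lor_self] at h3
    rcases hcZ.1.1.lt_or_eq with h4 | h4
    · exact h4
    · rw [← h4] at h3
      nlinarith [sq_nonneg ‖c.2‖]
  have hcn := hcZ.1.2.1
  -- all products with the vertices are equal
  have heq : ∀ i j, lor d c (V i) ≤ lor d c (V j) := by
    by_contra hne
    push Not at hne
    obtain ⟨i, j, hij⟩ := hne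
    have hij' : i ≠ j := by rintro rfl; exact lt_irrefl _ hij
    -- choice of the parameter
    have e1 : ∀ᶠ β : ℝ in 𝓝 1, 0 < -1 + 2 * β * C - β ^ 2 := by
      have hcont : Continuous fun β : ℝ => -1 + 2 * β * C - β ^ 2 := by fun_prop
      have := hcont.tendsto 1
      exact this.eventually_const_lt (by nlinarith)
    have e2 : ∀ᶠ β : ℝ in 𝓝 1, 0 < lor d c (V i) - β * lor d c (V j) := by
      have hcont : Continuous fun β : ℝ => lor d c (V i) - β * lor d c (V j) := by fun_prop
      have := hcont.tendsto 1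
      exact this.eventually_const_lt (by linarith)
    have e3 : ∀ᶠ β : ℝ in 𝓝 1, 0 < β := eventually_gt_nhds one_pos
    obtain ⟨β, ⟨⟨hb1, hb2⟩, hb3⟩, hb4⟩ : ∃ β : ℝ, ((0 < -1 + 2 * β * C - β ^ 2 ∧ 0 < lor d c (V i) - β * lor d c (V j)) ∧ 0 < β) ∧ β < 1 :=
      ((((e1.and e2).and e3).filter_mono nhdsWithin_le_nhds).and (self_mem_nhdsWithin (s := Iio (1 : ℝ)))).exists
    set n : ℝ × EE d := V i - β • V j with hn
    have f1 : lor d n (V i) = -1 + β * C := by
      rw [hn, map_sub, map_smul, LinearMap.sub_apply, LinearMap.smul_apply, h1, h2 j i hij'.symm, smul_eq_mul]; ring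
    have f2 : lor d n (V j) = -C + β := by
      rw [hn, map_sub, map_smul, LinearMap.sub_apply, LinearMap.smul_apply, h1, h2 i j hij', smul_eq_mul]; ring
    have f3 : ∀ l, l ≠ i → l ≠ j → lor d n (V l) = -C + β * C := by
      intro l hli hlj
      rw [hn, map_sub, map_smul, LinearMap.sub_apply, LinearMap.smul_apply, h2 i l hli.symm, h2 j l hlj.symm, smul_eq_mul]; ring
    have f4 : lor d n n = -1 + 2 * β * C - β ^ 2 := by
      have : lor d n n = lor d n (V i) - β * lor d n (V j) := by
        conv_lhs => rw [hn]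
        rw [lor_symm, map_sub, map_smul, smul_eq_mul, ← hn]
      rw [this, f1, f2]; ring
    have f5 : lor d n c = lor d c (V i) - β * lor d c (V j) := by
      rw [lor_symm n c, hn, map_sub, map_smul, smul_eq_mul]
    have f6 : lor d n O = -q * (1 - β) := by
      rw [hn, map_sub, map_smul, LinearMap.sub_apply, LinearMap.smul_apply, hOq, hOq, smul_eq_mul]; ring
    have hnn : 0 < lor d n n := by rw [f4]; exact hb1
    -- the step
    have hstep := step (lor d) lor_symm (nu d) (gR d R) V n c i (fun l => if l = i then 1 else if l = j then -β else 0)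
      (by
        rw [hn, sub_eq_add_neg, ← neg_smul]
        rw [← Finset.add_sum_erase _ _ (Finset.mem_univ i), if_pos rfl, one_smul]
        congr 1
        rw [← Finset.add_sum_erase _ _ (Finset.mem_erase.mpr ⟨hij'.symm, Finset.mem_univ j⟩), if_neg hij'.symm, if_pos rfl]
        rw [Finset.sum_eq_zero, add_zero]
        intro l hl
        have hlj : l ≠ j := Finset.ne_of_mem_erase hl
        have hli : l ≠ i := Finset.ne_of_mem_erase (Finset.mem_of_mem_erase hl)
        rw [if_neg hli, if_neg hlj, zero_smul])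
      (by
        intro l hl
        rw [if_neg hl]
        split_ifs <;> linarith)
      (by
        intro l hl
        by_cases hlj : l = j
        · rw [hlj, f2]; nlinarith
        · rw [f3 l hl hlj]; nlinarith)
      hnn
      (by rw [if_pos rfl, f1, f4]; nlinarith)
      (by rw [f5]; exact hb2.le)
      (nu_refl hnn)
      (by intro x; rw [gR, gR, rfl'_form _ lor_symm hnn.ne'])
      (isClosed_Kc' V hli).measurableSet (meas_ball R c)
    have hc'f := fwd_refl hnn hcf
    have hc'O : lor d c O < lor d (rfl' (lor d) n c) O := by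
      rw [rfl'_apply, map_sub, map_smul, LinearMap.sub_apply, LinearMap.smul_apply, smul_eq_mul, f5, f6]
      have : 0 < 2 / lor d n n * (lor d c (V i) - β * lor d c (V j)) := by positivity
      have h5 : 0 < q * (1 - β) := mul_pos hq (by have : β < 1 := hb4; linarith)
      nlinarith
    have hc'Z : rfl' (lor d) n c ∈ Z := by
      refine ⟨⟨hc'f.1.le, by rw [rfl'_form _ lor_symm hnn.ne', hcn], ?_⟩, ?_⟩
      · exact hcZ.1.2.2.trans hc'O.le
      · exact le_trans hcZ.2 hstep
    have := hmax hc'Z
    simp only [mem_ofPred_eq] at this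
    exact absurd hc'O (not_lt.mpr this)
  -- hence the centre
  have hco : c = O := by
    set q' : ℝ := -lor d c (V 0) with hq'
    have hq'0 : 0 < q' := by
      have := hcf.lor_neg (hV 0); rw [hq']; linarith
    have hall : ∀ i, lor d c (V i) = -q' := by
      intro i; rw [hq']; linarith [heq i 0, heq 0 i]
    have hz : c - (q' / q) • O = 0 := by
      apply lor_nondeg
      intro Y
      have hsp : Y ∈ Submodule.span ℝ (Set.range V) := by
        rw [hli.span_eq_top_of_card_eq_finrank (by rw [fr, Fintype.card_fin])]; trivial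
      induction hsp using Submodule.span_induction with
      | mem x hx =>
        obtain ⟨i, rfl⟩ := hx
        rw [map_sub, map_smul, LinearMap.sub_apply, LinearMap.smul_apply, hall, lor_symm O, hOq, smul_eq_mul]
        field_simp; ring
      | zero => simp
      | add x y _ _ hx hy => rw [map_add, hx, hy, add_zero]
      | smul a x _ hx => rw [map_smul, hx, smul_zero]
    have hce : c = (q' / q) • O := sub_eq_zero.mp hz
    have h5 : (q' / q) ^ 2 = 1 := by
      rw [hce] at hcn
      simp only [map_smul, LinearMap.smul_apply, smul_eq_mul, hO1] at hcn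
      nlinarith
    have h6 : q' / q = 1 := by
      have : 0 < q' / q := by positivity
      nlinarith
    rw [hce, h6, one_smul]
  rw [← hco]
  exact hcZ.2

end hyp

end BallSimp
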