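import Pool.Agent.BallSimp.RegH

set_option autoImplicit false

open MeasureTheory Set Filter Topology

namespace BallSimp

variable {d : ℕ}

/-- a regular frame on the hyperboloid -/
structure Frame (V : Fin (d + 1) → ℝ × EE d) (C : ℝ) : Prop where
  fwd : ∀ i, Fwd (V i)
  nrm : ∀ i, lor d (V i) (V i) = -1
  off : ∀ i j, i ≠ j → lor d (V i) (V j) = -C
  li : LinearIndependent ℝ V

lemma span_top (V : Fin (d + 1) → ℝ × EE d) (hli : LinearIndependent ℝ V) : Submodule.span ℝ (Set.range V) = ⊤ :=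
  hli.span_eq_top_of_card_eq_finrank (by rw [fr, Fintype.card_fin])

lemma centre_unique (V : Fin (d + 1) → ℝ × EE d) (hV : ∀ i, Fwd (V i)) (hli : LinearIndependent ℝ V) (c O : ℝ × EE d)
    (hc : Fwd c) (hO : Fwd O) (hc1 : lor d c c = -1) (hO1 : lor d O O = -1) (q q' : ℝ)
    (hq : ∀ i, lor d (V i) O = -q) (hq' : ∀ i, lor d (V i) c = -q') : c = O := by
  have hq0 : 0 < q := by
    have := (hV 0).lor_neg hO; rw [hq] at this; linarith
  have hq'0 : 0 < q' := by
    have := (hV 0).lor_neg hc; rw [hq'] at this; linarith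
  have hz : c - (q' / q) • O = 0 := by
    apply lor_nondeg
    intro Y
    have hsp : Y ∈ Submodule.span ℝ (Set.range V) := by
      rw [span_top V hli]; trivial
    induction hsp using Submodule.span_induction with
    | mem x hx =>
      obtain ⟨i, rfl⟩ := hx
      rw [map_sub, map_smul, LinearMap.sub_apply, LinearMap.smul_apply, lor_symm c, hq', lor_symm O, hq, smul_eq_mul]
      field_simp; ring
    | zero => simp
    | add x y _ _ hx hy => rw [map_add, hx, hy, add_zero]
    | smul a x _ hx => rw [map_smul, hx, smul_zero]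
  have hce : c = (q' / q) • O := sub_eq_zero.mp hz
  have h5 : (q' / q) ^ 2 = 1 := by
    rw [hce] at hc1
    simp only [map_smul, LinearMap.smul_apply, smul_eq_mul, hO1] at hc1
    nlinarith
  have h6 : q' / q = 1 := by
    have : 0 < q' / q := by positivity
    nlinarith
  rw [hce, h6, one_smul]

/-- two frames with the same Gram matrix are congruent -/
lemma frame_iso {V W : Fin (d + 1) → ℝ × EE d} {C : ℝ} (hV : Frame V C) (hW : Frame W C) :
    ∃ φ : (ℝ × EE d) →ₗ[ℝ] (ℝ × EE d), (∀ i, φ (V i) = W i) ∧ (∀ X Y, lor d (φ X) (φ Y) = lor d X Y) ∧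
      (∀ X, Fwd (φ X) ↔ Fwd X) ∧ MeasurePreserving φ (nu d) (nu d) ∧ ∀ X, φ X ∈ Kc W ↔ X ∈ Kc V := by
  have hcard : Fintype.card (Fin (d + 1)) = Module.finrank ℝ (ℝ × EE d) := by rw [fr, Fintype.card_fin]
  let bs := basisOfLinearIndependentOfCardEqFinrank hV.li hcard
  have hbs : ∀ i, bs i = V i := fun i => by simp [bs]
  let φ : (ℝ × EE d) →ₗ[ℝ] (ℝ × EE d) := bs.constr ℝ W
  have hφ : ∀ i, φ (V i) = W i := by
    intro i; rw [← hbs i]; simp [φ]
  have hgram : ∀ i j, lor d (V i) (V j) = lor d (W i) (W j) := by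
    intro i j
    by_cases h : i = j
    · subst h; rw [hV.nrm, hW.nrm]
    · rw [hV.off i j h, hW.off i j h]
  have hrep : ∀ X, ∃ a : Fin (d + 1) → ℝ, X = ∑ i, a i • V i := by
    intro X
    refine ⟨fun i => bs.repr X i, ?_⟩
    have := bs.sum_repr X
    simp only [hbs] at this
    exact this.symm
  have hφs : ∀ a : Fin (d + 1) → ℝ, φ (∑ i, a i • V i) = ∑ i, a i • W i := by
    intro a; rw [map_sum]; simp only [map_smul, hφ]
  have hlor : ∀ X Y, lor d (φ X) (φ Y) = lor d X Y := by
    intro X Y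
    obtain ⟨a, rfl⟩ := hrep X
    obtain ⟨b, rfl⟩ := hrep Y
    rw [hφs, hφs]
    exact (form_congr (lor d) V W hgram a b).symm
  obtain ⟨hmp, hfwd⟩ := nu_iso φ hlor (V 0) (hV.fwd 0) (by rw [hφ]; exact hW.fwd 0)
  refine ⟨φ, hφ, hlor, hfwd, hmp, ?_⟩
  intro X
  constructor
  · rintro ⟨a, ha, he⟩
    refine ⟨a, ha, ?_⟩
    have h1 : φ (X - ∑ i, a i • V i) = 0 := by rw [map_sub, hφs, he, sub_self]
    have h2 : X - ∑ i, a i • V i = 0 := by
      apply lor_nondeg
      intro Y
      rw [← hlor, h1]; simp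
    exact sub_eq_zero.mp h2
  · rintro ⟨a, ha, he⟩
    exact ⟨a, ha, by rw [he, hφs]⟩

lemma frame_nu {V W : Fin (d + 1) → ℝ × EE d} {C : ℝ} (hV : Frame V C) (hW : Frame W C) :
    nu d (Kc V) = nu d (Kc W) := by
  obtain ⟨φ, -, -, -, hmp, hK⟩ := frame_iso hV hW
  rw [← hmp.measure_preimage (isClosed_Kc' W hW.li).measurableSet.nullMeasurableSet]
  congr 1
  ext X
  exact (hK X).symm

lemma frame_mB {V W : Fin (d + 1) → ℝ × EE d} {C : ℝ} (hV : Frame V C) (hW : Frame W C) (R : ℝ)
    (OV OW : ℝ × EE d) (hOV : Fwd OV) (hOW : Fwd OW) (hOV1 : lor d OV OV = -1) (hOW1 : lor d OW OW = -1) (q q' : ℝ)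
    (hq : ∀ i, lor d (V i) OV = -q) (hq' : ∀ i, lor d (W i) OW = -q') : mB V R OV = mB W R OW := by
  obtain ⟨φ, h1, h2, h3, hmp, hK⟩ := frame_iso hV hW
  have hO : φ OV = OW := by
    refine centre_unique W hW.fwd hW.li (φ OV) OW ((h3 _).mpr hOV) hOW (by rw [h2, hOV1]) hOW1 q' q hq' ?_
    intro i
    rw [← h1 i, h2, hq]
  rw [mB, mB, ← hmp.measure_preimage ((meas_ball R OW).inter (isClosed_Kc' W hW.li).measurableSet).nullMeasurableSet]
  congr 1
  ext X
  simp only [mem_inter_iff, mem_preimage, mem_ofPred_eq, hK]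
  rw [← hO, h2, gR, gR, h2]

/-- strict monotonicity of the measure of cones -/
lemma nu_lt (V V' : Fin (d + 1) → ℝ × EE d) (hV : ∀ i, Fwd (V i)) (hli : LinearIndependent ℝ V)
    (hli' : LinearIndependent ℝ V') (hsub : Kc V' ⊆ Kc V) (h0 : V 0 ∉ Kc V') (hfin : nu d (Kc V) ≠ ⊤)
    (h1 : lor d (V 0) (V 0) = -1) :
    nu d (Kc V') < nu d (Kc V) := by
  have hcard : Fintype.card (Fin (d + 1)) = Module.finrank ℝ (ℝ × EE d) := by rw [fr, Fintype.card_fin]
  let bs := basisOfLinearIndependentOfCardEqFinrank hli hcard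
  have hbs : ∀ i, bs i = V i := fun i => by simp [bs]
  set U : Set (ℝ × EE d) := ((⋂ i, {X | 0 < bs.coord i X}) ∩ (Kc V')ᶜ) ∩ ({X | 0 < X.1} ∩ ({X | lor d X X < 0} ∩ {X | -1 < lor d X X})) with hU
  have hUo : IsOpen U := by
    refine IsOpen.inter (IsOpen.inter ?_ (isClosed_Kc' V' hli').isOpen_compl) ?_
    · refine isOpen_iInter_of_finite fun i => ?_
      exact isOpen_lt continuous_const (LinearMap.continuous_of_finiteDimensional (bs.coord i))
    · exact (isOpen_lt continuous_const continuous_fst).inter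
        ((isOpen_lt continuous_lor_self continuous_const).inter (isOpen_lt continuous_const continuous_lor_self))
  -- a point of U
  set S : ℝ × EE d := ∑ i, V i with hS
  have hUn : U.Nonempty := by
    let f : ℝ → ℝ × EE d := fun δ => (1 / 2 : ℝ) • (V 0 + δ • S)
    have hf : Continuous f := by fun_prop
    have hf0 : f 0 = (1 / 2 : ℝ) • V 0 := by simp [f]
    have e1 : ∀ᶠ δ : ℝ in 𝓝 0, f δ ∈ (Kc V')ᶜ := by
      refine hf.continuousAt.eventually_mem ((isClosed_Kc' V' hli').isOpen_compl.mem_nhds ?_)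
      rw [hf0]
      rintro ⟨a, ha, he⟩
      apply h0
      refine ⟨fun i => 2 * a i, fun i => by have := ha i; positivity, ?_⟩
      have h3 : V 0 = (2 : ℝ) • ((1 / 2 : ℝ) • V 0) := by rw [smul_smul]; norm_num
      rw [h3, he, Finset.smul_sum]
      simp only [smul_smul]
    have e2 : ∀ᶠ δ : ℝ in 𝓝 0, f δ ∈ {X : ℝ × EE d | 0 < X.1} ∩ ({X | lor d X X < 0} ∩ {X | -1 < lor d X X}) := by
      have ho : IsOpen ({X : ℝ × EE d | 0 < X.1} ∩ ({X | lor d X X < 0} ∩ {X | -1 < lor d X X})) :=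
        (isOpen_lt continuous_const continuous_fst).inter
        ((isOpen_lt continuous_lor_self continuous_const).inter (isOpen_lt continuous_const continuous_lor_self))
      refine hf.continuousAt.eventually_mem (ho.mem_nhds ?_)
      rw [hf0]
      have e3 : lor d ((1 / 2 : ℝ) • V 0) ((1 / 2 : ℝ) • V 0) = -(1 / 4) := by
        simp only [map_smul, LinearMap.smul_apply, smul_eq_mul, h1]; norm_num
      refine ⟨?_, ?_, ?_⟩
      · have := (hV 0).1
        simp only [mem_ofPred_eq, Prod.smul_fst, smul_eq_mul]; linarith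
      · simp only [mem_ofPred_eq, e3]; norm_num
      · simp only [mem_ofPred_eq, e3]; norm_num
    obtain ⟨δ, ⟨h3, h4⟩, h5⟩ : ∃ δ : ℝ, (f δ ∈ (Kc V')ᶜ ∧ f δ ∈ {X : ℝ × EE d | 0 < X.1} ∩ ({X | lor d X X < 0} ∩ {X | -1 < lor d X X})) ∧ 0 < δ :=
      (((e1.and e2).filter_mono nhdsWithin_le_nhds).and (self_mem_nhdsWithin (s := Ioi (0 : ℝ)))).exists
    refine ⟨f δ, ⟨?_, h3⟩, h4⟩
    rw [mem_iInter]
    intro i
    have h6 : bs.coord i S = 1 := by
      have : S = ∑ j, (1 : ℝ) • bs j := by simp [hS, hbs]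
      rw [this, Module.Basis.coord_apply, Module.Basis.repr_sum_self]
    have h7 : 0 ≤ bs.coord i (V 0) := by
      rw [← hbs 0, Module.Basis.coord_apply, Module.Basis.repr_self]
      by_cases h : (0 : Fin (d + 1)) = i
      · subst h; simp
      · simp [h]
    simp only [mem_ofPred_eq, f, map_smul, map_add, h6, smul_eq_mul]
    have : (0 : ℝ) < δ := h5
    nlinarith
  have hUsub : U ⊆ (Kc V \ Kc V') ∩ HH d := by
    rintro X ⟨⟨h3, h4⟩, h5, h6, h7⟩
    refine ⟨⟨?_, h4⟩, ⟨h5, h6⟩, le_of_lt h7⟩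
    refine ⟨fun i => bs.repr X i, fun i => ?_, ?_⟩
    · have := mem_iInter.mp h3 i
      simp only [mem_ofPred_eq, Module.Basis.coord_apply] at this
      exact this.le
    · have := bs.sum_repr X
      simp only [hbs] at this
      exact this.symm
  have hVpos : 0 < nu d (Kc V \ Kc V') := by
    rw [nu, Measure.restrict_apply ((isClosed_Kc' V hli).measurableSet.diff (isClosed_Kc' V' hli').measurableSet)]
    have : (volume : Measure (ℝ × EE d)).IsAddHaarMeasure := by
      rw [Measure.volume_eq_prod]; infer_instance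
    exact (hUo.measure_pos volume hUn).trans_le (measure_mono hUsub)
  have hsum := measure_sdiff_add_inter (μ := nu d) (Kc V) (isClosed_Kc' V' hli').measurableSet
  rw [inter_eq_right.mpr hsub] at hsum
  rw [← hsum, add_comm (nu d (Kc V \ Kc V'))]
  refine ENNReal.lt_add_right ?_ hVpos.ne'
  exact ne_top_of_le_ne_top hfin (measure_mono hsub)

/-- the shrunk frame -/
lemma shrink (hd : 0 < d) {V : Fin (d + 1) → ℝ × EE d} {C : ℝ} (hV : Frame V C) (C' : ℝ) (h1 : 1 < C') (h2 : C' < C) :
    ∃ V' : Fin (d + 1) → ℝ × EE d, Frame V' C' ∧ Kc V' ⊆ Kc V ∧ V 0 ∉ Kc V' := by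
  set S : ℝ × EE d := ∑ i, V i with hS
  set p : ℝ := 1 + d * C with hp
  have hC0 : 0 < C := by linarith
  have hp0 : 0 < p := by positivity
  have hVS : ∀ i, lor d (V i) S = -p := by
    intro i
    rw [hS, map_sum, ← Finset.add_sum_erase _ _ (Finset.mem_univ i), hV.nrm]
    rw [Finset.sum_congr rfl fun j hj => hV.off i j (Finset.ne_of_mem_erase hj).symm]
    simp only [Finset.sum_const, Finset.card_erase_of_mem (Finset.mem_univ i), Finset.card_univ, Fintype.card_fin,
      Nat.add_sub_cancel, nsmul_eq_mul]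
    rw [hp]; ring
  have hSS : lor d S S = -((d + 1) * p) := by
    have e : ∀ i, lor d S (V i) = -p := fun i => by rw [lor_symm, hVS]
    have e2 : lor d S S = ∑ i, lor d S (V i) := by
      conv_lhs => rw [hS]
      rw [map_sum, ← hS]
    rw [e2]
    simp only [e, Finset.sum_const, Finset.card_univ, Fintype.card_fin, nsmul_eq_mul]
    push_cast; ring
  set x : ℝ := (C - C') / (C' - 1) with hx
  have hx0 : 0 < x := div_pos (by linarith) (by linarith)
  -- choice of the parameter
  obtain ⟨t, ht, hte⟩ : ∃ t ∈ Icc (0 : ℝ) (x / (2 * p)), 2 * t * p + t ^ 2 * ((d + 1) * p) = x := by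
    have hcont : ContinuousOn (fun t : ℝ => 2 * t * p + t ^ 2 * ((d + 1) * p)) (Icc 0 (x / (2 * p))) := by fun_prop
    have := intermediate_value_Icc (by positivity) hcont
    have hmem : x ∈ Icc ((fun t : ℝ => 2 * t * p + t ^ 2 * ((d + 1) * p)) 0) ((fun t : ℝ => 2 * t * p + t ^ 2 * ((d + 1) * p)) (x / (2 * p))) := by
      constructor
      · simpa using hx0.le
      · have e : 2 * (x / (2 * p)) * p = x := by field_simp
        simp only [e]
        have : 0 ≤ (x / (2 * p)) ^ 2 * (((d : ℝ) + 1) * p) := by positivity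
        linarith
    obtain ⟨t, h3, h4⟩ := this hmem
    exact ⟨t, h3, h4⟩
  have ht0 : 0 < t := by
    rcases ht.1.lt_or_eq with h | h
    · exact h
    · rw [← h] at hte; simp at hte; linarith
  have hUU : ∀ i j, lor d (V i + t • S) (V j + t • S) = lor d (V i) (V j) - x := by
    intro i j
    simp only [map_add, map_smul, LinearMap.add_apply, LinearMap.smul_apply, smul_eq_mul, hVS, hSS, lor_symm S (V j)]
    rw [← hte]; ring
  set ρ : ℝ := Real.sqrt (1 + x) with hρ
  have hρ0 : 0 < ρ := Real.sqrt_pos.mpr (by linarith)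
  have hρ2 : ρ * ρ = 1 + x := Real.mul_self_sqrt (by linarith)
  have hinv : ρ⁻¹ * (ρ⁻¹ * (1 + x)) = 1 := by rw [← hρ2]; field_simp
  have hnrm : ∀ i, lor d (ρ⁻¹ • (V i + t • S)) (ρ⁻¹ • (V i + t • S)) = -1 := by
    intro i
    rw [map_smul, map_smul, LinearMap.smul_apply, smul_eq_mul, smul_eq_mul, hUU, hV.nrm]
    linarith
  -- linear independence
  have hli' : LinearIndependent ℝ (fun i => ρ⁻¹ • (V i + t • S)) := by
    rw [Fintype.linearIndependent_iff]
    intro g hg
    have h3 : ∑ i, (ρ⁻¹ * g i + ρ⁻¹ * t * ∑ j, g j) • V i = 0 := by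
      rw [← hg]
      simp only [add_smul, Finset.sum_add_distrib, smul_add, smul_smul]
      congr 1
      · exact Finset.sum_congr rfl fun i _ => by ring_nf
      · rw [← Finset.smul_sum, ← hS, ← Finset.sum_smul, ← Finset.sum_mul]
        congr 1; ring
    have h4 := Fintype.linearIndependent_iff.mp hV.li _ h3
    have h5 : ∀ i, g i = -(t * ∑ j, g j) := by
      intro i
      have h6 := h4 i
      have h7 : ρ⁻¹ * (g i + t * ∑ j, g j) = 0 := by linarith
      have := (mul_eq_zero.mp h7).resolve_left (inv_ne_zero hρ0.ne')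
      linarith
    have h6 : ∑ j, g j = 0 := by
      have h7 : ∑ j, g j = (d + 1) * -(t * ∑ j, g j) := by
        conv_lhs => rw [Finset.sum_congr rfl fun i _ => h5 i]
        simp
      have h8 : (1 + (d + 1) * t) * ∑ j, g j = 0 := by linarith
      have h9 : (1 + ((d : ℝ) + 1) * t) ≠ 0 := by positivity
      exact (mul_eq_zero.mp h8).resolve_left h9
    intro i
    rw [h5, h6]; simp
  refine ⟨fun i => ρ⁻¹ • (V i + t • S), ⟨?_, hnrm, ?_, hli'⟩, ?_, ?_⟩
  · intro i
    refine fwd_of (hV.fwd 0) (by rw [hnrm]; norm_num) ?_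
    rw [map_smul, LinearMap.smul_apply, smul_eq_mul, map_add, map_smul, LinearMap.add_apply, LinearMap.smul_apply,
      lor_symm S, hVS, smul_eq_mul]
    have h3 := (hV.fwd i).lor_neg (hV.fwd 0)
    have h4 : 0 < t * p := by positivity
    have : lor d (V i) (V 0) + t * -p < 0 := by linarith
    exact mul_neg_of_pos_of_neg (inv_pos.mpr hρ0) this
  · intro i j hij
    rw [map_smul, map_smul, LinearMap.smul_apply, smul_eq_mul, smul_eq_mul, hUU, hV.off i j hij]
    have h3 : C' * (1 + x) = C + x := by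
      rw [hx]
      have : C' - 1 ≠ 0 := by linarith
      field_simp; ring
    have h4 : ρ⁻¹ * (ρ⁻¹ * (-C - x)) = -(C' * (ρ⁻¹ * (ρ⁻¹ * (1 + x)))) := by
      have : -C - x = -(C' * (1 + x)) := by linarith
      rw [this]; ring
    rw [h4, hinv, mul_one]
  · rintro X ⟨a, ha, he⟩
    refine ⟨fun i => ρ⁻¹ * a i + ρ⁻¹ * t * ∑ j, a j, fun i => ?_, ?_⟩
    · have h3 := ha i
      have h4 : 0 ≤ ∑ j, a j := Finset.sum_nonneg fun j _ => ha j
      positivity
    · rw [he]
      simp only [add_smul, Finset.sum_add_distrib, smul_add, smul_smul]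
      congr 1
      · exact Finset.sum_congr rfl fun i _ => by ring_nf
      · rw [← Finset.smul_sum, ← hS, ← Finset.sum_smul, ← Finset.sum_mul]
        congr 1; ring
  · rintro ⟨a, ha, he⟩
    have h3 : ∑ i, ((if i = 0 then (1 : ℝ) else 0) - (ρ⁻¹ * a i + ρ⁻¹ * t * ∑ j, a j)) • V i = 0 := by
      have h4 : ∑ i, (ρ⁻¹ * a i + ρ⁻¹ * t * ∑ j, a j) • V i = V 0 := by
        conv_rhs => rw [he]
        simp only [add_smul, Finset.sum_add_distrib, smul_add, smul_smul]
        congr 1
        · exact Finset.sum_congr rfl fun i _ => by ring_nf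
        · rw [← Finset.smul_sum, ← hS, ← Finset.sum_smul, ← Finset.sum_mul]
          congr 1; ring
      simp only [sub_smul, Finset.sum_sub_distrib, h4]
      simp
    have h4 := Fintype.linearIndependent_iff.mp hV.li _ h3
    have h5 := h4 ⟨1, by omega⟩
    have h6 : ((⟨1, by omega⟩ : Fin (d + 1)) = 0) = False := by
      simp [Fin.ext_iff]
    simp only [h6, if_false] at h5
    have h7 : 0 ≤ ∑ j, a j := Finset.sum_nonneg fun j _ => ha j
    have h8 : 0 ≤ ρ⁻¹ * a ⟨1, by omega⟩ := mul_nonneg (inv_nonneg.mpr hρ0.le) (ha _)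
    have h9 : 0 ≤ ρ⁻¹ * t * ∑ j, a j := by positivity
    have h10 : ρ⁻¹ * t * ∑ j, a j = 0 := by linarith
    have h11 : ∑ j, a j = 0 := (mul_eq_zero.mp h10).resolve_left (by positivity)
    have h12 : ∀ j, a j = 0 := by
      intro j
      exact (Finset.sum_eq_zero_iff_of_nonneg fun j _ => ha j).mp h11 j (Finset.mem_univ j)
    have h13 := h4 0
    simp only [if_true, h12] at h13
    norm_num at h13

/-- the volume determines the edge length -/
lemma frame_C_eq (hd : 0 < d) {V W : Fin (d + 1) → ℝ × EE d} {C C' : ℝ} (hV : Frame V C) (hW : Frame W C')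
    (hC : 1 < C) (hC' : 1 < C') (hfV : nu d (Kc V) ≠ ⊤) (hfW : nu d (Kc W) ≠ ⊤) (h : nu d (Kc V) = nu d (Kc W)) : C = C' := by
  rcases lt_trichotomy C C' with hlt | heq | hlt
  · obtain ⟨W', hW', hsub, h0⟩ := shrink hd hW C hC hlt
    have h1 := nu_lt W W' hW.fwd hW.li hW'.li hsub h0 hfW (hW.nrm 0)
    rw [frame_nu hW' hV, h] at h1
    exact absurd h1 (lt_irrefl _)
  · exact heq
  · obtain ⟨V', hV', hsub, h0⟩ := shrink hd hV C' hC' hlt
    have h1 := nu_lt V V' hV.fwd hV.li hV'.li hsub h0 hfV (hV.nrm 0)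
    rw [frame_nu hV' hW, h] at h1
    exact absurd h1 (lt_irrefl _)

/-- the off diagonal entry of a frame -/
lemma frame_one_lt (hd : 0 < d) {V : Fin (d + 1) → ℝ × EE d} {C : ℝ} (hV : Frame V C) : 1 < C := by
  set z : Fin (d + 1) := ⟨1, by omega⟩ with hz
  have hne : (0 : Fin (d + 1)) ≠ z := by simp [hz, Fin.ext_iff]
  have h1 := (hV.fwd 0).lor_neg (hV.fwd z)
  rw [hV.off 0 z hne] at h1
  have h2 := (hV.fwd 0).rev (hV.fwd z)
  rw [hV.nrm, hV.nrm, hV.off 0 z hne] at h2
  have h3 : 1 ≤ C := by nlinarith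
  rcases h3.lt_or_eq with h4 | h4
  · exact h4
  · exfalso
    -- the difference is orthogonal to everything in the plane, contradiction with independence
    have h5 : lor d (V 0 - V z) (V 0 - V z) = 0 := by
      simp only [map_sub, LinearMap.sub_apply, hV.nrm, hV.off 0 z hne, hV.off z 0 hne.symm, ← h4]; norm_num
    have h6 : lor d (V 0 - V z) (V 0) = 0 := by
      simp only [map_sub, LinearMap.sub_apply, hV.nrm, hV.off z 0 hne.symm, ← h4]; norm_num
    -- a null vector orthogonal to a time like vector vanishes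
    have h7 : V 0 - V z = 0 := by
      set N := V 0 - V z with hN
      have hf := (hV.fwd 0).norm_lt
      rw [lor_self] at h5
      rw [lor_apply] at h6
      have h8 := real_inner_le_norm N.2 (V 0).2
      have h8' := real_inner_le_norm (-N.2) (V 0).2
      rw [inner_neg_left, norm_neg] at h8'
      have h9 := norm_nonneg N.2
      have h10 := norm_nonneg (V 0).2
      have h11 : |N.1| = ‖N.2‖ := by
        rw [← Real.sqrt_sq (abs_nonneg N.1), ← Real.sqrt_sq h9, sq_abs]
        congr 1; linarith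
      have h12 : ‖N.2‖ = 0 := by
        by_contra hne'
        have h13 : 0 < ‖N.2‖ := lt_of_le_of_ne h9 (Ne.symm hne')
        rcases abs_cases N.1 with ⟨h14, _⟩ | ⟨h14, _⟩
        · have h15 : N.1 = ‖N.2‖ := by rw [← h11, h14]
          rw [h15] at h6
          nlinarith
        · have h15 : N.1 = -‖N.2‖ := by rw [← h11, h14]; ring
          rw [h15] at h6
          nlinarith
      have h13 : N.1 = 0 := by rw [h12] at h11; exact abs_eq_zero.mp h11
      ext1
      · exact h13
      · exact norm_eq_zero.mp h12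
    exact hne (hV.li.injective (sub_eq_zero.mp h7))

end BallSimp
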