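import Pool.Agent.BallSimp.RegH2

set_option autoImplicit false

open MeasureTheory Set Filter Topology

namespace BallSimp

variable {d : ℕ}

/-- the point of the hyperboloid above a point of the Klein model -/
noncomputable def hyp (x : EE d) : ℝ × EE d := (Real.sqrt (1 - ‖x‖ ^ 2))⁻¹ • lft x

lemma sq_pos {x : EE d} (hx : ‖x‖ < 1) : 0 < 1 - ‖x‖ ^ 2 := by nlinarith [norm_nonneg x]

lemma lor_hyp {x y : EE d} (hx : ‖x‖ < 1) : lor d (hyp x) (hyp y) = -chd y x := by
  have h1 := sq_pos hx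
  rw [hyp, hyp, map_smul, map_smul, LinearMap.smul_apply, smul_eq_mul, smul_eq_mul, lor_apply, chd,
    Real.sqrt_mul h1.le]
  simp only [lft]
  field_simp
  ring

lemma chd_self {x : EE d} (hx : ‖x‖ < 1) : chd x x = 1 := by
  have h1 := sq_pos hx
  rw [chd, Real.sqrt_mul_self h1.le, real_inner_self_eq_norm_sq, div_self h1.ne']

lemma fwd_hyp {x : EE d} (hx : ‖x‖ < 1) : Fwd (hyp x) := by
  have h2 : 0 < (Real.sqrt (1 - ‖x‖ ^ 2))⁻¹ := inv_pos.mpr (Real.sqrt_pos.mpr (sq_pos hx))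
  refine ⟨?_, ?_⟩
  · simp only [hyp, lft, Prod.smul_fst, smul_eq_mul, mul_one]; exact h2
  · rw [lor_hyp hx, chd_self hx]; norm_num

lemma Kc_hyp (v : Fin (d + 1) → EE d) (hv : ∀ i, ‖v i‖ < 1) : Kc (fun i => hyp (v i)) = Kc fun i => lft (v i) :=
  Kc_smul _ _ fun i => inv_pos.mpr (Real.sqrt_pos.mpr (sq_pos (hv i)))

lemma li_hyp (v : Fin (d + 1) → EE d) (hv : ∀ i, ‖v i‖ < 1) (h : AffineIndependent ℝ v) :
    LinearIndependent ℝ fun i => hyp (v i) := by
  rw [affInd_iff_lin] at h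
  exact h.units_smul (fun i => Units.mk0 ((Real.sqrt (1 - ‖v i‖ ^ 2))⁻¹)
    (inv_ne_zero (Real.sqrt_pos.mpr (sq_pos (hv i))).ne'))

lemma muK_hull_cone (v : Fin (d + 1) → EE d) (hv : ∀ i, ‖v i‖ < 1) :
    muK d (convexHull ℝ (Set.range v)) = ((d : ENNReal) + 1) * nu d (Kc fun i => hyp (v i)) := by
  rw [muK_eq _ (isClosed_hull v).measurableSet (hull_sub v hv)]
  congr 1
  apply measure_congr
  filter_upwards [nu_ae] with X hX
  apply propext
  rw [Kc_hyp v hv]
  exact mem_hull_iff v hX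

lemma muK_ball_cone (v : Fin (d + 1) → EE d) (hv : ∀ i, ‖v i‖ < 1) (c : EE d) (hc : ‖c‖ < 1) (R : ℝ) :
    muK d (hB c R ∩ convexHull ℝ (Set.range v)) = ((d : ENNReal) + 1) * mB (fun i => hyp (v i)) R (hyp c) := by
  rw [muK_eq _ ((meas_hB c R).inter (isClosed_hull v).measurableSet)
    (inter_subset_right.trans (hull_sub v hv)), mB]
  congr 1
  apply measure_congr
  filter_upwards [nu_ae] with X hX
  apply propext
  have h1 := mem_hull_iff v hX
  have h2 := norm_prj hX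
  have h3 : chd c (prj X) = -lor d X (hyp c) / Real.sqrt (-lor d X X) := by
    have e1 : chd c (prj X) = chW X (lft c) := by
      rw [← chd_prj hX (fwd_lft hc), prj_lft]
    have e2 : chW X (lft c) = chW X (hyp c) := by
      rw [hyp, chW_smul_right _ _ (inv_pos.mpr (Real.sqrt_pos.mpr (sq_pos hc)))]
    have e3 : lor d (hyp c) (hyp c) = -1 := by rw [lor_hyp hc, chd_self hc]
    rw [e1, e2, chW, e3, mul_neg_one]
  have h4 : 0 < Real.sqrt (-lor d X X) := Real.sqrt_pos.mpr (by linarith [hX.2])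
  have h5 : chd c (prj X) ≤ R ↔ gR d R X ≤ lor d X (hyp c) := by
    rw [h3, div_le_iff₀ h4, gR]
    constructor <;> intro h <;> linarith
  show (prj X ∈ hB c R ∩ convexHull ℝ (Set.range v)) ↔ X ∈ {X | gR d R X ≤ lor d X (hyp c)} ∩ Kc fun i => hyp (v i)
  rw [Kc_hyp v hv, mem_inter_iff, mem_inter_iff, h1]
  simp only [hB, mem_ofPred_eq, h2, true_and, h5]

lemma muK_hull_ne_top (v : Fin (d + 1) → EE d) (hv : ∀ i, ‖v i‖ < 1) (h : AffineIndependent ℝ v) :
    muK d (convexHull ℝ (Set.range v)) ≠ ⊤ := by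
  rw [muK_hull v ((affInd_iff v).mp h)]
  exact ENNReal.mul_ne_top ENNReal.ofReal_ne_top (II_lt v hv).ne

lemma nu_Kc_ne_top (v : Fin (d + 1) → EE d) (hv : ∀ i, ‖v i‖ < 1) (h : AffineIndependent ℝ v) :
    nu d (Kc fun i => hyp (v i)) ≠ ⊤ := by
  have h1 := muK_hull_ne_top v hv h
  rw [muK_hull_cone v hv] at h1
  intro h2
  rw [h2] at h1
  apply h1
  rw [ENNReal.mul_top]
  exact (by positivity)

/-- **Hyperbolic part of Q1 for regular simplices.** -/
theorem regH_main (c : EE d) (v w : Fin (d + 1) → EE d) (hc : ‖c‖ < 1) (hv : ∀ i, ‖v i‖ < 1) (hw : ∀ i, ‖w i‖ < 1)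
    (hva : AffineIndependent ℝ v) (hwa : AffineIndependent ℝ w)
    (hvr : ∃ s : ℝ, ∀ i j, i ≠ j → chd (v j) (v i) = s) (hwr : ∃ s : ℝ, ∀ i j, i ≠ j → chd (w j) (w i) = s)
    (hcen : ∃ q : ℝ, ∀ i, chd c (w i) = q)
    (hvol : muK d (convexHull ℝ (Set.range w)) = muK d (convexHull ℝ (Set.range v))) (R : ℝ) :
    muK d (hB c R ∩ convexHull ℝ (Set.range v)) ≤ muK d (hB c R ∩ convexHull ℝ (Set.range w)) := by
  rcases Nat.eq_zero_or_pos d with hd | hd
  · subst hd
    have : v = w := Subsingleton.elim _ _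
    rw [this]
  obtain ⟨s, hs⟩ := hvr
  obtain ⟨s', hs'⟩ := hwr
  obtain ⟨q, hq⟩ := hcen
  have hV : Frame (fun i => hyp (v i)) s :=
    ⟨fun i => fwd_hyp (hv i), fun i => by rw [lor_hyp (hv i), chd_self (hv i)],
      fun i j hij => by rw [lor_hyp (hv i), hs i j hij], li_hyp v hv hva⟩
  have hW : Frame (fun i => hyp (w i)) s' :=
    ⟨fun i => fwd_hyp (hw i), fun i => by rw [lor_hyp (hw i), chd_self (hw i)],
      fun i j hij => by rw [lor_hyp (hw i), hs' i j hij], li_hyp w hw hwa⟩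
  have hfV := nu_Kc_ne_top v hv hva
  have hfW := nu_Kc_ne_top w hw hwa
  have hnu : nu d (Kc fun i => hyp (v i)) = nu d (Kc fun i => hyp (w i)) := by
    rw [muK_hull_cone v hv, muK_hull_cone w hw] at hvol
    refine ((ENNReal.mul_right_inj ?_ ?_).mp hvol).symm
    · positivity
    · exact ENNReal.add_ne_top.mpr ⟨ENNReal.natCast_ne_top _, ENNReal.one_ne_top⟩
  have hsV := frame_one_lt hd hV
  have hsW := frame_one_lt hd hW
  have hss : s = s' := frame_C_eq hd hV hW hsV hsW hfV hfW hnu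
  subst hss
  rw [muK_ball_cone v hv c hc, muK_ball_cone w hw c hc]
  gcongr
  -- the centre of the first simplex
  set S : ℝ × EE d := ∑ i, hyp (v i) with hS
  set p : ℝ := 1 + d * s with hp
  have hp0 : 0 < p := by
    have : (0 : ℝ) < d := by exact_mod_cast hd
    have : 0 < (d : ℝ) * s := by positivity
    linarith
  have hVS : ∀ i, lor d (hyp (v i)) S = -p := by
    intro i
    rw [hS, map_sum, ← Finset.add_sum_erase _ _ (Finset.mem_univ i), hV.nrm i]
    rw [Finset.sum_congr rfl fun j hj => hV.off i j (Finset.ne_of_mem_erase hj).symm]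
    simp only [Finset.sum_const, Finset.card_erase_of_mem (Finset.mem_univ i), Finset.card_univ, Fintype.card_fin,
      Nat.add_sub_cancel, nsmul_eq_mul]
    rw [hp]; ring
  have hSS : lor d S S = -((d + 1) * p) := by
    have e : ∀ i, lor d S (hyp (v i)) = -p := fun i => by rw [lor_symm, hVS]
    have e2 : lor d S S = ∑ i, lor d S (hyp (v i)) := by
      conv_lhs => rw [hS]
      rw [map_sum, ← hS]
    rw [e2]
    simp only [e, Finset.sum_const, Finset.card_univ, Fintype.card_fin, nsmul_eq_mul]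
    push_cast; ring
  set ρ : ℝ := Real.sqrt ((d + 1) * p) with hρ
  have hρ0 : 0 < ρ := Real.sqrt_pos.mpr (by positivity)
  have hρ2 : ρ * ρ = (d + 1) * p := Real.mul_self_sqrt (by positivity)
  have hSf : Fwd S := by
    refine fwd_of (fwd_hyp (hv 0)) (by rw [hSS]; have : 0 < ((d : ℝ) + 1) * p := by positivity
                                       linarith) ?_
    rw [lor_symm, hVS]; linarith
  have hO1 : lor d (ρ⁻¹ • S) (ρ⁻¹ • S) = -1 := by
    rw [map_smul, map_smul, LinearMap.smul_apply, smul_eq_mul, smul_eq_mul, hSS, ← hρ2]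
    field_simp
  have hOf : Fwd (ρ⁻¹ • S) := by
    refine ⟨?_, by rw [hO1]; norm_num⟩
    simp only [Prod.smul_fst, smul_eq_mul]
    exact mul_pos (inv_pos.mpr hρ0) hSf.1
  have hOq : ∀ i, lor d (hyp (v i)) (ρ⁻¹ • S) = -(ρ⁻¹ * p) := by
    intro i; rw [map_smul, smul_eq_mul, hVS]; ring
  have h1 := regH_centre (fun i => hyp (v i)) hV.fwd s hsV hV.nrm hV.off hV.li hfV (ρ⁻¹ • S) hOf hO1 _ hOq
    (hyp c) (fwd_hyp hc) (by rw [lor_hyp hc, chd_self hc]) R
  have h2 := frame_mB hV hW R (ρ⁻¹ • S) (hyp c) hOf (fwd_hyp hc) hO1 (by rw [lor_hyp hc, chd_self hc]) _ q hOq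
    (fun i => by rw [lor_hyp (hw i), hq i])
  rw [← h2]
  exact h1

end BallSimp
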