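import Pool.Agent.BallSimp.Sph

set_option autoImplicit false

open MeasureTheory Set Filter Topology

namespace BallSimp

variable {d : ℕ}

/-- a regular frame on the sphere -/
structure FrameS (V : Fin (d + 1) → EE (d + 1)) (s : ℝ) : Prop where
  nrm : ∀ i, inner ℝ (V i) (V i) = (1 : ℝ)
  off : ∀ i j, i ≠ j → inner ℝ (V i) (V j) = s
  li : LinearIndependent ℝ V

/-- the measure of the intersection of the simplex with a ball -/
noncomputable def mS (V : Fin (d + 1) → EE (d + 1)) (t : ℝ) (c : EE (d + 1)) : ENNReal :=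
  sph d ({x | t ≤ inner ℝ x c} ∩ Kc V)

lemma isClosed_KcS (V : Fin (d + 1) → EE (d + 1)) (hli : LinearIndependent ℝ V) : IsClosed (Kc V) :=
  isClosed_Kc V hli (by simp)

lemma meas_ballS (t : ℝ) (c : EE (d + 1)) : MeasurableSet {x : EE (d + 1) | t ≤ inner ℝ x c} :=
  (isClosed_le continuous_const (by fun_prop)).measurableSet

lemma mS_usc (V : Fin (d + 1) → EE (d + 1)) (hli : LinearIndependent ℝ V) (t : ℝ)
    (cs : ℕ → EE (d + 1)) (c : EE (d + 1)) (hlim : Tendsto cs atTop (𝓝 c)) (M : ENNReal) (hM : ∀ n, M ≤ mS V t (cs n)) :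
    M ≤ mS V t c := by
  refine usc_measure (sph d) (Kc V) (sph_Kc_ne_top V hli) (fun n => {x | t ≤ inner ℝ x (cs n)} ∩ Kc V) _
    (fun n => (meas_ballS t _).inter (isClosed_KcS V hli).measurableSet) (fun n => inter_subset_right) ?_ M hM
  intro X hX
  refine ⟨?_, ?_⟩
  · have h1 : Tendsto (fun n => inner ℝ X (cs n)) atTop (𝓝 (inner ℝ X c)) := by
      have : Continuous fun y : EE (d + 1) => (inner ℝ X y : ℝ) := by fun_prop
      exact (this.tendsto c).comp hlim
    exact ge_of_tendsto_of_frequently h1 (hX.mono fun n hn => hn.1)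
  · obtain ⟨n, hn⟩ := hX.exists
    exact hn.2

/-- the sum of the vertices of a frame -/
lemma FrameS.inner_sum {V : Fin (d + 1) → EE (d + 1)} {s : ℝ} (hV : FrameS V s) (i : Fin (d + 1)) :
    inner ℝ (V i) (∑ j, V j) = 1 + d * s := by
  rw [_root_.inner_sum, ← Finset.add_sum_erase _ _ (Finset.mem_univ i), hV.nrm]
  rw [Finset.sum_congr rfl fun j hj => hV.off i j (Finset.ne_of_mem_erase hj).symm]
  simp only [Finset.sum_const, Finset.card_erase_of_mem (Finset.mem_univ i), Finset.card_univ, Fintype.card_fin,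
    Nat.add_sub_cancel, nsmul_eq_mul]

lemma FrameS.sum_sum {V : Fin (d + 1) → EE (d + 1)} {s : ℝ} (hV : FrameS V s) :
    inner ℝ (∑ j, V j) (∑ j, V j) = (d + 1) * (1 + d * s) := by
  rw [sum_inner]
  simp only [hV.inner_sum, Finset.sum_const, Finset.card_univ, Fintype.card_fin, nsmul_eq_mul]
  push_cast; ring

lemma FrameS.sum_ne {V : Fin (d + 1) → EE (d + 1)} {s : ℝ} (hV : FrameS V s) : ∑ j, V j ≠ 0 := by
  intro h
  have h1 : ∑ j, (1 : ℝ) • V j = 0 := by simpa using h
  have := Fintype.linearIndependent_iff.mp hV.li (fun _ => 1) h1 0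
  norm_num at this

lemma FrameS.pos {V : Fin (d + 1) → EE (d + 1)} {s : ℝ} (hV : FrameS V s) : 0 < 1 + d * s := by
  have h1 := hV.sum_sum
  have h2 : 0 < inner ℝ (∑ j, V j) (∑ j, V j) := by
    rw [real_inner_self_eq_norm_sq]
    have := norm_pos_iff.mpr hV.sum_ne
    positivity
  rw [h1] at h2
  have h3 : (0 : ℝ) < d + 1 := by positivity
  exact (pos_iff_pos_of_mul_pos h2).mp h3

lemma FrameS.lt_one (hd : 0 < d) {V : Fin (d + 1) → EE (d + 1)} {s : ℝ} (hV : FrameS V s) : s < 1 := by
  set z : Fin (d + 1) := ⟨1, by omega⟩ with hz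
  have hne : (0 : Fin (d + 1)) ≠ z := by simp [hz, Fin.ext_iff]
  have h1 : V 0 - V z ≠ 0 := fun h => hne (hV.li.injective (sub_eq_zero.mp h))
  have h2 : 0 < inner ℝ (V 0 - V z) (V 0 - V z) := by
    rw [real_inner_self_eq_norm_sq]
    have := norm_pos_iff.mpr h1
    positivity
  simp only [inner_sub_left, inner_sub_right, hV.nrm, hV.off 0 z hne, hV.off z 0 hne.symm] at h2
  linarith

lemma span_topS (V : Fin (d + 1) → EE (d + 1)) (hli : LinearIndependent ℝ V) : Submodule.span ℝ (Set.range V) = ⊤ :=
  hli.span_eq_top_of_card_eq_finrank (by simp)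

/-- equal products with all vertices characterise the centre up to sign -/
lemma centre_uniqueS (V : Fin (d + 1) → EE (d + 1)) (hli : LinearIndependent ℝ V) (c O : EE (d + 1))
    (hc1 : ‖c‖ = 1) (hO1 : ‖O‖ = 1) (q q' : ℝ) (hq0 : 0 < q) (hq : ∀ i, inner ℝ (V i) O = q) (hq' : ∀ i, inner ℝ (V i) c = q') :
    c = O ∨ c = -O := by
  have hz : c - (q' / q) • O = 0 := by
    rw [← inner_self_eq_zero (𝕜 := ℝ)]
    have : ∀ Y, inner ℝ Y (c - (q' / q) • O) = 0 := by
      intro Y
      have hsp : Y ∈ Submodule.span ℝ (Set.range V) := by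
        rw [span_topS V hli]; trivial
      induction hsp using Submodule.span_induction with
      | mem x hx =>
        obtain ⟨i, rfl⟩ := hx
        rw [inner_sub_right, inner_smul_right, hq', hq]
        field_simp; ring
      | zero => simp
      | add x y _ _ hx hy => rw [inner_add_left, hx, hy, add_zero]
      | smul a x _ hx => rw [real_inner_smul_left, hx, mul_zero]
    exact this _
  have hce : c = (q' / q) • O := sub_eq_zero.mp hz
  have h5 : |q' / q| = 1 := by
    rw [hce, norm_smul, hO1, mul_one, Real.norm_eq_abs] at hc1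
    exact hc1
  rcases abs_eq (zero_le_one) |>.mp h5 with h | h
  · left; rw [hce, h, one_smul]
  · right; rw [hce, h]; simp

/-- the optimal position of a regular simplex in the sphere -/
theorem regS_centre (hd : 0 < d) (V : Fin (d + 1) → EE (d + 1)) (s : ℝ) (hV : FrameS V s) (O : EE (d + 1))
    (hO1 : ‖O‖ = 1) (q : ℝ) (hq : 0 < q) (hOq : ∀ i, inner ℝ (V i) O = q) (c0 : EE (d + 1)) (hc1 : ‖c0‖ = 1) (t : ℝ) :
    mS V t c0 ≤ mS V t O := by
  have hs1 := hV.lt_one hd
  have hs2 := hV.pos
  set Z : Set (EE (d + 1)) := Metric.sphere 0 1 ∩ {c | mS V t c0 ≤ mS V t c} with hZ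
  have hZc : IsCompact Z := by
    refine (isCompact_sphere (0 : EE (d + 1)) 1).of_isClosed_subset ?_ inter_subset_left
    refine Metric.isClosed_sphere.inter ?_
    apply IsSeqClosed.isClosed
    intro cs c hcs hlim
    exact mS_usc V hV.li t cs c hlim _ hcs
  have hc0Z : c0 ∈ Z := ⟨mem_sphere_zero_iff_norm.mpr hc1, le_refl (mS V t c0)⟩
  obtain ⟨c, hcZ, hmax⟩ := hZc.exists_isMaxOn ⟨c0, hc0Z⟩ (f := fun c => (inner ℝ c O : ℝ)) (by fun_prop)
  have hcn : ‖c‖ = 1 := mem_sphere_zero_iff_norm.mp hcZ.1
  -- a good parameter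
  obtain ⟨κ, hκ0, hκ1, hκ2⟩ : ∃ κ : ℝ, 0 ≤ κ ∧ (2 ≤ d → -s ≤ κ * (1 + (d - 2) * s)) ∧ 0 ≤ 1 + (d - 1) * κ * s := by
    have hd' : (1 : ℝ) ≤ d := by exact_mod_cast hd
    by_cases h : 0 ≤ s
    · exact ⟨0, le_rfl, fun _ => by rw [zero_mul]; linarith, by simp⟩
    · push Not at h
      by_cases hd2 : 2 ≤ d
      · have hd2' : (2 : ℝ) ≤ d := by exact_mod_cast hd2
        have h3 : 0 < 1 + (d - 2) * s := by nlinarith
        refine ⟨-s / (1 + (d - 2) * s), div_nonneg (by linarith) h3.le, fun _ => ?_, ?_⟩
        · rw [div_mul_cancel₀ _ h3.ne']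
        · have h4 : (d - 1) * (-s / (1 + (d - 2) * s)) * s = -((d - 1) * s ^ 2) / (1 + (d - 2) * s) := by ring
          rw [h4]
          have h5 : ((d : ℝ) - 1) * s ^ 2 ≤ 1 + (d - 2) * s := by nlinarith
          have h6 : -1 ≤ -((d - 1) * s ^ 2) / (1 + (d - 2) * s) := by
            rw [le_div_iff₀ h3]; linarith
          linarith
      · refine ⟨0, le_rfl, fun h => absurd h hd2, by simp⟩
  -- all products with the vertices are equal
  have heq : ∀ i j, inner ℝ c (V i) ≤ (inner ℝ c (V j) : ℝ) := by
    by_contra hne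
    push Not at hne
    obtain ⟨i, j, hij⟩ := hne
    have hij' : i ≠ j := by rintro rfl; exact lt_irrefl _ hij
    -- coefficients of the normal vector
    let co : ℝ → Fin (d + 1) → ℝ := fun x l => if l = i then 1 else if l = j then -(1 + x) else -(κ * x)
    have hsumco : ∀ (x : ℝ) (f : Fin (d + 1) → ℝ), ∑ l, co x l * f l =
        (1 + κ * x) * f i + (-(1 + x) + κ * x) * f j - κ * x * ∑ l, f l := by
      intro x f
      have : ∀ l, co x l * f l = (if l = i then (1 + κ * x) * f l else 0) + (if l = j then (-(1 + x) + κ * x) * f l else 0) -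
          κ * x * f l := by
        intro l
        simp only [co]
        by_cases h1 : l = i
        · subst h1; simp [hij']; ring
        · by_cases h2 : l = j
          · subst h2; simp [h1]; ring
          · simp [h1, h2]
      simp only [this, Finset.sum_add_distrib, Finset.sum_sub_distrib, Finset.sum_ite_eq', Finset.mem_univ, if_true,
        ← Finset.mul_sum]
    have e2 : ∀ᶠ x : ℝ in 𝓝 0, 0 < (1 + κ * x) * inner ℝ c (V i) + (-(1 + x) + κ * x) * inner ℝ c (V j) -
        κ * x * ∑ l, (inner ℝ c (V l) : ℝ) := by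
      have hcont : Continuous fun x : ℝ => (1 + κ * x) * inner ℝ c (V i) + (-(1 + x) + κ * x) * inner ℝ c (V j) -
        κ * x * ∑ l, (inner ℝ c (V l) : ℝ) := by fun_prop
      have := hcont.tendsto 0
      refine this.eventually_const_lt ?_
      simp only [mul_zero, add_zero, zero_mul, sub_zero, one_mul, neg_mul]
      linarith
    obtain ⟨x, hx1, hx2⟩ : ∃ x : ℝ, 0 < (1 + κ * x) * inner ℝ c (V i) + (-(1 + x) + κ * x) * inner ℝ c (V j) -
        κ * x * ∑ l, (inner ℝ c (V l) : ℝ) ∧ 0 < x :=
      ((e2.filter_mono nhdsWithin_le_nhds).and (self_mem_nhdsWithin (s := Ioi (0 : ℝ)))).exists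
    set n : EE (d + 1) := ∑ l, co x l • V l with hn
    have hnin : ∀ y, inner ℝ n y = ∑ l, co x l * inner ℝ (V l) y := by
      intro y; rw [hn, sum_inner]; simp only [real_inner_smul_left]
    have hgram : ∀ l, ∑ k, inner ℝ (V k) (V l) = 1 + d * s := by
      intro l
      have := hV.inner_sum l
      rw [_root_.inner_sum] at this
      rw [← this]
      exact Finset.sum_congr rfl fun k _ => real_inner_comm _ _
    have f1 : inner ℝ n (V i) = (1 + κ * x) + (-(1 + x) + κ * x) * s - κ * x * (1 + d * s) := by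
      rw [hnin, hsumco x (fun l => inner ℝ (V l) (V i)), hV.nrm, hV.off j i hij'.symm, hgram]; ring
    have f2 : inner ℝ n (V j) = (1 + κ * x) * s + (-(1 + x) + κ * x) - κ * x * (1 + d * s) := by
      rw [hnin, hsumco x (fun l => inner ℝ (V l) (V j)), hV.nrm, hV.off i j hij', hgram]; ring
    have f3 : ∀ l, l ≠ i → l ≠ j → inner ℝ n (V l) = (1 + κ * x) * s + (-(1 + x) + κ * x) * s - κ * x * (1 + d * s) := by
      intro l hli hlj
      rw [hnin, hsumco x (fun k => inner ℝ (V k) (V l)), hV.off i l hli.symm, hV.off j l hlj.symm, hgram]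
    have f4 : inner ℝ n n = (1 + κ * x) * inner ℝ n (V i) + (-(1 + x) + κ * x) * inner ℝ n (V j) -
        κ * x * ∑ l, inner ℝ n (V l) := by
      have e1 : inner ℝ n n = ∑ l, co x l * inner ℝ n (V l) := by
        conv_lhs => rw [hnin]
        exact Finset.sum_congr rfl fun l _ => by rw [real_inner_comm]
      rw [e1, hsumco x (fun l => inner ℝ n (V l))]
    have f5 : inner ℝ n c = (1 + κ * x) * inner ℝ c (V i) + (-(1 + x) + κ * x) * inner ℝ c (V j) -
        κ * x * ∑ l, (inner ℝ c (V l) : ℝ) := by
      rw [hnin, ← hsumco x (fun l => inner ℝ c (V l))]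
      exact Finset.sum_congr rfl fun l _ => by rw [real_inner_comm]
    have f6 : inner ℝ n O = -q * (x + (d - 1) * κ * x) := by
      rw [hnin, hsumco x (fun l => inner ℝ (V l) O)]
      simp only [hOq, Finset.sum_const, Finset.card_univ, Fintype.card_fin, nsmul_eq_mul]
      push_cast; ring
    have f7 : ∑ l, inner ℝ n (V l) = -(x + (d - 1) * κ * x) * (1 + d * s) := by
      have : ∑ l, inner ℝ n (V l) = inner ℝ n (∑ l, V l) := by rw [_root_.inner_sum]
      rw [this, hnin, hsumco x (fun l => inner ℝ (V l) (∑ k, V k))]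
      simp only [hV.inner_sum, Finset.sum_const, Finset.card_univ, Fintype.card_fin, nsmul_eq_mul]
      push_cast; ring
    have hnne : n ≠ 0 := by
      intro h0
      have := Fintype.linearIndependent_iff.mp hV.li (co x) h0 i
      simp [co] at this
    have hnn : 0 < ib d n n := by
      rw [ib_apply, real_inner_self_eq_norm_sq]
      have := norm_pos_iff.mpr hnne
      positivity
    have hd' : (1 : ℝ) ≤ d := by exact_mod_cast hd
    have hiso : ∀ y, ‖rfl' (ib d) n y‖ = ‖y‖ := by
      intro y
      have h1 := rfl'_form (ib d) ib_symm hnn.ne' y y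
      rw [ib_apply, ib_apply, real_inner_self_eq_norm_sq, real_inner_self_eq_norm_sq] at h1
      exact (pow_left_inj₀ (norm_nonneg _) (norm_nonneg _) (by norm_num)).mp h1
    have hstep := step (ib d) ib_symm (sph d) (fun _ => t) V n c i (co x) hn
      (by
        intro l hl
        simp only [co, if_neg hl]
        split_ifs
        · linarith
        · have : 0 ≤ κ * x := by positivity
          linarith)
      (by
        intro l hl
        rw [ib_apply]
        by_cases hlj : l = j
        · rw [hlj, f2]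
          have : (1 + κ * x) * s + (-(1 + x) + κ * x) - κ * x * (1 + d * s) = (s - 1) - x * (1 + (d - 1) * κ * s) := by ring
          rw [this]
          have := mul_nonneg hx2.le hκ2
          linarith
        · rw [f3 l hl hlj]
          have hd2 : 2 ≤ d := by
            have hc : ({i, j, l} : Finset (Fin (d + 1))).card = 3 := by
              rw [Finset.card_eq_three]
              exact ⟨i, j, l, hij', fun h => hl h.symm, fun h => hlj h.symm, rfl⟩
            have := Finset.card_le_univ ({i, j, l} : Finset (Fin (d + 1)))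
            rw [hc, Fintype.card_fin] at this
            omega
          have h1 := hκ1 hd2
          have : (1 + κ * x) * s + (-(1 + x) + κ * x) * s - κ * x * (1 + d * s) = -(x * (s + κ * (1 + (d - 2) * s))) := by ring
          rw [this]
          have : 0 ≤ x * (s + κ * (1 + (d - 2) * s)) := mul_nonneg hx2.le (by linarith)
          linarith)
      hnn
      (by
        have hci : co x i = 1 := by simp [co]
        rw [hci, ib_apply, ib_apply, f4, f7, f1, f2]
        -- the difference is a sum of nonnegative terms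
        have key : (1 + κ * x) * ((1 + κ * x) + (-(1 + x) + κ * x) * s - κ * x * (1 + d * s)) +
            (-(1 + x) + κ * x) * ((1 + κ * x) * s + (-(1 + x) + κ * x) - κ * x * (1 + d * s)) -
            κ * x * (-(x + (d - 1) * κ * x) * (1 + d * s)) -
            2 * 1 * ((1 + κ * x) + (-(1 + x) + κ * x) * s - κ * x * (1 + d * s)) =
            x * ((2 + x) * (1 + (d - 1) * κ * s)) + (d - 1) * κ * x * (x * (s + κ * (1 + (d - 2) * s))) := by ring
        have h1 : 0 ≤ x * ((2 + x) * (1 + (d - 1) * κ * s)) := by positivity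
        have h2 : 0 ≤ (d - 1) * κ * x * (x * (s + κ * (1 + (d - 2) * s))) := by
          by_cases hd2 : 2 ≤ d
          · have h3 := hκ1 hd2
            have : (0 : ℝ) ≤ d - 1 := by linarith
            have : 0 ≤ s + κ * (1 + (d - 2) * s) := by linarith
            positivity
          · have : d = 1 := by omega
            rw [this]; simp
        linarith)
      (by rw [ib_apply, f5]; exact hx1.le)
      (sph_iso _ hiso)
      (fun _ => rfl)
      (isClosed_KcS V hV.li).measurableSet (meas_ballS t c)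
    have hnn' : 0 < inner ℝ n n := hnn
    have hc'n : ‖rfl' (ib d) n c‖ = 1 := by rw [hiso, hcn]
    have hc'O : inner ℝ c O < (inner ℝ (rfl' (ib d) n c) O : ℝ) := by
      have e1 : inner ℝ (rfl' (ib d) n c) O = (inner ℝ c O : ℝ) - 2 / inner ℝ n n * inner ℝ n c * inner ℝ n O := by
        rw [rfl'_apply, inner_sub_left, real_inner_smul_left]; rfl
      rw [e1, f6]
      have h3 : 0 < 2 / (inner ℝ n n : ℝ) * inner ℝ n c := by
        have : 0 < inner ℝ n c := by rw [f5]; exact hx1
        positivity
      have h5 : 0 < q * (x + (d - 1) * κ * x) := by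
        have : (0 : ℝ) ≤ d - 1 := by linarith
        have : 0 ≤ (d - 1) * κ * x := by positivity
        have : 0 < x + (d - 1) * κ * x := by linarith
        positivity
      nlinarith
    have hc'Z : rfl' (ib d) n c ∈ Z := ⟨mem_sphere_zero_iff_norm.mpr hc'n, le_trans hcZ.2 hstep⟩
    have := hmax hc'Z
    simp only [mem_ofPred_eq] at this
    exact absurd hc'O (not_lt.mpr this)
  -- hence the centre
  have hall : ∀ i, inner ℝ (V i) c = (inner ℝ (V 0) c : ℝ) := by
    intro i
    rw [real_inner_comm, real_inner_comm c (V 0)]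
    exact le_antisymm (heq i 0) (heq 0 i)
  rcases centre_uniqueS V hV.li c O hcn hO1 q _ hq hOq hall with h | h
  · rw [← h]; exact hcZ.2
  · -- the antipodal case
    refine le_trans hcZ.2 (measure_mono ?_)
    rintro y ⟨hy1, hy2⟩
    refine ⟨?_, hy2⟩
    obtain ⟨a, ha, he⟩ := hy2
    have h1 : 0 ≤ (inner ℝ y O : ℝ) := by
      rw [he, sum_inner]
      refine Finset.sum_nonneg fun i _ => ?_
      rw [real_inner_smul_left, hOq]
      exact mul_nonneg (ha i) hq.le
    simp only [mem_ofPred_eq, h, inner_neg_right] at hy1 ⊢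
    linarith

end BallSimp
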