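import Pool.Agent.BallSimp.RegS

set_option autoImplicit false

open MeasureTheory Set Filter Topology

namespace BallSimp

variable {d : ℕ}

/-- two frames with the same Gram matrix are congruent -/
lemma frameS_iso {V W : Fin (d + 1) → EE (d + 1)} {s : ℝ} (hV : FrameS V s) (hW : FrameS W s) :
    ∃ φ : EE (d + 1) →ₗ[ℝ] EE (d + 1), (∀ i, φ (V i) = W i) ∧ (∀ x y, inner ℝ (φ x) (φ y) = (inner ℝ x y : ℝ)) ∧
      MeasurePreserving φ (sph d) (sph d) ∧ ∀ x, φ x ∈ Kc W ↔ x ∈ Kc V := by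
  have hcard : Fintype.card (Fin (d + 1)) = Module.finrank ℝ (EE (d + 1)) := by simp
  let bs := basisOfLinearIndependentOfCardEqFinrank hV.li hcard
  have hbs : ∀ i, bs i = V i := fun i => by simp [bs]
  let φ : EE (d + 1) →ₗ[ℝ] EE (d + 1) := bs.constr ℝ W
  have hφ : ∀ i, φ (V i) = W i := by
    intro i; rw [← hbs i]; simp [φ]
  have hgram : ∀ i j, ib d (V i) (V j) = ib d (W i) (W j) := by
    intro i j
    rw [ib_apply, ib_apply]
    by_cases h : i = j
    · subst h; rw [hV.nrm, hW.nrm]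
    · rw [hV.off i j h, hW.off i j h]
  have hrep : ∀ X, ∃ a : Fin (d + 1) → ℝ, X = ∑ i, a i • V i := by
    intro X
    refine ⟨fun i => bs.repr X i, ?_⟩
    have := bs.sum_repr X
    simp only [hbs] at this
    exact this.symm
  have hφs : ∀ a : Fin (d + 1) → ℝ, φ (∑ i, a i • V i) = ∑ i, a i • W i := by
    intro a; rw [map_sum]; simp only [map_smul, hφ]
  have hin : ∀ x y, inner ℝ (φ x) (φ y) = (inner ℝ x y : ℝ) := by
    intro X Y
    obtain ⟨a, rfl⟩ := hrep X
    obtain ⟨b, rfl⟩ := hrep Y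
    rw [hφs, hφs]
    exact (form_congr (ib d) V W hgram a b).symm
  have hnorm : ∀ x, ‖φ x‖ = ‖x‖ := by
    intro x
    have h1 := hin x x
    rw [real_inner_self_eq_norm_sq, real_inner_self_eq_norm_sq] at h1
    exact (pow_left_inj₀ (norm_nonneg _) (norm_nonneg _) (by norm_num)).mp h1
  refine ⟨φ, hφ, hin, sph_iso φ hnorm, ?_⟩
  intro X
  constructor
  · rintro ⟨a, ha, he⟩
    refine ⟨a, ha, ?_⟩
    have h1 : φ (X - ∑ i, a i • V i) = 0 := by rw [map_sub, hφs, he, sub_self]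
    have h2 : ‖X - ∑ i, a i • V i‖ = 0 := by rw [← hnorm, h1, norm_zero]
    exact sub_eq_zero.mp (norm_eq_zero.mp h2)
  · rintro ⟨a, ha, he⟩
    exact ⟨a, ha, by rw [he, hφs]⟩

lemma frameS_nu {V W : Fin (d + 1) → EE (d + 1)} {s : ℝ} (hV : FrameS V s) (hW : FrameS W s) :
    sph d (Kc V) = sph d (Kc W) := by
  obtain ⟨φ, -, -, hmp, hK⟩ := frameS_iso hV hW
  rw [← hmp.measure_preimage (isClosed_KcS W hW.li).measurableSet.nullMeasurableSet]
  congr 1
  ext X
  exact (hK X).symm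

lemma frameS_mB {V W : Fin (d + 1) → EE (d + 1)} {s : ℝ} (hV : FrameS V s) (hW : FrameS W s) (t : ℝ)
    (OV OW : EE (d + 1)) (hOV1 : ‖OV‖ = 1) (hOW1 : ‖OW‖ = 1) (q q' : ℝ) (hq0 : 0 < q) (hq0' : 0 < q')
    (hq : ∀ i, inner ℝ (V i) OV = q) (hq' : ∀ i, inner ℝ (W i) OW = q') : mS V t OV = mS W t OW := by
  obtain ⟨φ, h1, h2, hmp, hK⟩ := frameS_iso hV hW
  have hnorm : ∀ x, ‖φ x‖ = ‖x‖ := by
    intro x
    have h1 := h2 x x
    rw [real_inner_self_eq_norm_sq, real_inner_self_eq_norm_sq] at h1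
    exact (pow_left_inj₀ (norm_nonneg _) (norm_nonneg _) (by norm_num)).mp h1
  have hO : φ OV = OW := by
    have h3 : ∀ i, inner ℝ (W i) (φ OV) = q := by
      intro i; rw [← h1 i, h2, hq]
    rcases centre_uniqueS W hW.li (φ OV) OW (by rw [hnorm, hOV1]) hOW1 q' q hq0' hq' h3 with h | h
    · exact h
    · exfalso
      have h4 := h3 0
      rw [h, inner_neg_right, hq'] at h4
      linarith
  rw [mS, mS, ← hmp.measure_preimage ((meas_ballS t OW).inter (isClosed_KcS W hW.li).measurableSet).nullMeasurableSet]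
  congr 1
  ext X
  simp only [mem_inter_iff, mem_preimage, mem_ofPred_eq, hK]
  rw [← hO, h2]

/-- strict monotonicity of the measure of cones -/
lemma sph_lt (V V' : Fin (d + 1) → EE (d + 1)) (hli : LinearIndependent ℝ V)
    (hli' : LinearIndependent ℝ V') (hsub : Kc V' ⊆ Kc V) (h0 : V 0 ∉ Kc V') (h1 : ‖V 0‖ = 1) :
    sph d (Kc V') < sph d (Kc V) := by
  have hcard : Fintype.card (Fin (d + 1)) = Module.finrank ℝ (EE (d + 1)) := by simp
  let bs := basisOfLinearIndependentOfCardEqFinrank hli hcard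
  have hbs : ∀ i, bs i = V i := fun i => by simp [bs]
  set U : Set (EE (d + 1)) := (⋂ i, {X | 0 < bs.coord i X}) ∩ (Kc V')ᶜ with hU
  have hUo : IsOpen U := by
    refine IsOpen.inter ?_ (isClosed_KcS V' hli').isOpen_compl
    refine isOpen_iInter_of_finite fun i => ?_
    exact isOpen_lt continuous_const (LinearMap.continuous_of_finiteDimensional (bs.coord i))
  set S : EE (d + 1) := ∑ i, V i with hS
  -- a point of U on the sphere
  have hV0 : V 0 ≠ 0 := by intro h; rw [h] at h1; simp at h1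
  obtain ⟨y, hy, hyU⟩ : ∃ y : EE (d + 1), ‖y‖ = 1 ∧ y ∈ U := by
    let f : ℝ → EE (d + 1) := fun δ => V 0 + δ • S
    have hf : Continuous f := by fun_prop
    have hf0 : f 0 = V 0 := by simp [f]
    have e1 : ∀ᶠ δ : ℝ in 𝓝 0, f δ ∈ (Kc V')ᶜ := by
      refine hf.continuousAt.eventually_mem ((isClosed_KcS V' hli').isOpen_compl.mem_nhds ?_)
      rw [hf0]; exact h0
    have e2 : ∀ᶠ δ : ℝ in 𝓝 0, f δ ∈ ({0}ᶜ : Set (EE (d + 1))) := by
      refine hf.continuousAt.eventually_mem (isOpen_compl_singleton.mem_nhds ?_)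
      rw [hf0]; exact hV0
    obtain ⟨δ, ⟨h3, h4⟩, h5⟩ : ∃ δ : ℝ, (f δ ∈ (Kc V')ᶜ ∧ f δ ∈ ({0}ᶜ : Set (EE (d + 1)))) ∧ 0 < δ :=
      (((e1.and e2).filter_mono nhdsWithin_le_nhds).and (self_mem_nhdsWithin (s := Ioi (0 : ℝ)))).exists
    have h5' : (0 : ℝ) < δ := h5
    have hne : f δ ≠ 0 := h4
    have hnp : 0 < ‖f δ‖ := norm_pos_iff.mpr hne
    refine ⟨(‖f δ‖)⁻¹ • f δ, by rw [norm_smul, norm_inv, norm_norm, inv_mul_cancel₀ hnp.ne'], ?_, ?_⟩
    · rw [mem_iInter]
      intro i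
      have h6 : bs.coord i S = 1 := by
        have : S = ∑ j, (1 : ℝ) • bs j := by simp [hS, hbs]
        rw [this, Module.Basis.coord_apply, Module.Basis.repr_sum_self]
      have h7 : 0 ≤ bs.coord i (V 0) := by
        rw [← hbs 0, Module.Basis.coord_apply, Module.Basis.repr_self]
        by_cases h : (0 : Fin (d + 1)) = i
        · subst h; simp
        · simp [h]
      simp only [mem_ofPred_eq, f, map_smul, map_add, h6, smul_eq_mul]
      have : 0 < (‖V 0 + δ • S‖)⁻¹ := inv_pos.mpr hnp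
      have : 0 < bs.coord i (V 0) + δ * 1 := by linarith
      positivity
    · rintro ⟨a, ha, he⟩
      apply h3
      refine ⟨fun i => ‖f δ‖ * a i, fun i => mul_nonneg hnp.le (ha i), ?_⟩
      simp only [mul_smul, ← Finset.smul_sum, ← he]
      rw [smul_smul, mul_inv_cancel₀ hnp.ne', one_smul]
  have hUsub : U ⊆ Kc V \ Kc V' := by
    rintro X ⟨h3, h4⟩
    refine ⟨?_, h4⟩
    refine ⟨fun i => bs.repr X i, fun i => ?_, ?_⟩
    · have := mem_iInter.mp h3 i
      simp only [mem_ofPred_eq, Module.Basis.coord_apply] at this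
      exact this.le
    · have := bs.sum_repr X
      simp only [hbs] at this
      exact this.symm
  have hVpos : 0 < sph d (Kc V \ Kc V') := (sph_pos U hUo y hy hyU).trans_le (measure_mono hUsub)
  have hsum := measure_sdiff_add_inter (μ := sph d) (Kc V) (isClosed_KcS V' hli').measurableSet
  rw [inter_eq_right.mpr hsub] at hsum
  rw [← hsum, add_comm (sph d (Kc V \ Kc V'))]
  refine ENNReal.lt_add_right ?_ hVpos.ne'
  exact ne_top_of_le_ne_top (sph_Kc_ne_top V hli) (measure_mono hsub)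

/-- the shrunk frame -/
lemma shrinkS (hd : 0 < d) {V : Fin (d + 1) → EE (d + 1)} {s : ℝ} (hV : FrameS V s) (s' : ℝ) (h1 : s < s') (h2 : s' < 1) :
    ∃ V' : Fin (d + 1) → EE (d + 1), FrameS V' s' ∧ Kc V' ⊆ Kc V ∧ V 0 ∉ Kc V' := by
  set S : EE (d + 1) := ∑ i, V i with hS
  set p : ℝ := 1 + d * s with hp
  have hp0 : 0 < p := hV.pos
  have hVS : ∀ i, inner ℝ (V i) S = p := hV.inner_sum
  have hSS : inner ℝ S S = (d + 1) * p := hV.sum_sum
  set x : ℝ := (s' - s) / (1 - s') with hx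
  have hx0 : 0 < x := div_pos (by linarith) (by linarith)
  -- choice of the parameter
  obtain ⟨t, ht, hte⟩ : ∃ t ∈ Icc (0 : ℝ) (x / (2 * p)), 2 * t * p + t ^ 2 * ((d + 1) * p) = x := by
    have hcont : ContinuousOn (fun t : ℝ => 2 * t * p + t ^ 2 * ((d + 1) * p)) (Icc 0 (x / (2 * p))) := by fun_prop
    have := intermediate_value_Icc (by positivity) hcont
    have hmem : x ∈ Icc ((fun t : ℝ => 2 * t * p + t ^ 2 * ((d + 1) * p)) 0) ((fun t : ℝ => 2 * t * p + t ^ 2 * ((d + 1) * p)) (x / (2 * p))) := by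
      constructor
      · simpa using hx0.le
      · have e : 2 * (x / (2 * p)) * p = x := by field_simp
        simp only [e]
        have : 0 ≤ (x / (2 * p)) ^ 2 * (((d : ℝ) + 1) * p) := by positivity
        linarith
    obtain ⟨t, h3, h4⟩ := this hmem
    exact ⟨t, h3, h4⟩
  have ht0 : 0 < t := by
    rcases ht.1.lt_or_eq with h | h
    · exact h
    · rw [← h] at hte; simp at hte; linarith
  have hUU : ∀ i j, inner ℝ (V i + t • S) (V j + t • S) = inner ℝ (V i) (V j) + x := by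
    intro i j
    rw [inner_add_left, inner_add_right, inner_add_right, real_inner_smul_left, real_inner_smul_left,
      real_inner_smul_right, real_inner_smul_right, hVS, real_inner_comm (V j) S, hVS, hSS, ← hte]
    ring
  set ρ : ℝ := Real.sqrt (1 + x) with hρ
  have hρ0 : 0 < ρ := Real.sqrt_pos.mpr (by linarith)
  have hρ2 : ρ * ρ = 1 + x := Real.mul_self_sqrt (by linarith)
  have hinv : ρ⁻¹ * (ρ⁻¹ * (1 + x)) = 1 := by rw [← hρ2]; field_simp
  have hsc : ∀ i j, inner ℝ (ρ⁻¹ • (V i + t • S)) (ρ⁻¹ • (V j + t • S)) = ρ⁻¹ * (ρ⁻¹ * (inner ℝ (V i) (V j) + x)) := by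
    intro i j; rw [real_inner_smul_left, real_inner_smul_right, hUU]
  -- linear independence
  have hli' : LinearIndependent ℝ (fun i => ρ⁻¹ • (V i + t • S)) := by
    rw [Fintype.linearIndependent_iff]
    intro g hg
    have h3 : ∑ i, (ρ⁻¹ * g i + ρ⁻¹ * t * ∑ j, g j) • V i = 0 := by
      rw [← hg]
      simp only [add_smul, Finset.sum_add_distrib, smul_add, smul_smul]
      congr 1
      · exact Finset.sum_congr rfl fun i _ => by ring_nf
      · rw [← Finset.smul_sum, ← hS, ← Finset.sum_smul, ← Finset.sum_mul]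
        congr 1; ring
    have h4 := Fintype.linearIndependent_iff.mp hV.li _ h3
    have h5 : ∀ i, g i = -(t * ∑ j, g j) := by
      intro i
      have h6 := h4 i
      have h7 : ρ⁻¹ * (g i + t * ∑ j, g j) = 0 := by linarith
      have := (mul_eq_zero.mp h7).resolve_left (inv_ne_zero hρ0.ne')
      linarith
    have h6 : ∑ j, g j = 0 := by
      have h7 : ∑ j, g j = (d + 1) * -(t * ∑ j, g j) := by
        conv_lhs => rw [Finset.sum_congr rfl fun i _ => h5 i]
        simp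
      have h8 : (1 + (d + 1) * t) * ∑ j, g j = 0 := by linarith
      have h9 : (1 + ((d : ℝ) + 1) * t) ≠ 0 := by positivity
      exact (mul_eq_zero.mp h8).resolve_left h9
    intro i
    rw [h5, h6]; simp
  refine ⟨fun i => ρ⁻¹ • (V i + t • S), ⟨?_, ?_, hli'⟩, ?_, ?_⟩
  · intro i
    rw [hsc, hV.nrm, hinv]
  · intro i j hij
    rw [hsc, hV.off i j hij]
    have h3 : s' * (1 + x) = s + x := by
      rw [hx]
      have : 1 - s' ≠ 0 := by linarith
      field_simp; ring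
    have h4 : ρ⁻¹ * (ρ⁻¹ * (s + x)) = s' * (ρ⁻¹ * (ρ⁻¹ * (1 + x))) := by
      rw [← h3]; ring
    rw [h4, hinv, mul_one]
  · rintro X ⟨a, ha, he⟩
    refine ⟨fun i => ρ⁻¹ * a i + ρ⁻¹ * t * ∑ j, a j, fun i => ?_, ?_⟩
    · have h3 := ha i
      have h4 : 0 ≤ ∑ j, a j := Finset.sum_nonneg fun j _ => ha j
      positivity
    · rw [he]
      simp only [add_smul, Finset.sum_add_distrib, smul_add, smul_smul]
      congr 1
      · exact Finset.sum_congr rfl fun i _ => by ring_nf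
      · rw [← Finset.smul_sum, ← hS, ← Finset.sum_smul, ← Finset.sum_mul]
        congr 1; ring
  · rintro ⟨a, ha, he⟩
    have h3 : ∑ i, ((if i = 0 then (1 : ℝ) else 0) - (ρ⁻¹ * a i + ρ⁻¹ * t * ∑ j, a j)) • V i = 0 := by
      have h4 : ∑ i, (ρ⁻¹ * a i + ρ⁻¹ * t * ∑ j, a j) • V i = V 0 := by
        conv_rhs => rw [he]
        simp only [add_smul, Finset.sum_add_distrib, smul_add, smul_smul]
        congr 1
        · exact Finset.sum_congr rfl fun i _ => by ring_nf
        · rw [← Finset.smul_sum, ← hS, ← Finset.sum_smul, ← Finset.sum_mul]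
          congr 1; ring
      simp only [sub_smul, Finset.sum_sub_distrib, h4]
      simp
    have h4 := Fintype.linearIndependent_iff.mp hV.li _ h3
    have h5 := h4 ⟨1, by omega⟩
    have h6 : ((⟨1, by omega⟩ : Fin (d + 1)) = 0) = False := by
      simp [Fin.ext_iff]
    simp only [h6, if_false] at h5
    have h7 : 0 ≤ ∑ j, a j := Finset.sum_nonneg fun j _ => ha j
    have h8 : 0 ≤ ρ⁻¹ * a ⟨1, by omega⟩ := mul_nonneg (inv_nonneg.mpr hρ0.le) (ha _)
    have h9 : 0 ≤ ρ⁻¹ * t * ∑ j, a j := by positivity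
    have h10 : ρ⁻¹ * t * ∑ j, a j = 0 := by linarith
    have h11 : ∑ j, a j = 0 := (mul_eq_zero.mp h10).resolve_left (by positivity)
    have h12 : ∀ j, a j = 0 := by
      intro j
      exact (Finset.sum_eq_zero_iff_of_nonneg fun j _ => ha j).mp h11 j (Finset.mem_univ j)
    have h13 := h4 0
    simp only [if_true, h12] at h13
    norm_num at h13

/-- the volume determines the edge length -/
lemma frameS_eq (hd : 0 < d) {V W : Fin (d + 1) → EE (d + 1)} {s s' : ℝ} (hV : FrameS V s) (hW : FrameS W s')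
    (h : sph d (Kc V) = sph d (Kc W)) : s = s' := by
  have nrm1 : ∀ {V : Fin (d + 1) → EE (d + 1)} {s : ℝ}, FrameS V s → ‖V 0‖ = 1 := by
    intro V s hV
    have := hV.nrm 0
    rw [real_inner_self_eq_norm_sq] at this
    have h2 := norm_nonneg (V 0)
    nlinarith
  rcases lt_trichotomy s s' with hlt | heq | hlt
  · obtain ⟨V', hV', hsub, h0⟩ := shrinkS hd hV s' hlt (hW.lt_one hd)
    have h1 := sph_lt V V' hV.li hV'.li hsub h0 (nrm1 hV)
    rw [frameS_nu hV' hW, h] at h1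
    exact absurd h1 (lt_irrefl _)
  · exact heq
  · obtain ⟨W', hW', hsub, h0⟩ := shrinkS hd hW s hlt (hV.lt_one hd)
    have h1 := sph_lt W W' hW.li hW'.li hsub h0 (nrm1 hW)
    rw [frameS_nu hW' hV, h] at h1
    exact absurd h1 (lt_irrefl _)

/-- **Spherical part of Q1 for regular simplices.** -/
theorem regS_main (hd : 0 < d) (e : EE (d + 1)) (t : ℝ) (v w : Fin (d + 1) → EE (d + 1)) (he : ‖e‖ = 1)
    (hv : ∀ i, ‖v i‖ = 1) (hw : ∀ i, ‖w i‖ = 1) (hvl : LinearIndependent ℝ v) (hwl : LinearIndependent ℝ w)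
    (hvr : ∃ s : ℝ, ∀ i j, i ≠ j → inner ℝ (v i) (v j) = s) (hwr : ∃ s : ℝ, ∀ i j, i ≠ j → inner ℝ (w i) (w j) = s)
    (hcen : ∃ q : ℝ, 0 < q ∧ ∀ i, inner ℝ (w i) e = q) (hvol : sph d (Kc w) = sph d (Kc v)) :
    mS v t e ≤ mS w t e := by
  obtain ⟨s, hs⟩ := hvr
  obtain ⟨s', hs'⟩ := hwr
  obtain ⟨q, hq0, hq⟩ := hcen
  have hV : FrameS v s := ⟨fun i => by rw [real_inner_self_eq_norm_sq, hv]; norm_num, hs, hvl⟩
  have hW : FrameS w s' := ⟨fun i => by rw [real_inner_self_eq_norm_sq, hw]; norm_num, hs', hwl⟩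
  have hss : s = s' := frameS_eq hd hV hW hvol.symm
  subst hss
  have hp := hV.pos
  have hSn : 0 < ‖∑ j, v j‖ := norm_pos_iff.mpr hV.sum_ne
  have hO1 : ‖(‖∑ j, v j‖)⁻¹ • ∑ j, v j‖ = 1 := by
    rw [norm_smul, norm_inv, norm_norm, inv_mul_cancel₀ hSn.ne']
  have hOq : ∀ i, inner ℝ (v i) ((‖∑ j, v j‖)⁻¹ • ∑ j, v j) = (‖∑ j, v j‖)⁻¹ * (1 + d * s) := by
    intro i; rw [real_inner_smul_right, hV.inner_sum]
  have hq' : 0 < (‖∑ j, v j‖)⁻¹ * (1 + d * s) := by positivity
  have h1 := regS_centre hd v s hV _ hO1 _ hq' hOq e he t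
  have h2 := frameS_mB hV hW t _ e hO1 he _ q hq' hq0 hOq hq
  rw [← h2]
  exact h1

end BallSimp
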