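import Pool.Agent.BallSimp.Refl
import Pool.Agent.BallSimp.RegH
import Pool.Agent.BallSimp.Usc

set_option autoImplicit false

open MeasureTheory Set Filter Topology

namespace BallSimp

variable {d : ℕ}

/-- the surface measure of the unit sphere of `ℝ^{d+1}` -/
noncomputable def sph (d : ℕ) : Measure (EE (d + 1)) :=
  (Measure.hausdorffMeasure (d : ℝ) : Measure (EE (d + 1))).restrict (Metric.sphere 0 1)

/-- the inner product as a bilinear form -/
noncomputable def ib (d : ℕ) : LinearMap.BilinForm ℝ (EE (d + 1)) := innerₗ (EE (d + 1))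

lemma ib_apply (x y : EE (d + 1)) : ib d x y = inner ℝ x y := rfl

lemma ib_symm (x y : EE (d + 1)) : ib d x y = ib d y x := by rw [ib_apply, ib_apply, real_inner_comm]

lemma meas_sphere : MeasurableSet (Metric.sphere (0 : EE (d + 1)) 1) := Metric.isClosed_sphere.measurableSet

/-- linear isometries preserve the surface measure -/
lemma sph_iso (φ : EE (d + 1) →ₗ[ℝ] EE (d + 1)) (hφ : ∀ x, ‖φ x‖ = ‖x‖) : MeasurePreserving φ (sph d) (sph d) := by
  let li : EE (d + 1) →ₗᵢ[ℝ] EE (d + 1) := ⟨φ, hφ⟩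
  let e : EE (d + 1) ≃ₗᵢ[ℝ] EE (d + 1) := li.toLinearIsometryEquiv rfl
  have he : ∀ x, e x = φ x := fun x => rfl
  have h1 := (e.toIsometryEquiv.measurePreserving_hausdorffMeasure (d : ℝ)).restrict_preimage meas_sphere
  have e1 : e.toIsometryEquiv ⁻¹' (Metric.sphere (0 : EE (d + 1)) 1) = Metric.sphere 0 1 := by
    ext x
    simp only [mem_preimage, mem_sphere_zero_iff_norm]
    have : e.toIsometryEquiv x = φ x := rfl
    rw [this, hφ]
  rw [e1] at h1
  exact h1

/-- finiteness -/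
lemma sph_Kc_ne_top (V : Fin (d + 1) → EE (d + 1)) (hli : LinearIndependent ℝ V) : sph d (Kc V) ≠ ⊤ := by
  have hne : ∀ x ∈ Std d, bmap V x ≠ 0 := by
    intro x hx h0
    have h1 := Fintype.linearIndependent_iff.mp hli (lam x) h0
    have h2 := sum_lam x
    rw [Finset.sum_congr rfl fun i _ => h1 i] at h2
    simp at h2
  have hcont : Continuous (bmap V : (Fin d → ℝ) → EE (d + 1)) := by
    have : bmap V = fun x => V 0 + ∑ i, x i • (V i.succ - V 0) := by
      funext x; exact bmap_eq V x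
    rw [this]; fun_prop
  -- lower bound of the norm
  obtain ⟨x0, hx0, hmin⟩ := (isCompact_Std d).exists_isMinOn
    ⟨0, ⟨fun _ => le_rfl, by simp⟩⟩ (f := fun x => ‖bmap V x‖) hcont.norm.continuousOn
  set m : ℝ := ‖bmap V x0‖ with hm
  have hm0 : 0 < m := norm_pos_iff.mpr (hne x0 hx0)
  have hmle : ∀ x ∈ Std d, m ≤ ‖bmap V x‖ := fun x hx => hmin hx
  -- the affine part is Lipschitz
  obtain ⟨L, hL⟩ : ∃ L : NNReal, LipschitzWith L (bmap V : (Fin d → ℝ) → EE (d + 1)) := by
    let A : (Fin d → ℝ) →L[ℝ] EE (d + 1) := ∑ i, (ContinuousLinearMap.proj (R := ℝ) (φ := fun _ : Fin d => ℝ) i).smulRight (V i.succ - V 0)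
    have hA : ∀ x, A x = ∑ i, x i • (V i.succ - V 0) := by
      intro x; simp [A]
    refine ⟨‖A‖₊, ?_⟩
    have := A.lipschitz
    refine LipschitzWith.of_dist_le_mul fun x y => ?_
    have h1 := this.dist_le_mul x y
    rw [hA, hA] at h1
    rw [bmap_eq, bmap_eq, dist_add_left]
    exact h1
  have hLip : LipschitzOnWith (Real.toNNReal (2 / m) * L) (fun x => (‖bmap V x‖)⁻¹ • bmap V x) (Std d) := by
    refine LipschitzOnWith.of_dist_le_mul fun x hx y hy => ?_
    have h1 := hL.dist_le_mul x y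
    have h2 := hmle x hx
    have h3 := hmle y hy
    set a := bmap V x
    set b := bmap V y
    have ha : 0 < ‖a‖ := hm0.trans_le h2
    have hb : 0 < ‖b‖ := hm0.trans_le h3
    have h4 : ‖(‖a‖)⁻¹ • a - (‖b‖)⁻¹ • b‖ ≤ (2 / m) * ‖a - b‖ := by
      have e1 : (‖a‖)⁻¹ • a - (‖b‖)⁻¹ • b = (‖a‖)⁻¹ • (a - b) + ((‖a‖)⁻¹ - (‖b‖)⁻¹) • b := by
        module
      have e2 : ‖((‖a‖)⁻¹ - (‖b‖)⁻¹) • b‖ ≤ (‖a‖)⁻¹ * ‖a - b‖ := by
        rw [norm_smul, Real.norm_eq_abs]
        have : (‖a‖)⁻¹ - (‖b‖)⁻¹ = (‖a‖)⁻¹ * (‖b‖ - ‖a‖) * (‖b‖)⁻¹ := by field_simp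
        rw [this, abs_mul, abs_mul, abs_of_pos (inv_pos.mpr ha), abs_of_pos (inv_pos.mpr hb), mul_assoc,
          inv_mul_cancel₀ hb.ne', mul_one]
        have h5 := abs_norm_sub_norm_le b a
        rw [norm_sub_rev] at h5
        exact mul_le_mul_of_nonneg_left h5 (inv_nonneg.mpr ha.le)
      have e3 : ‖(‖a‖)⁻¹ • (a - b)‖ = (‖a‖)⁻¹ * ‖a - b‖ := by
        rw [norm_smul, norm_inv, norm_norm]
      have e4 : (‖a‖)⁻¹ ≤ m⁻¹ := by
        apply inv_anti₀ hm0 h2
      calc _ ≤ ‖(‖a‖)⁻¹ • (a - b)‖ + ‖((‖a‖)⁻¹ - (‖b‖)⁻¹) • b‖ := by rw [e1]; exact norm_add_le _ _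
        _ ≤ (‖a‖)⁻¹ * ‖a - b‖ + (‖a‖)⁻¹ * ‖a - b‖ := by rw [e3]; gcongr
        _ ≤ m⁻¹ * ‖a - b‖ + m⁻¹ * ‖a - b‖ := by gcongr
        _ = (2 / m) * ‖a - b‖ := by ring
    rw [dist_eq_norm]
    refine h4.trans ?_
    rw [dist_eq_norm] at h1
    have h5 : (2 / m) * ‖a - b‖ ≤ (2 / m) * (L * dist x y) := by gcongr
    refine h5.trans (le_of_eq ?_)
    rw [NNReal.coe_mul, Real.coe_toNNReal _ (by positivity), mul_assoc]
  have h1 := hLip.hausdorffMeasure_image_le (d := (d : ℝ)) (by positivity)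
  have h2 : (Measure.hausdorffMeasure (d : ℝ) : Measure (Fin d → ℝ)) (Std d) < ⊤ := by
    have e : (Measure.hausdorffMeasure (d : ℝ) : Measure (Fin d → ℝ)) = volume := by
      have := hausdorffMeasure_pi_real (ι := Fin d)
      rwa [Fintype.card_fin] at this
    rw [e]; exact vol_Std_lt d
  have h3 : Kc V ∩ Metric.sphere 0 1 ⊆ (fun x => (‖bmap V x‖)⁻¹ • bmap V x) '' Std d := by
    rintro y ⟨⟨a, ha, he⟩, hy⟩
    rw [mem_sphere_zero_iff_norm] at hy
    have hs : 0 < ∑ i, a i := by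
      by_contra h
      push Not at h
      have h4 : ∑ i, a i = 0 := le_antisymm h (Finset.sum_nonneg fun i _ => ha i)
      have h5 := (Finset.sum_eq_zero_iff_of_nonneg fun i _ => ha i).mp h4
      rw [he, Finset.sum_eq_zero fun i hi => by rw [h5 i hi, zero_smul]] at hy
      simp at hy
    set s := ∑ i, a i with hs'
    have hlam : lam (fun i : Fin d => s⁻¹ * a i.succ) = fun i => s⁻¹ * a i := by
      funext i
      refine Fin.cases ?_ (fun j => rfl) i
      rw [lam_zero, ← Finset.mul_sum]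
      have : s = a 0 + ∑ i : Fin d, a i.succ := by rw [hs', Fin.sum_univ_succ]
      have h6 : ∑ i : Fin d, a i.succ = s - a 0 := by linarith
      rw [h6]; field_simp; ring
    refine ⟨fun i => s⁻¹ * a i.succ, ⟨fun i => mul_nonneg (inv_nonneg.mpr hs.le) (ha _), ?_⟩, ?_⟩
    · rw [← Finset.mul_sum]
      have : s = a 0 + ∑ i : Fin d, a i.succ := by rw [hs', Fin.sum_univ_succ]
      have h6 : ∑ i : Fin d, a i.succ ≤ s := by linarith [ha 0]
      rw [inv_mul_le_iff₀ hs]; linarith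
    · have h7 : bmap V (fun i : Fin d => s⁻¹ * a i.succ) = s⁻¹ • y := by
        rw [bmap, hlam, he, Finset.smul_sum]
        simp only [mul_smul]
      beta_reduce
      rw [h7, norm_smul, hy, mul_one, norm_inv, Real.norm_eq_abs, abs_of_pos hs, inv_inv, smul_smul,
        mul_inv_cancel₀ hs.ne', one_smul]
  have hcl : MeasurableSet (Kc V) := (isClosed_Kc V hli (by simp)).measurableSet
  rw [sph, Measure.restrict_apply hcl]
  refine ne_top_of_le_ne_top ?_ (measure_mono h3)
  refine ne_top_of_le_ne_top ?_ h1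
  exact ENNReal.mul_ne_top (ENNReal.rpow_ne_top_of_nonneg (by positivity) ENNReal.coe_ne_top) h2.ne

/-- relatively open subsets of the sphere have positive measure -/
lemma sph_pos (U : Set (EE (d + 1))) (hU : IsOpen U) (x0 : EE (d + 1)) (h0 : ‖x0‖ = 1) (hx0 : x0 ∈ U) :
    0 < sph d U := by
  rw [sph, Measure.restrict_apply hU.measurableSet]
  set K : Submodule ℝ (EE (d + 1)) := (ℝ ∙ x0)ᗮ with hK
  have hx0' : x0 ≠ 0 := by intro h; rw [h] at h0; simp at h0
  have hfr : Module.finrank ℝ K = d := by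
    have : Fact (Module.finrank ℝ (EE (d + 1)) = d + 1) := ⟨by simp⟩
    exact Submodule.finrank_orthogonal_span_singleton hx0'
  set T : Set K := {y : K | ‖y‖ < 1} ∩ {y : K | (y : EE (d + 1)) + Real.sqrt (1 - ‖y‖ ^ 2) • x0 ∈ U} with hT
  have hTo : IsOpen T := by
    refine (isOpen_lt continuous_norm continuous_const).inter ?_
    have : Continuous fun y : K => (y : EE (d + 1)) + Real.sqrt (1 - ‖y‖ ^ 2) • x0 := by fun_prop
    exact hU.preimage this
  have hTn : T.Nonempty := ⟨0, by simp, by simpa using hx0⟩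
  have hTpos : 0 < (Measure.hausdorffMeasure (d : ℝ) : Measure K) T := by
    have : (Measure.hausdorffMeasure (Module.finrank ℝ K : ℝ) : Measure K).IsAddHaarMeasure := inferInstance
    rw [hfr] at this
    exact hTo.measure_pos _ hTn
  have hsub : T ⊆ K.orthogonalProjectionOnto '' (U ∩ Metric.sphere 0 1) := by
    rintro y ⟨hy1, hy2⟩
    have hy1' : ‖y‖ < 1 := hy1
    refine ⟨(y : EE (d + 1)) + Real.sqrt (1 - ‖y‖ ^ 2) • x0, ⟨hy2, ?_⟩, ?_⟩
    · rw [mem_sphere_zero_iff_norm]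
      have hor : inner ℝ (y : EE (d + 1)) x0 = 0 := by
        exact Submodule.mem_orthogonal_singleton_iff_inner_left.mp y.2
      have h1 : ‖(y : EE (d + 1)) + Real.sqrt (1 - ‖y‖ ^ 2) • x0‖ ^ 2 = 1 := by
        rw [norm_add_sq_real, inner_smul_right, hor, norm_smul, h0, mul_one, Real.norm_eq_abs, sq_abs,
          Real.sq_sqrt (by nlinarith [norm_nonneg y])]
        have : ‖(y : EE (d + 1))‖ = ‖y‖ := rfl
        rw [this]; ring
      have h2 := norm_nonneg ((y : EE (d + 1)) + Real.sqrt (1 - ‖y‖ ^ 2) • x0)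
      nlinarith
    · rw [map_add, map_smul]
      have h1 : K.orthogonalProjectionOnto x0 = 0 :=
        Submodule.orthogonalProjectionOnto_orthogonalComplement_singleton_eq_zero x0
      rw [h1, smul_zero, add_zero]
      exact Submodule.orthogonalProjectionOnto_mem_subspace_eq_self y
  have hLip : LipschitzWith 1 (K.orthogonalProjectionOnto : EE (d + 1) → K) := by
    refine LipschitzWith.of_dist_le_mul fun x y => ?_
    rw [NNReal.coe_one, one_mul, dist_eq_norm, dist_eq_norm, ← map_sub]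
    have h1 := K.orthogonalProjectionOnto.le_opNorm (x - y)
    have h2 := K.orthogonalProjectionOnto_norm_le
    have h3 := norm_nonneg (x - y)
    nlinarith
  have h1 := hLip.hausdorffMeasure_image_le (d := (d : ℝ)) (by positivity) (U ∩ Metric.sphere 0 1)
  simp only [ENNReal.coe_one, ENNReal.one_rpow, one_mul] at h1
  exact (hTpos.trans_le (measure_mono hsub)).trans_le h1

end BallSimp
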