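import Pool.Agent.BallSimp.HypMain

set_option autoImplicit false

open MeasureTheory Set Filter Topology

namespace BallSimp

/-- density of the spherical volume in the gnomonic model -/
noncomputable def dn (d : ℕ) (q : ℝ) : ℝ := (1 + q) ^ (-((d : ℝ) + 1) / 2)

/-- the spherical volume in the gnomonic model -/
noncomputable def muS (d : ℕ) : Measure (EE d) := volume.withDensity (fun x => ENNReal.ofReal (dn d (‖x‖ ^ 2)))

lemma dexp_neg (d : ℕ) : -((d : ℝ) + 1) / 2 < 0 := by
  have : (0 : ℝ) ≤ d := by positivity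
  linarith

lemma dn_pos (d : ℕ) {q : ℝ} (h : 0 ≤ q) : 0 < dn d q := Real.rpow_pos_of_pos (by linarith) _

lemma dn_anti (d : ℕ) {q q' : ℝ} (h : 0 ≤ q) (h' : q ≤ q') : dn d q' ≤ dn d q :=
  Real.rpow_le_rpow_of_nonpos (by linarith) (by linarith) (dexp_neg d).le

lemma dn_le_one (d : ℕ) {q : ℝ} (h : 0 ≤ q) : dn d q ≤ 1 :=
  Real.rpow_le_one_of_one_le_of_nonpos (by linarith) (dexp_neg d).le

lemma meas_dn' (d : ℕ) : Measurable fun y : EE d => dn d (‖y‖ ^ 2) := by
  unfold dn
  exact Measurable.pow_const (by fun_prop) _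

lemma meas_dn (d : ℕ) : Measurable fun y : EE d => ENNReal.ofReal (dn d (‖y‖ ^ 2)) :=
  (meas_dn' d).ennreal_ofReal

lemma muS_apply {d : ℕ} {A : Set (EE d)} (hA : MeasurableSet A) :
    muS d A = ∫⁻ x in A, ENNReal.ofReal (dn d (‖x‖ ^ 2)) := withDensity_apply _ hA

lemma muS_le {d : ℕ} {A : Set (EE d)} (hA : MeasurableSet A) (b : ℝ) (h : ∀ x ∈ A, dn d (‖x‖ ^ 2) ≤ b) :
    muS d A ≤ ENNReal.ofReal b * volume A := by
  rw [muS_apply hA, ← setLIntegral_const]
  apply setLIntegral_mono_ae' hA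
  exact Eventually.of_forall fun x hx => ENNReal.ofReal_le_ofReal (h x hx)

lemma le_muS {d : ℕ} {A : Set (EE d)} (hA : MeasurableSet A) (b : ℝ) (h : ∀ x ∈ A, b ≤ dn d (‖x‖ ^ 2)) :
    ENNReal.ofReal b * volume A ≤ muS d A := by
  rw [muS_apply hA, ← setLIntegral_const]
  apply setLIntegral_mono_ae' hA
  exact Eventually.of_forall fun x hx => ENNReal.ofReal_le_ofReal (h x hx)

/-- a superlevel set of the density, cut with a ball, is a ball -/
lemma level_ball (d : ℕ) (t : ℝ) (ht : 0 < t) (r : ℝ) :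
    ∃ r' : ℝ, {x : EE d | t ≤ dn d (‖x‖ ^ 2)} ∩ Metric.closedBall 0 r = Metric.closedBall 0 r' := by
  set z : ℝ := -((d : ℝ) + 1) / 2 with hz
  have hz0 : z < 0 := dexp_neg d
  have h1 : ∀ x : EE d, t ≤ dn d (‖x‖ ^ 2) ↔ ‖x‖ ^ 2 ≤ t ^ z⁻¹ - 1 := by
    intro x
    have : (0 : ℝ) < 1 + ‖x‖ ^ 2 := by positivity
    unfold dn
    rw [← hz, ← Real.le_rpow_inv_iff_of_neg this ht hz0]
    constructor <;> intro h <;> linarith
  by_cases h2 : 0 ≤ t ^ z⁻¹ - 1
  · refine ⟨min (Real.sqrt (t ^ z⁻¹ - 1)) r, ?_⟩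
    ext x
    simp only [mem_inter_iff, mem_ofPred_eq, mem_closedBall_zero_iff, le_min_iff, h1]
    rw [Real.le_sqrt (norm_nonneg x) h2]
  · refine ⟨-1, ?_⟩
    ext x
    simp only [mem_inter_iff, mem_ofPred_eq, mem_closedBall_zero_iff, h1]
    constructor
    · rintro ⟨h3, -⟩
      exfalso
      have : 0 ≤ ‖x‖ ^ 2 := by positivity
      exact h2 (this.trans h3)
    · intro h3
      have := norm_nonneg x
      linarith

lemma eucl_vol {d : ℕ} (r : ℝ) (v u : Fin (d + 1) → EE d) (α : ℝ) (hv : (mt v).det ≠ 0) (hu : Reg u α)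
    (hdet : |(mt u).det| = |(mt v).det|) :
    volume (Metric.closedBall 0 r ∩ convexHull ℝ (Set.range v)) ≤
      volume (Metric.closedBall 0 r ∩ convexHull ℝ (Set.range u)) := by
  have hne : (mt u).det ≠ 0 := by
    rw [← abs_ne_zero, hdet]; exact abs_ne_zero.mpr hv
  have h1 := eucl r v u α hv hu hdet
  have hb : ∀ u : Fin (d + 1) → EE d, {x ∈ Std d | bmap u x ∈ Metric.closedBall 0 r} = {x ∈ Std d | ‖bmap u x‖ ≤ r} := by
    intro u; ext x; simp
  rw [vol_hull_inter v hv _ Metric.isClosed_closedBall.measurableSet, hb,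
    vol_hull_inter u hne _ Metric.isClosed_closedBall.measurableSet, hb, hdet]
  exact mul_le_mul_right h1 _

/-- layer cake: the spherical volumes, if the Euclidean volumes agree -/
lemma eucl_muS {d : ℕ} (r : ℝ) (v u : Fin (d + 1) → EE d) (α : ℝ) (hv : (mt v).det ≠ 0) (hu : Reg u α)
    (hdet : |(mt u).det| = |(mt v).det|) :
    muS d (Metric.closedBall 0 r ∩ convexHull ℝ (Set.range v)) ≤
      muS d (Metric.closedBall 0 r ∩ convexHull ℝ (Set.range u)) := by
  have hm : ∀ u : Fin (d + 1) → EE d, MeasurableSet (Metric.closedBall 0 r ∩ convexHull ℝ (Set.range u)) := fun u =>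
    Metric.isClosed_closedBall.measurableSet.inter (isClosed_hull u).measurableSet
  have key : ∀ u : Fin (d + 1) → EE d, muS d (Metric.closedBall 0 r ∩ convexHull ℝ (Set.range u)) =
      ∫⁻ t in Ioi (0 : ℝ), volume ({x : EE d | t ≤ dn d (‖x‖ ^ 2)} ∩ (Metric.closedBall 0 r ∩ convexHull ℝ (Set.range u))) := by
    intro u
    rw [muS_apply (hm u), lintegral_eq_lintegral_meas_le]
    · apply setLIntegral_congr_fun measurableSet_Ioi
      intro t _
      beta_reduce
      rw [Measure.restrict_apply (measurableSet_le measurable_const (meas_dn' d))]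
    · exact Eventually.of_forall fun x => (dn_pos d (by positivity)).le
    · exact (meas_dn' d).aemeasurable
  rw [key v, key u]
  apply setLIntegral_mono_ae' measurableSet_Ioi
  refine Eventually.of_forall fun t ht => ?_
  obtain ⟨r', hr'⟩ := level_ball d t ht r
  rw [← inter_assoc, ← inter_assoc, hr']
  exact eucl_vol r' v u α hv hu hdet

lemma exists_ball {d : ℕ} (u : Fin (d + 1) → EE d) : ∃ r : ℝ, convexHull ℝ (Set.range u) ⊆ Metric.closedBall 0 r :=
  ((Set.Finite.isCompact_convexHull (𝕜 := ℝ) (Set.finite_range u)).isBounded).subset_closedBall 0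

lemma eucl_muS' {d : ℕ} (v u : Fin (d + 1) → EE d) (α : ℝ) (hv : (mt v).det ≠ 0) (hu : Reg u α)
    (hdet : |(mt u).det| = |(mt v).det|) :
    muS d (convexHull ℝ (Set.range v)) ≤ muS d (convexHull ℝ (Set.range u)) := by
  obtain ⟨r1, h1⟩ := exists_ball v
  obtain ⟨r2, h2⟩ := exists_ball u
  have h := eucl_muS (max r1 r2) v u α hv hu hdet
  rw [inter_eq_right.mpr (h1.trans (Metric.closedBall_subset_closedBall (le_max_left _ _))),
    inter_eq_right.mpr (h2.trans (Metric.closedBall_subset_closedBall (le_max_right _ _)))] at h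
  exact h

lemma vol_hull_lt {d : ℕ} (u : Fin (d + 1) → EE d) : volume (convexHull ℝ (Set.range u)) < ⊤ :=
  (Set.Finite.isCompact_convexHull (𝕜 := ℝ) (Set.finite_range u)).measure_lt_top

lemma muS_lt {d : ℕ} (u : Fin (d + 1) → EE d) : muS d (convexHull ℝ (Set.range u)) < ⊤ := by
  refine lt_of_le_of_lt (muS_le (isClosed_hull u).measurableSet 1 fun x _ => dn_le_one d (by positivity)) ?_
  exact ENNReal.mul_lt_top ENNReal.ofReal_lt_top (vol_hull_lt u)

/-- scaling a regular simplex to a prescribed Euclidean volume -/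
lemma exists_scale {d : ℕ} (hd : 0 < d) (v w : Fin (d + 1) → EE d) (hv : (mt v).det ≠ 0) (hw : (mt w).det ≠ 0) :
    ∃ κ : ℝ, 0 < κ ∧ κ ^ d = |(mt v).det| / |(mt w).det| ∧ |(mt (fun i => κ • w i)).det| = |(mt v).det| := by
  have hwp : 0 < |(mt w).det| := abs_pos.mpr hw
  have hvp : 0 < |(mt v).det| := abs_pos.mpr hv
  set κ : ℝ := (|(mt v).det| / |(mt w).det|) ^ (1 / (d : ℝ)) with hκ
  have hκ0 : 0 < κ := by positivity
  have hκd : κ ^ d = |(mt v).det| / |(mt w).det| := by
    rw [hκ, one_div]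
    exact Real.rpow_inv_natCast_pow (by positivity) (by omega)
  refine ⟨κ, hκ0, hκd, ?_⟩
  rw [mt_smul, Matrix.det_smul, Fintype.card_fin, abs_mul, abs_pow, abs_of_nonneg hκ0.le, hκd, div_mul_cancel₀ _ hwp.ne']

/-- the Euclidean volume of the regular simplex of the same spherical volume is at most the one of the simplex -/
lemma det_le {d : ℕ} (hd : 0 < d) (v w : Fin (d + 1) → EE d) (α : ℝ) (hv : (mt v).det ≠ 0) (hw' : (mt w).det ≠ 0)
    (hw : Reg w α) (hvol : muS d (convexHull ℝ (Set.range w)) = muS d (convexHull ℝ (Set.range v))) :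
    |(mt w).det| ≤ |(mt v).det| := by
  by_contra hlt
  push Not at hlt
  have hwp : 0 < |(mt w).det| := abs_pos.mpr hw'
  have hvp : 0 < |(mt v).det| := abs_pos.mpr hv
  obtain ⟨κ, hκ0, hκd, hdet⟩ := exists_scale hd v w hv hw'
  have hκ1 : κ ≤ 1 := by
    have h1 : κ ^ d ≤ 1 := by rw [hκd]; exact (div_le_one hwp).mpr hlt.le
    exact (pow_le_one_iff_of_nonneg hκ0.le (by omega)).mp h1
  have hne : (mt (fun i => κ • w i)).det ≠ 0 := by
    rw [← abs_ne_zero, hdet]; exact hvp.ne'
  have h1 := eucl_muS' v _ _ hv (hw.smul κ) hdet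
  have hsub := hull_smul hw κ hκ0.le hκ1
  set U := convexHull ℝ (Set.range fun i => κ • w i) with hU
  set W := convexHull ℝ (Set.range w) with hW
  have mU : MeasurableSet U := (isClosed_hull _).measurableSet
  have mW : MeasurableSet W := (isClosed_hull _).measurableSet
  have h2 : volume U < volume W := by
    rw [hU, hW, vol_hull _ hne, vol_hull _ hw', hdet]
    exact ENNReal.mul_lt_mul_left (vol_Std_pos d).ne' (vol_Std_lt d).ne ((ENNReal.ofReal_lt_ofReal_iff hwp).mpr hlt)
  have h3 : 0 < volume (W \ U) := by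
    rw [pos_iff_ne_zero]
    intro h0
    have := measure_sdiff_add_inter (μ := volume) W mU
    rw [h0, zero_add, inter_eq_right.mpr hsub] at this
    exact absurd this h2.ne
  obtain ⟨r, hr⟩ := exists_ball w
  have h4 : 0 < muS d (W \ U) := by
    refine lt_of_lt_of_le ?_ (le_muS (mW.diff mU) (dn d (r ^ 2)) ?_)
    · exact ENNReal.mul_pos (ENNReal.ofReal_pos.mpr (dn_pos d (by positivity))).ne' h3.ne'
    · intro x hx
      have h5 := mem_closedBall_zero_iff.mp (hr hx.1)
      have h6 := norm_nonneg x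
      exact dn_anti d (by positivity) (by nlinarith)
  have h5 : muS d (W \ U) + muS d U = muS d W := by
    have := measure_sdiff_add_inter (μ := muS d) W mU
    rwa [inter_eq_right.mpr hsub] at this
  have h6 : muS d U < muS d W := by
    rw [← h5, add_comm]
    exact ENNReal.lt_add_right (muS_lt _).ne h4.ne'
  rw [hvol] at h6
  exact absurd (h6.trans_le h1) (lt_irrefl _)

/-- the complements: Lebesgue measure outside a ball -/
theorem compl_vol {d : ℕ} (v w : Fin (d + 1) → EE d) (α : ℝ) (hv : (mt v).det ≠ 0) (hw' : (mt w).det ≠ 0)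
    (hw : Reg w α) (hvol : muS d (convexHull ℝ (Set.range w)) = muS d (convexHull ℝ (Set.range v))) (r : ℝ) :
    volume (convexHull ℝ (Set.range w) \ Metric.closedBall 0 r) ≤
      volume (convexHull ℝ (Set.range v) \ Metric.closedBall 0 r) := by
  rcases Nat.eq_zero_or_pos d with hd | hd
  · subst hd
    have : v = w := Subsingleton.elim _ _
    rw [this]
  have hle := det_le hd v w α hv hw' hw hvol
  have hwp : 0 < |(mt w).det| := abs_pos.mpr hw'
  have hvp : 0 < |(mt v).det| := abs_pos.mpr hv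
  obtain ⟨κ, hκ0, hκd, hdet⟩ := exists_scale hd v w hv hw'
  have hκ1 : 1 ≤ κ := by
    have h1 : 1 ≤ κ ^ d := by rw [hκd]; exact (one_le_div hwp).mpr hle
    exact (one_le_pow_iff_of_nonneg hκ0.le (by omega)).mp h1
  have hne : (mt (fun i => κ • w i)).det ≠ 0 := by
    rw [← abs_ne_zero, hdet]; exact hvp.ne'
  have hsub : convexHull ℝ (Set.range w) ⊆ convexHull ℝ (Set.range fun i => κ • w i) := by
    have := hull_smul (hw.smul κ) κ⁻¹ (by positivity) (inv_le_one_of_one_le₀ hκ1)
    simpa [smul_smul, inv_mul_cancel₀ hκ0.ne'] using this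
  have h1 := eucl_vol r v _ _ hv (hw.smul κ) hdet
  set U := convexHull ℝ (Set.range fun i => κ • w i) with hU
  set V := convexHull ℝ (Set.range v) with hV
  have mB : MeasurableSet (Metric.closedBall (0 : EE d) r) := Metric.isClosed_closedBall.measurableSet
  have h2 : volume U = volume V := by
    rw [hU, hV, vol_hull _ hne, vol_hull _ hv, hdet]
  have h3 := measure_sdiff_add_inter (μ := volume) U mB
  have h4 := measure_sdiff_add_inter (μ := volume) V mB
  rw [h2, ← h4, inter_comm U, inter_comm V] at h3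
  have hfin : volume (Metric.closedBall (0 : EE d) r ∩ U) ≠ ⊤ :=
    ((measure_mono inter_subset_right).trans_lt (vol_hull_lt _)).ne
  have h5 : volume (U \ Metric.closedBall 0 r) + volume (Metric.closedBall (0 : EE d) r ∩ U) ≤
      volume (V \ Metric.closedBall 0 r) + volume (Metric.closedBall (0 : EE d) r ∩ U) := by
    rw [h3]; gcongr
  have h6 := (ENNReal.add_le_add_iff_right hfin).mp h5
  exact (measure_mono (sdiff_subset_sdiff_left hsub)).trans h6

/-- the ratio bound -/
theorem ratio {d : ℕ} (v w : Fin (d + 1) → EE d) (α : ℝ) (hv : (mt v).det ≠ 0) (hw' : (mt w).det ≠ 0)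
    (hw : Reg w α) (hvol : muS d (convexHull ℝ (Set.range w)) = muS d (convexHull ℝ (Set.range v))) (r : ℝ) :
    volume (convexHull ℝ (Set.range w)) * muS d (Metric.closedBall 0 r ∩ convexHull ℝ (Set.range v)) ≤
      volume (convexHull ℝ (Set.range v)) * muS d (Metric.closedBall 0 r ∩ convexHull ℝ (Set.range w)) := by
  rcases Nat.eq_zero_or_pos d with hd | hd
  · subst hd
    have : v = w := Subsingleton.elim _ _
    rw [this]
  have hle := det_le hd v w α hv hw' hw hvol
  have hwp : 0 < |(mt w).det| := abs_pos.mpr hw'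
  have hvp : 0 < |(mt v).det| := abs_pos.mpr hv
  obtain ⟨κ, hκ0, hκd, hdet⟩ := exists_scale hd v w hv hw'
  have hκ1 : 1 ≤ κ := by
    have h1 : 1 ≤ κ ^ d := by rw [hκd]; exact (one_le_div hwp).mpr hle
    exact (one_le_pow_iff_of_nonneg hκ0.le (by omega)).mp h1
  have hne : (mt (fun i => κ • w i)).det ≠ 0 := by
    rw [← abs_ne_zero, hdet]; exact hvp.ne'
  have h1 := eucl_muS r v _ _ hv (hw.smul κ) hdet
  have mB : MeasurableSet (Metric.closedBall (0 : EE d) r) := Metric.isClosed_closedBall.measurableSet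
  -- the function to be integrated
  set F : EE d → ENNReal := (Metric.closedBall (0 : EE d) r).indicator fun x => ENNReal.ofReal (dn d (‖x‖ ^ 2)) with hF
  have mF : Measurable F := (meas_dn d).indicator mB
  have key : ∀ u : Fin (d + 1) → EE d, (mt u).det ≠ 0 → muS d (Metric.closedBall 0 r ∩ convexHull ℝ (Set.range u)) =
      ENNReal.ofReal |(mt u).det| * ∫⁻ x in Std d, F (bmap u x) := by
    intro u hu
    rw [← lint_hull u hu F mF, muS_apply (mB.inter (isClosed_hull u).measurableSet), hF,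
      setLIntegral_indicator mB]
  have hb : ∀ x, bmap (fun i => κ • w i) x = κ • bmap w x := by
    intro x
    simp only [bmap, Finset.smul_sum]
    refine Finset.sum_congr rfl fun i _ => ?_
    rw [smul_comm]
  have hFle : ∀ y : EE d, F (κ • y) ≤ F y := by
    intro y
    have hn : ‖y‖ ≤ ‖κ • y‖ := by
      rw [norm_smul, Real.norm_of_nonneg hκ0.le]
      nlinarith [norm_nonneg y]
    simp only [hF, Set.indicator]
    split_ifs with c1 c2 c2
    · apply ENNReal.ofReal_le_ofReal
      exact dn_anti d (by positivity) (by nlinarith [norm_nonneg y])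
    · exfalso
      rw [mem_closedBall_zero_iff] at c1 c2
      exact c2 (hn.trans c1)
    · exact zero_le
    · exact le_rfl
  have h2 : ∫⁻ x in Std d, F (bmap (fun i => κ • w i) x) ≤ ∫⁻ x in Std d, F (bmap w x) := by
    apply lintegral_mono
    intro x
    beta_reduce
    rw [hb]
    exact hFle _
  calc volume (convexHull ℝ (Set.range w)) * muS d (Metric.closedBall 0 r ∩ convexHull ℝ (Set.range v))
      ≤ volume (convexHull ℝ (Set.range w)) * (ENNReal.ofReal |(mt v).det| * ∫⁻ x in Std d, F (bmap w x)) := by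
        gcongr
        refine h1.trans ?_
        rw [key _ hne, hdet]
        gcongr
    _ = volume (convexHull ℝ (Set.range v)) * (ENNReal.ofReal |(mt w).det| * ∫⁻ x in Std d, F (bmap w x)) := by
        rw [vol_hull _ hw', vol_hull _ hv]; ring
    _ = _ := by rw [key w hw']

end BallSimp
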