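import Pool.Agent.BallSimp.Bary

set_option autoImplicit false

open MeasureTheory Set

namespace BallSimp

/-- the one dimensional comparison: an interval is best centred -/
lemma fib (s M Q r2 E2 : ℝ) (hE : 0 < E2) :
    volume {t : ℝ | 0 ≤ t ∧ t ≤ s ∧ Q + (s / 2 - t + M) ^ 2 * E2 ≤ r2} ≤
      volume {t : ℝ | 0 ≤ t ∧ t ≤ s ∧ Q + (s / 2 - t) ^ 2 * E2 ≤ r2} := by
  by_cases hQ : r2 < Q
  · have : {t : ℝ | 0 ≤ t ∧ t ≤ s ∧ Q + (s / 2 - t + M) ^ 2 * E2 ≤ r2} = ∅ := by
      ext t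
      simp only [mem_ofPred_eq, mem_empty_iff_false, iff_false, not_and, not_le]
      intro _ _
      have : 0 ≤ (s / 2 - t + M) ^ 2 * E2 := by positivity
      linarith
    rw [this]; simp
  push Not at hQ
  set b : ℝ := Real.sqrt ((r2 - Q) / E2) with hb
  have hb0 : 0 ≤ b := Real.sqrt_nonneg _
  have key : ∀ c : ℝ, Q + c ^ 2 * E2 ≤ r2 ↔ |c| ≤ b := by
    intro c
    rw [hb, Real.le_sqrt (abs_nonneg _) (div_nonneg (by linarith) hE.le), sq_abs, le_div_iff₀ hE]
    constructor <;> intro h <;> linarith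
  by_cases hs : s / 2 ≤ b
  · apply measure_mono
    rintro t ⟨h1, h2, _⟩
    refine ⟨h1, h2, ?_⟩
    rw [key, abs_le]
    constructor <;> linarith
  · push Not at hs
    have h1 : {t : ℝ | 0 ≤ t ∧ t ≤ s ∧ Q + (s / 2 - t + M) ^ 2 * E2 ≤ r2} ⊆ Icc (s / 2 + M - b) (s / 2 + M + b) := by
      rintro t ⟨_, _, h3⟩
      rw [key, abs_le] at h3
      constructor <;> linarith [h3.1, h3.2]
    have h2 : Icc (s / 2 - b) (s / 2 + b) ⊆ {t : ℝ | 0 ≤ t ∧ t ≤ s ∧ Q + (s / 2 - t) ^ 2 * E2 ≤ r2} := by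
      rintro t ⟨h3, h4⟩
      refine ⟨by linarith, by linarith, ?_⟩
      rw [key, abs_le]
      constructor <;> linarith
    calc _ ≤ volume (Icc (s / 2 + M - b) (s / 2 + M + b)) := measure_mono h1
      _ = volume (Icc (s / 2 - b) (s / 2 + b)) := by
          rw [Real.volume_Icc, Real.volume_Icc]; congr 1; ring
      _ ≤ _ := measure_mono h2

/-- the measure of the set of parameters of the points at distance at most `r` from the origin -/
noncomputable def NN {d : ℕ} (r : ℝ) (u : Fin (d + 1) → EE d) : ENNReal :=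
  volume {x ∈ Std d | ‖bmap u x‖ ≤ r}

/-- the amount of the shear -/
noncomputable def tau {d : ℕ} (u : Fin (d + 1) → EE d) (j : Fin d) (k : Fin (d + 1)) : ℝ :=
  if k = 0 ∨ k = j.succ then inner ℝ ((1 / 2 : ℝ) • (u 0 + u j.succ)) (u 0 - u j.succ) / ‖u 0 - u j.succ‖ ^ 2
  else inner ℝ (u k) (u 0 - u j.succ) / ‖u 0 - u j.succ‖ ^ 2

/-- the Steiner symmetrisation with respect to the edge from `u 0` to `u j.succ` -/
noncomputable def st {d : ℕ} (u : Fin (d + 1) → EE d) (j : Fin d) (k : Fin (d + 1)) : EE d :=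
  u k - tau u j k • (u 0 - u j.succ)

lemma bmap_st {d : ℕ} (u : Fin (d + 1) → EE d) (j : Fin d) (x : Fin d → ℝ) :
    bmap (st u j) x = bmap u x - (∑ k, lam x k * tau u j k) • (u 0 - u j.succ) := by
  simp only [bmap, st, smul_sub, Finset.sum_sub_distrib, Finset.sum_smul, smul_smul]

lemma inner_bmap {d : ℕ} (u : Fin (d + 1) → EE d) (x : Fin d → ℝ) (e : EE d) :
    inner ℝ (bmap u x) e = ∑ k, lam x k * inner ℝ (u k) e := by
  simp only [bmap, sum_inner, inner_smul_left]; rfl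

/-- the component of the symmetrised point along the edge -/
lemma inner_st {d : ℕ} (u : Fin (d + 1) → EE d) (j : Fin d) (x : Fin d → ℝ) (h : u 0 ≠ u j.succ) :
    inner ℝ (bmap (st u j) x) (u 0 - u j.succ) = ((lam x 0 - lam x j.succ) / 2) * ‖u 0 - u j.succ‖ ^ 2 := by
  have hn : ‖u 0 - u j.succ‖ ^ 2 ≠ 0 := by
    have : 0 < ‖u 0 - u j.succ‖ := norm_pos_iff.mpr (sub_ne_zero.mpr h)
    positivity
  have h1 : ∀ k, inner ℝ (st u j k) (u 0 - u j.succ) =
      (if k = 0 then 1 / 2 else if k = j.succ then -(1 / 2) else 0) * ‖u 0 - u j.succ‖ ^ 2 := by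
    intro k
    rw [st, inner_sub_left, inner_smul_left, real_inner_self_eq_norm_sq]
    simp only [tau, RCLike.conj_to_real]
    have hm : inner ℝ ((1 / 2 : ℝ) • (u 0 + u j.succ)) (u 0 - u j.succ) =
        inner ℝ (u 0) (u 0 - u j.succ) - (1 / 2) * ‖u 0 - u j.succ‖ ^ 2 := by
      have : (1 / 2 : ℝ) • (u 0 + u j.succ) = u 0 - (1 / 2 : ℝ) • (u 0 - u j.succ) := by
        rw [smul_add, smul_sub]
        have : u 0 = (1 / 2 : ℝ) • u 0 + (1 / 2 : ℝ) • u 0 := by rw [← add_smul]; norm_num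
        nth_rewrite 2 [this]
        abel
      rw [this, inner_sub_left, inner_smul_left, real_inner_self_eq_norm_sq]
      simp
    have hm' : inner ℝ ((1 / 2 : ℝ) • (u 0 + u j.succ)) (u 0 - u j.succ) =
        inner ℝ (u j.succ) (u 0 - u j.succ) + (1 / 2) * ‖u 0 - u j.succ‖ ^ 2 := by
      rw [hm]
      have : inner ℝ (u 0) (u 0 - u j.succ) - inner ℝ (u j.succ) (u 0 - u j.succ) = ‖u 0 - u j.succ‖ ^ 2 := by
        rw [← inner_sub_left, real_inner_self_eq_norm_sq]
      linarith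
    by_cases h0 : k = 0
    · subst h0
      rw [if_pos (Or.inl rfl), if_pos rfl, div_mul_cancel₀ _ hn, hm]; ring
    · by_cases h1 : k = j.succ
      · subst h1
        rw [if_pos (Or.inr rfl), if_neg h0, if_pos rfl, div_mul_cancel₀ _ hn, hm']; ring
      · rw [if_neg (by tauto), if_neg h0, if_neg h1, div_mul_cancel₀ _ hn]; ring
  rw [inner_bmap]
  simp only [h1]
  rw [Fin.sum_univ_succ]
  simp only [if_true, Fin.succ_ne_zero, if_false, Fin.succ_inj]
  rw [Finset.sum_eq_single j (fun b _ hb => by simp [hb]) (by simp)]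
  simp only [if_true]
  ring

/-- splitting of the norm -/
lemma norm_split {d : ℕ} (y e : EE d) (c : ℝ) (he : e ≠ 0) :
    ‖y + c • e‖ ^ 2 = ‖y - (inner ℝ y e / ‖e‖ ^ 2) • e‖ ^ 2 + (inner ℝ y e / ‖e‖ ^ 2 + c) ^ 2 * ‖e‖ ^ 2 := by
  have hn : ‖e‖ ^ 2 ≠ 0 := by
    have : 0 < ‖e‖ := norm_pos_iff.mpr he
    positivity
  rw [norm_add_sq_real, norm_sub_sq_real, inner_smul_right, inner_smul_right, norm_smul, norm_smul, mul_pow, mul_pow]
  simp only [Real.norm_eq_abs, sq_abs]
  field_simp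
  ring

lemma meas_NN {d : ℕ} (r : ℝ) (u : Fin (d + 1) → EE d) : MeasurableSet {x ∈ Std d | ‖bmap u x‖ ≤ r} :=
  ((isClosed_Std d).inter (isClosed_le (continuous_bmap u).norm continuous_const)).measurableSet

lemma ind_congr {α β : Type*} {A : Set α} {B : Set β} {a : α} {b : β} (h : a ∈ A ↔ b ∈ B) :
    A.indicator (1 : α → ENNReal) a = B.indicator 1 b := by
  by_cases hb : b ∈ B
  · rw [Set.indicator_of_mem hb, Set.indicator_of_mem (h.mpr hb)]; rfl
  · rw [Set.indicator_of_notMem hb, Set.indicator_of_notMem (fun ha => hb (h.mp ha))]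

lemma meas_fib (s M Q r2 E2 : ℝ) :
    MeasurableSet {t : ℝ | 0 ≤ t ∧ t ≤ s ∧ Q + (s / 2 - t + M) ^ 2 * E2 ≤ r2} := by
  have : {t : ℝ | 0 ≤ t ∧ t ≤ s ∧ Q + (s / 2 - t + M) ^ 2 * E2 ≤ r2} =
      {t : ℝ | 0 ≤ t} ∩ ({t : ℝ | t ≤ s} ∩ {t : ℝ | Q + (s / 2 - t + M) ^ 2 * E2 ≤ r2}) := by
    ext t; simp
  rw [this]
  exact (measurableSet_le measurable_const measurable_id).inter ((measurableSet_le measurable_id measurable_const).inter
    (measurableSet_le (by fun_prop) measurable_const))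

theorem NN_le_st {d : ℕ} (r : ℝ) (u : Fin (d + 1) → EE d) (j : Fin d) (h : u 0 ≠ u j.succ) :
    NN r u ≤ NN r (st u j) := by
  have he : u 0 - u j.succ ≠ 0 := sub_ne_zero.mpr h
  by_cases hr : 0 ≤ r
  swap
  · have : {x ∈ Std d | ‖bmap u x‖ ≤ r} = ∅ := by
      ext x
      simp only [mem_ofPred_eq, mem_empty_iff_false, iff_false, not_and, not_le]
      intro _
      linarith [norm_nonneg (bmap u x)]
    rw [NN, this]; simp
  have e1 : ∀ v : Fin (d + 1) → EE d, NN r v = ∫⁻ x, ({x ∈ Std d | ‖bmap v x‖ ≤ r}).indicator 1 x := by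
    intro v; rw [lintegral_indicator_one (meas_NN r v)]; rfl
  rw [e1, e1, volume_pi]
  apply lintegral_le_of_lmarginal_le (μ := fun _ : Fin d => (volume : Measure ℝ)) {j}
    (measurable_one.indicator (meas_NN r u)) (measurable_one.indicator (meas_NN r (st u j)))
  rw [lmarginal_singleton, lmarginal_singleton]
  intro x
  beta_reduce
  -- the fibre
  set s : ℝ := 1 - ∑ k ∈ Finset.univ.erase j, x k with hs
  have hsum : ∀ t, ∑ k, Function.update x j t k = t + (1 - s) := by
    intro t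
    rw [← Finset.add_sum_erase _ _ (Finset.mem_univ j), Function.update_self, hs]
    congr 1
    rw [sub_sub_cancel]
    exact Finset.sum_congr rfl fun k hk => Function.update_of_ne (Finset.ne_of_mem_erase hk) _ _
  have hl0 : ∀ t, lam (Function.update x j t) 0 = s - t := by
    intro t; rw [lam_zero, hsum]; ring
  have hlj : ∀ t, lam (Function.update x j t) j.succ = t := by
    intro t; rw [lam_succ, Function.update_self]
  have hlk : ∀ t, ∀ k, k ≠ j → lam (Function.update x j t) k.succ = x k := by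
    intro t k hk; rw [lam_succ, Function.update_of_ne hk]
  -- the shift is constant on the fibre
  obtain ⟨M, hM⟩ : ∃ M : ℝ, ∀ t, ∑ k, lam (Function.update x j t) k * tau u j k = M := by
    refine ⟨s * tau u j 0 + ∑ k ∈ Finset.univ.erase j, x k * tau u j k.succ, fun t => ?_⟩
    rw [Fin.sum_univ_succ, ← Finset.add_sum_erase _ _ (Finset.mem_univ j), hl0, hlj]
    have : tau u j j.succ = tau u j 0 := by simp [tau]
    rw [this, ← add_assoc, ← add_mul, sub_add_cancel]
    congr 1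
    exact Finset.sum_congr rfl fun k hk => by rw [hlk t k (Finset.ne_of_mem_erase hk)]
  set E2 : ℝ := ‖u 0 - u j.succ‖ ^ 2 with hE2
  have hE : 0 < E2 := by
    have : 0 < ‖u 0 - u j.succ‖ := norm_pos_iff.mpr he
    positivity
  -- the orthogonal component is constant on the fibre
  obtain ⟨y, hy⟩ : ∃ y : EE d, ∀ t, bmap (st u j) (Function.update x j t) -
      (inner ℝ (bmap (st u j) (Function.update x j t)) (u 0 - u j.succ) / E2) • (u 0 - u j.succ) = y := by
    refine ⟨bmap (st u j) (Function.update x j 0) -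
      (inner ℝ (bmap (st u j) (Function.update x j 0)) (u 0 - u j.succ) / E2) • (u 0 - u j.succ), fun t => ?_⟩
    rw [inner_st u j _ h, inner_st u j _ h, hl0, hl0, hlj, hlj]
    rw [mul_div_cancel_right₀ _ hE.ne', mul_div_cancel_right₀ _ hE.ne', bmap_st, bmap_st, hM, hM]
    have h1 : bmap u (Function.update x j t) = bmap u (Function.update x j 0) - t • (u 0 - u j.succ) := by
      rw [bmap, bmap, Fin.sum_univ_succ, Fin.sum_univ_succ, hl0, hl0, ← Finset.add_sum_erase _ _ (Finset.mem_univ j),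
        ← Finset.add_sum_erase (Finset.univ) (fun k => lam (Function.update x j 0) k.succ • u k.succ) (Finset.mem_univ j),
        hlj, hlj]
      have : ∑ k ∈ Finset.univ.erase j, lam (Function.update x j t) k.succ • u k.succ =
          ∑ k ∈ Finset.univ.erase j, lam (Function.update x j 0) k.succ • u k.succ :=
        Finset.sum_congr rfl fun k hk => by
          rw [hlk t k (Finset.ne_of_mem_erase hk), hlk 0 k (Finset.ne_of_mem_erase hk)]
      rw [this]
      module
    rw [h1]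
    module
  have n1 : ∀ t, ‖bmap (st u j) (Function.update x j t)‖ ^ 2 = ‖y‖ ^ 2 + (s / 2 - t) ^ 2 * E2 := by
    intro t
    have := norm_split (bmap (st u j) (Function.update x j t)) (u 0 - u j.succ) 0 he
    rw [zero_smul, add_zero, ← hE2, hy, inner_st u j _ h, hl0, hlj, mul_div_cancel_right₀ _ hE.ne'] at this
    rw [this]; ring
  have n2 : ∀ t, ‖bmap u (Function.update x j t)‖ ^ 2 = ‖y‖ ^ 2 + (s / 2 - t + M) ^ 2 * E2 := by
    intro t
    have h2 : bmap u (Function.update x j t) = bmap (st u j) (Function.update x j t) + M • (u 0 - u j.succ) := by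
      rw [bmap_st, hM]; abel
    rw [h2]
    have := norm_split (bmap (st u j) (Function.update x j t)) (u 0 - u j.succ) M he
    rw [← hE2, hy, inner_st u j _ h, hl0, hlj, mul_div_cancel_right₀ _ hE.ne'] at this
    rw [this]; ring
  have hmem : ∀ t, Function.update x j t ∈ Std d ↔ (∀ k ≠ j, 0 ≤ x k) ∧ 0 ≤ t ∧ t ≤ s := by
    intro t
    constructor
    · rintro ⟨h1, h2⟩
      refine ⟨fun k hk => ?_, ?_, ?_⟩
      · have := h1 k; rwa [Function.update_of_ne hk] at this
      · have := h1 j; rwa [Function.update_self] at this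
      · rw [hsum] at h2; linarith
    · rintro ⟨h1, h2, h3⟩
      refine ⟨fun k => ?_, ?_⟩
      · by_cases hk : k = j
        · subst hk; rwa [Function.update_self]
        · rw [Function.update_of_ne hk]; exact h1 k hk
      · rw [hsum]; linarith
  have hsq : ∀ z : EE d, ‖z‖ ≤ r ↔ ‖z‖ ^ 2 ≤ r ^ 2 := fun z => (pow_le_pow_iff_left₀ (norm_nonneg _) hr (by norm_num)).symm
  by_cases hx : ∀ k ≠ j, 0 ≤ x k
  · have e2 : (fun t => ({x ∈ Std d | ‖bmap u x‖ ≤ r}).indicator (1 : (Fin d → ℝ) → ENNReal) (Function.update x j t)) =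
        ({t : ℝ | 0 ≤ t ∧ t ≤ s ∧ ‖y‖ ^ 2 + (s / 2 - t + M) ^ 2 * E2 ≤ r ^ 2}).indicator 1 := by
      funext t
      have : (Function.update x j t ∈ {x ∈ Std d | ‖bmap u x‖ ≤ r}) ↔
          t ∈ {t : ℝ | 0 ≤ t ∧ t ≤ s ∧ ‖y‖ ^ 2 + (s / 2 - t + M) ^ 2 * E2 ≤ r ^ 2} := by
        simp only [mem_ofPred_eq, hmem, hsq, n2]; tauto
      exact ind_congr this
    have e3 : (fun t => ({x ∈ Std d | ‖bmap (st u j) x‖ ≤ r}).indicator (1 : (Fin d → ℝ) → ENNReal) (Function.update x j t)) =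
        ({t : ℝ | 0 ≤ t ∧ t ≤ s ∧ ‖y‖ ^ 2 + (s / 2 - t) ^ 2 * E2 ≤ r ^ 2}).indicator 1 := by
      funext t
      have : (Function.update x j t ∈ {x ∈ Std d | ‖bmap (st u j) x‖ ≤ r}) ↔
          t ∈ {t : ℝ | 0 ≤ t ∧ t ≤ s ∧ ‖y‖ ^ 2 + (s / 2 - t) ^ 2 * E2 ≤ r ^ 2} := by
        simp only [mem_ofPred_eq, hmem, hsq, n1]; tauto
      exact ind_congr this
    have m3 := meas_fib s 0 (‖y‖ ^ 2) (r ^ 2) E2
    simp only [add_zero] at m3
    rw [e2, e3, lintegral_indicator_one (meas_fib s M _ _ E2), lintegral_indicator_one m3]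
    exact fib s M _ _ E2 hE
  · have e2 : (fun t => ({x ∈ Std d | ‖bmap u x‖ ≤ r}).indicator (1 : (Fin d → ℝ) → ENNReal) (Function.update x j t)) =
        fun _ => 0 := by
      funext t
      apply Set.indicator_of_notMem
      rintro ⟨h1, _⟩
      exact hx ((hmem t).mp h1).1
    rw [e2]; simp

/-- the shear preserves the determinant -/
lemma det_st {d : ℕ} (u : Fin (d + 1) → EE d) (j : Fin d) : (mt (st u j)).det = (mt u).det := by
  refine Matrix.det_eq_of_forall_row_eq_smul_add_const (fun k => tau u j k.succ - tau u j 0) j ?_ ?_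
  · simp [tau]
  · intro k i
    simp [mt, st]
    ring

end BallSimp
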