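import Pool.Agent.BallSimp.Lor

set_option autoImplicit false

open MeasureTheory Set Filter Topology

namespace BallSimp

/-- the hyperbolic cosine of the distance of two points of the Klein model -/
noncomputable def chd {d : ℕ} (c x : EE d) : ℝ :=
  (1 - inner ℝ x c) / Real.sqrt ((1 - ‖x‖ ^ 2) * (1 - ‖c‖ ^ 2))

/-- the same for forward vectors -/
noncomputable def chW {d : ℕ} (X Y : ℝ × EE d) : ℝ := -lor d X Y / Real.sqrt (lor d X X * lor d Y Y)

/-- projection to the Klein model -/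
noncomputable def prj {d : ℕ} (X : ℝ × EE d) : EE d := X.1⁻¹ • X.2

/-- the lift of a point of the Klein model -/
def lft {d : ℕ} (x : EE d) : ℝ × EE d := (1, x)

@[simp] lemma prj_lft {d : ℕ} (x : EE d) : prj (lft x) = x := by simp [prj, lft]

lemma fwd_lft {d : ℕ} {x : EE d} (hx : ‖x‖ < 1) : Fwd (lft x) := by
  rw [fwd_iff]; exact hx

lemma lft_prj {d : ℕ} {X : ℝ × EE d} (hX : Fwd X) : lft (prj X) = X.1⁻¹ • X := by
  ext1
  · simp [lft, hX.1.ne']
  · simp [lft, prj]

lemma norm_prj {d : ℕ} {X : ℝ × EE d} (hX : Fwd X) : ‖prj X‖ < 1 := by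
  rw [prj, norm_smul, norm_inv, Real.norm_eq_abs, abs_of_pos hX.1, inv_mul_lt_iff₀ hX.1]
  linarith [hX.norm_lt]

lemma chW_smul_left {d : ℕ} (X Y : ℝ × EE d) {s : ℝ} (hs : 0 < s) : chW (s • X) Y = chW X Y := by
  simp only [chW, map_smul, LinearMap.smul_apply, smul_eq_mul]
  have : s * (s * lor d X X) * lor d Y Y = s ^ 2 * (lor d X X * lor d Y Y) := by ring
  rw [this, Real.sqrt_mul (by positivity), Real.sqrt_sq hs.le, ← mul_neg, mul_div_mul_left _ _ hs.ne']

lemma chW_symm {d : ℕ} (X Y : ℝ × EE d) : chW X Y = chW Y X := by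
  rw [chW, chW, lor_symm, mul_comm]

lemma chW_smul_right {d : ℕ} (X Y : ℝ × EE d) {s : ℝ} (hs : 0 < s) : chW X (s • Y) = chW X Y := by
  rw [chW_symm, chW_smul_left _ _ hs, chW_symm]

lemma chW_lft {d : ℕ} (x c : EE d) : chW (lft x) (lft c) = chd c x := by
  rw [chW, chd, lor_self, lor_self, lor_apply]
  simp only [lft]
  congr 1
  · ring
  · congr 1; ring

lemma chd_prj {d : ℕ} {X C : ℝ × EE d} (hX : Fwd X) (hC : Fwd C) : chd (prj C) (prj X) = chW X C := by
  rw [← chW_lft, lft_prj hX, lft_prj hC, chW_smul_left _ _ (inv_pos.mpr hX.1), chW_smul_right _ _ (inv_pos.mpr hC.1)]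

lemma chW_refl {d : ℕ} {n : ℝ × EE d} (hn : 0 < lor d n n) (X Y : ℝ × EE d) :
    chW (rfl' (lor d) n X) (rfl' (lor d) n Y) = chW X Y := by
  rw [chW, chW, rfl'_form _ lor_symm hn.ne', rfl'_form _ lor_symm hn.ne', rfl'_form _ lor_symm hn.ne']

lemma mem_hull_iff {d : ℕ} (v : Fin (d + 1) → EE d) {X : ℝ × EE d} (hX : Fwd X) :
    prj X ∈ convexHull ℝ (Set.range v) ↔ X ∈ Kc fun i => lft (v i) := by
  constructor
  · intro h
    rw [← bmap_image] at h
    obtain ⟨x, hx, hxe⟩ := h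
    refine ⟨fun i => X.1 * lam x i, fun i => mul_nonneg hX.1.le (lam_nonneg hx i), ?_⟩
    ext1
    · rw [Prod.fst_sum]
      simp only [lft, Prod.smul_fst, smul_eq_mul, mul_one, ← Finset.mul_sum, sum_lam]
    · rw [Prod.snd_sum]
      simp only [lft, Prod.smul_snd, mul_smul, ← Finset.smul_sum]
      have : ∑ i, lam x i • v i = prj X := hxe
      rw [this, prj, smul_smul, mul_inv_cancel₀ hX.1.ne', one_smul]
  · rintro ⟨a, ha, he⟩
    have h1 : X.1 = ∑ i, a i := by
      have := congrArg Prod.fst he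
      rw [Prod.fst_sum] at this
      simpa [lft] using this
    have h2 : X.2 = ∑ i, a i • v i := by
      have := congrArg Prod.snd he
      rw [Prod.snd_sum] at this
      simpa [lft] using this
    rw [prj, h2, Finset.smul_sum]
    simp only [smul_smul]
    refine (convex_convexHull ℝ _).sum_mem (fun i _ => mul_nonneg (inv_nonneg.mpr hX.1.le) (ha i)) ?_
      (fun i _ => subset_convexHull ℝ _ ⟨i, rfl⟩)
    rw [← Finset.mul_sum, ← h1, inv_mul_cancel₀ hX.1.ne']

lemma Kc_smul {W ι : Type*} [AddCommGroup W] [Module ℝ W] [Fintype ι] (v : ι → W) (s : ι → ℝ) (hs : ∀ i, 0 < s i) :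
    Kc (fun i => s i • v i) = Kc v := by
  ext x
  constructor
  · rintro ⟨a, ha, he⟩
    exact ⟨fun i => a i * s i, fun i => mul_nonneg (ha i) (hs i).le, by simp only [he, smul_smul]⟩
  · rintro ⟨a, ha, he⟩
    refine ⟨fun i => a i * (s i)⁻¹, fun i => mul_nonneg (ha i) (inv_nonneg.mpr (hs i).le), ?_⟩
    rw [he]
    refine Finset.sum_congr rfl fun i _ => ?_
    rw [smul_smul, mul_assoc, inv_mul_cancel₀ (hs i).ne', mul_one]

lemma Kc_refl {W ι : Type*} [AddCommGroup W] [Module ℝ W] [Fintype ι] (b : LinearMap.BilinForm ℝ W)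
    {n : W} (hn : b n n ≠ 0) (v : ι → W) (x : W) : rfl' b n x ∈ Kc v ↔ x ∈ Kc fun i => rfl' b n (v i) := by
  constructor
  · rintro ⟨a, ha, he⟩
    refine ⟨a, ha, ?_⟩
    rw [← rfl'_invol b hn x, he, map_sum]
    simp only [map_smul]
  · rintro ⟨a, ha, he⟩
    refine ⟨a, ha, ?_⟩
    rw [he, map_sum]
    simp only [map_smul, rfl'_invol b hn]

lemma meas_prj {d : ℕ} : Measurable (prj : ℝ × EE d → EE d) := measurable_fst.inv.smul measurable_snd

lemma nu_ae {d : ℕ} : ∀ᵐ X ∂(nu d), Fwd X := by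
  rw [nu, ae_restrict_iff' (meas_HH d)]
  exact Eventually.of_forall fun X hX => hX.1

lemma muK_restrict (d : ℕ) : (muK d).restrict (Metric.ball 0 1) = ((d : ENNReal) + 1) • Measure.map prj (nu d) := by
  ext A hA
  rw [Measure.restrict_apply hA, muK_eq _ (hA.inter Metric.isOpen_ball.measurableSet) inter_subset_right,
    Measure.smul_apply, Measure.map_apply meas_prj hA, smul_eq_mul]
  congr 1
  apply measure_congr
  filter_upwards [nu_ae] with X hX
  apply propext
  constructor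
  · intro h; exact h.1
  · intro h
    refine ⟨h, ?_⟩
    rw [mem_ball_zero_iff]; exact norm_prj hX

lemma isClosed_hull {d : ℕ} (v : Fin (d + 1) → EE d) : IsClosed (convexHull ℝ (Set.range v)) :=
  (Set.Finite.isCompact_convexHull (𝕜 := ℝ) (Set.finite_range v)).isClosed

lemma hull_sub {d : ℕ} (u : Fin (d + 1) → EE d) (hu : ∀ i, ‖u i‖ < 1) :
    convexHull ℝ (Set.range u) ⊆ Metric.ball 0 1 := by
  apply convexHull_min _ (convex_ball 0 1)
  rintro _ ⟨i, rfl⟩
  rw [mem_ball_zero_iff]; exact hu i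

/-- integrals over a simplex in the Klein model as integrals over a cone -/
lemma lint_muK {d : ℕ} (v : Fin (d + 1) → EE d) (hv : ∀ i, ‖v i‖ < 1) (g : EE d → ENNReal) (hg : Measurable g) :
    ∫⁻ x in convexHull ℝ (Set.range v), g x ∂(muK d) =
      ((d : ENNReal) + 1) * ∫⁻ X in prj ⁻¹' (convexHull ℝ (Set.range v)), g (prj X) ∂(nu d) := by
  have h1 : (muK d).restrict (convexHull ℝ (Set.range v)) =
      ((muK d).restrict (Metric.ball 0 1)).restrict (convexHull ℝ (Set.range v)) := by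
    rw [Measure.restrict_restrict_of_subset (hull_sub v hv)]
  rw [h1, muK_restrict, Measure.restrict_smul, lintegral_smul_measure, smul_eq_mul,
    setLIntegral_map (isClosed_hull v).measurableSet hg meas_prj]

/-- the transported vertices -/
noncomputable def tr {d : ℕ} (n : ℝ × EE d) (x : EE d) : EE d := prj (rfl' (lor d) n (lft x))

lemma tr_norm {d : ℕ} {n : ℝ × EE d} (hn : 0 < lor d n n) {x : EE d} (hx : ‖x‖ < 1) : ‖tr n x‖ < 1 :=
  norm_prj (fwd_refl hn (fwd_lft hx))

lemma tr_tr {d : ℕ} {n : ℝ × EE d} (hn : 0 < lor d n n) {x : EE d} (hx : ‖x‖ < 1) : tr n (tr n x) = x := by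
  have hf := fwd_refl hn (fwd_lft hx)
  rw [tr, tr, lft_prj hf, map_smul, rfl'_invol _ hn.ne']
  have h0 := hf.1
  have : prj ((rfl' (lor d) n (lft x)).1⁻¹ • lft x) = x := by
    simp only [prj, lft, Prod.smul_fst, Prod.smul_snd, smul_eq_mul, mul_one, inv_inv]
    rw [smul_smul]
    have h1 : (rfl' (lor d) n (1, x)).1 ≠ 0 := h0.ne'
    rw [mul_inv_cancel₀ h1, one_smul]
  exact this

lemma chd_tr {d : ℕ} {n : ℝ × EE d} (hn : 0 < lor d n n) {x c : EE d} (hx : ‖x‖ < 1) (hc : ‖c‖ < 1) :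
    chd (tr n c) (tr n x) = chd c x := by
  rw [tr, tr, chd_prj (fwd_refl hn (fwd_lft hx)) (fwd_refl hn (fwd_lft hc)), chW_refl hn, chW_lft]

lemma mem_hull_tr {d : ℕ} {n : ℝ × EE d} (hn : 0 < lor d n n) (v : Fin (d + 1) → EE d) (hv : ∀ i, ‖v i‖ < 1)
    {X : ℝ × EE d} (hX : Fwd X) :
    prj (rfl' (lor d) n X) ∈ convexHull ℝ (Set.range v) ↔ prj X ∈ convexHull ℝ (Set.range fun i => tr n (v i)) := by
  rw [mem_hull_iff v (fwd_refl hn hX), Kc_refl _ hn.ne', mem_hull_iff _ hX]
  have : (fun i => lft (tr n (v i))) = fun i => (rfl' (lor d) n (lft (v i))).1⁻¹ • rfl' (lor d) n (lft (v i)) := by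
    funext i
    rw [tr, lft_prj (fwd_refl hn (fwd_lft (hv i)))]
  rw [this, Kc_smul _ _ (fun i => inv_pos.mpr (fwd_refl hn (fwd_lft (hv i))).1)]

lemma mem_hull_tr' {d : ℕ} {n : ℝ × EE d} (hn : 0 < lor d n n) (v : Fin (d + 1) → EE d) (hv : ∀ i, ‖v i‖ < 1)
    {x : EE d} (hx : ‖x‖ < 1) :
    tr n x ∈ convexHull ℝ (Set.range v) ↔ x ∈ convexHull ℝ (Set.range fun i => tr n (v i)) := by
  have := mem_hull_tr hn v hv (fwd_lft hx)
  rwa [prj_lft] at this

lemma meas_chd {d : ℕ} (c : EE d) : Measurable (chd c) := by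
  unfold chd; fun_prop

/-- transport of integrals of functions of the distance to a point -/
lemma lint_tr {d : ℕ} {n : ℝ × EE d} (hn : 0 < lor d n n) (v : Fin (d + 1) → EE d) (hv : ∀ i, ‖v i‖ < 1)
    (c : EE d) (hc : ‖c‖ < 1) (h : ℝ → ENNReal) (hh : Measurable h) :
    ∫⁻ x in convexHull ℝ (Set.range fun i => tr n (v i)), h (chd (tr n c) x) ∂(muK d) =
      ∫⁻ x in convexHull ℝ (Set.range v), h (chd c x) ∂(muK d) := by
  rw [lint_muK _ (fun i => tr_norm hn (hv i)) (fun x => h (chd (tr n c) x)) (hh.comp (meas_chd _)),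
    lint_muK v hv (fun x => h (chd c x)) (hh.comp (meas_chd _))]
  congr 1
  have m1 : MeasurableSet (prj ⁻¹' (convexHull ℝ (Set.range v))) := meas_prj (isClosed_hull v).measurableSet
  have m2 : MeasurableSet (prj ⁻¹' (convexHull ℝ (Set.range fun i => tr n (v i)))) := meas_prj (isClosed_hull _).measurableSet
  have hm : Measurable ((prj ⁻¹' (convexHull ℝ (Set.range v))).indicator fun X => h (chd c (prj X))) :=
    ((hh.comp (meas_chd _)).comp meas_prj).indicator m1
  rw [← lintegral_indicator m1, ← lintegral_indicator m2, ← (nu_refl hn).lintegral_comp hm]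
  apply lintegral_congr_ae
  filter_upwards [nu_ae] with X hX
  have h1 := mem_hull_tr hn v hv hX
  have h2 : chd c (prj (rfl' (lor d) n X)) = chd (tr n c) (prj X) := by
    have e1 : prj X = tr n (prj (rfl' (lor d) n X)) := by
      rw [tr, lft_prj (fwd_refl hn hX), map_smul, rfl'_invol _ hn.ne']
      have := (fwd_refl hn hX).1
      simp only [prj, Prod.smul_fst, Prod.smul_snd, smul_eq_mul, mul_inv, inv_inv]
      rw [smul_smul, mul_comm (rfl' (lor d) n X).1, mul_assoc, mul_inv_cancel₀ this.ne', mul_one]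
    rw [e1, chd_tr hn (norm_prj (fwd_refl hn hX)) hc]
  classical
  simp only [Set.indicator_apply, mem_preimage, h1, h2]

lemma affInd_iff_lin {d : ℕ} (v : Fin (d + 1) → EE d) :
    AffineIndependent ℝ v ↔ LinearIndependent ℝ (fun i => lft (v i)) := by
  rw [affineIndependent_iff_of_fintype, Fintype.linearIndependent_iff]
  constructor
  · intro h g hg i
    have h1 : ∑ i, g i = 0 := by
      have := congrArg Prod.fst hg
      rw [Prod.fst_sum] at this
      simpa [lft] using this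
    have h2 : ∑ i, g i • v i = 0 := by
      have := congrArg Prod.snd hg
      rw [Prod.snd_sum] at this
      simpa [lft] using this
    refine h g h1 ?_ i
    rw [Finset.weightedVSub_eq_linear_combination _ h1]
    exact h2
  · intro h g h1 h2 i
    rw [Finset.weightedVSub_eq_linear_combination _ h1] at h2
    refine h g ?_ i
    ext1
    · rw [Prod.fst_sum]; simpa [lft] using h1
    · rw [Prod.snd_sum]; simpa [lft] using h2

lemma affInd_tr {d : ℕ} {n : ℝ × EE d} (hn : 0 < lor d n n) (v : Fin (d + 1) → EE d) (hv : ∀ i, ‖v i‖ < 1)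
    (h : AffineIndependent ℝ v) : AffineIndependent ℝ fun i => tr n (v i) := by
  rw [affInd_iff_lin] at h ⊢
  have h1 : LinearIndependent ℝ (fun i => rfl' (lor d) n (lft (v i))) := by
    apply h.map' (rfl' (lor d) n)
    rw [LinearMap.ker_eq_bot]
    intro x y hxy
    rw [← rfl'_invol (lor d) hn.ne' x, hxy, rfl'_invol _ hn.ne']
  have h2 := h1.units_smul (fun i => Units.mk0 ((rfl' (lor d) n (lft (v i))).1⁻¹)
    (inv_ne_zero (fwd_refl hn (fwd_lft (hv i))).1.ne'))
  convert h2 using 1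
  funext i
  rw [tr, lft_prj (fwd_refl hn (fwd_lft (hv i)))]
  rfl

/-- the reflection exchanging a point with the origin -/
lemma exists_refl {d : ℕ} (c : EE d) (hc : ‖c‖ < 1) (h0 : c ≠ 0) :
    ∃ n : ℝ × EE d, 0 < lor d n n ∧ tr n c = 0 := by
  have hcp : 0 < ‖c‖ := norm_pos_iff.mpr h0
  have h1 : 0 < 1 - ‖c‖ ^ 2 := by nlinarith
  set s : ℝ := Real.sqrt (1 - ‖c‖ ^ 2) with hs
  have hs0 : 0 < s := Real.sqrt_pos.mpr h1
  have hs2 : s ^ 2 = 1 - ‖c‖ ^ 2 := Real.sq_sqrt h1.le
  have hs1 : s < 1 := by nlinarith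
  -- n = s * o - lft c
  refine ⟨(s - 1, -c), ?_, ?_⟩
  · rw [lor_self]
    simp only [norm_neg]
    nlinarith
  · have e1 : lor d (s - 1, -c) (s - 1, -c) = 2 * s * (1 - s) := by
      rw [lor_self]
      simp only [norm_neg]
      nlinarith
    have e2 : lor d (s - 1, -c) (lft c) = s ^ 2 - s := by
      rw [lor_apply]
      simp only [lft, inner_neg_left, real_inner_self_eq_norm_sq]
      linarith
    rw [tr, rfl'_apply, e1, e2]
    have e3 : 2 / (2 * s * (1 - s)) * (s ^ 2 - s) = -1 := by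
      have : 1 - s ≠ 0 := by linarith
      field_simp
      ring
    rw [e3]
    simp [prj, lft]

end BallSimp
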